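import Pool.Agent.Lib.MP_562567_gt.Spec

/-!
# MP_562567_gt, AN: the angle is at most the length of a curve in the sphere
-/

set_option autoImplicit false

namespace Pool.Agent.MP562567

open Set

theorem ang : S_Ang := by
  intro n γ hγ hnorm
  have hdc : Continuous (deriv γ) := hγ.continuous_deriv le_rfl
  have hd : ∀ t, HasDerivAt γ (deriv γ t) t := fun t =>
    (hγ.differentiable (by norm_num) t).hasDerivAt
  set L : ℝ → ℝ := fun t => ∫ u in (0 : ℝ)..t, ‖deriv γ u‖ with hLdef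
  have hL : ∀ t, HasDerivAt L ‖deriv γ t‖ t := fun t =>
    intervalIntegral.integral_hasDerivAt_right (hdc.norm.intervalIntegrable _ _)
      (hdc.norm.stronglyMeasurableAtFilter _ _) hdc.norm.continuousAt
  have hL0 : L 0 = 0 := by simp [hLdef]
  have hLmono : Monotone L := by
    refine monotone_of_deriv_nonneg (fun t => (hL t).differentiableAt) fun t => ?_
    rw [(hL t).deriv]
    exact norm_nonneg _
  change InnerProductGeometry.angle (γ 0) (γ 1) ≤ L 1
  rcases le_or_gt Real.pi (L 1) with hpi | hpi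
  · exact (InnerProductGeometry.angle_le_pi _ _).trans hpi
  refine le_of_forall_pos_le_add fun δ hδ => ?_
  -- the parameter
  obtain ⟨ε, hε, hε1, hε2⟩ : ∃ ε : ℝ, 0 < ε ∧ 2 * ε ≤ δ ∧ L 1 + 2 * ε < Real.pi := by
    refine ⟨min (δ / 2) ((Real.pi - L 1) / 4), lt_min (by linarith) (by linarith), ?_, ?_⟩
    · linarith [min_le_left (δ / 2) ((Real.pi - L 1) / 4)]
    · linarith [min_le_right (δ / 2) ((Real.pi - L 1) / 4)]
  set θ : ℝ → ℝ := fun t => L t + ε * (1 + t) with hθdef
  have hθ : ∀ t, HasDerivAt θ (‖deriv γ t‖ + ε) t := by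
    intro t
    have h1 : HasDerivAt (fun t : ℝ => ε * (1 + t)) ε t := by
      simpa using ((hasDerivAt_id t).const_add 1).const_mul ε
    exact (hL t).add h1
  set h : ℝ → ℝ := fun t => inner ℝ (γ t) (γ 0) with hhdef
  have hh : ∀ t, HasDerivAt h (inner ℝ (deriv γ t) (γ 0)) t := by
    intro t
    have := (hd t).inner ℝ (hasDerivAt_const t (γ 0))
    simpa using this
  have hθpos : ∀ t ∈ Icc (0 : ℝ) 1, 0 < θ t ∧ θ t < Real.pi := by
    intro t ht
    have h1 : 0 ≤ L t := hL0 ▸ hLmono ht.1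
    have h2 : L t ≤ L 1 := hLmono ht.2
    have h3 : ε * (1 + t) ≤ 2 * ε := by nlinarith [ht.2]
    have h4 : 0 < ε * (1 + t) := mul_pos hε (by linarith [ht.1])
    exact ⟨by simp only [hθdef]; linarith, by simp only [hθdef]; linarith⟩
  have horth : ∀ t ∈ Icc (0 : ℝ) 1, inner ℝ (deriv γ t) (γ t) = (0 : ℝ) := by
    intro t ht
    have h1 : HasDerivWithinAt (fun t => (inner ℝ (γ t) (γ t) : ℝ))
        (inner ℝ (γ t) (deriv γ t) + inner ℝ (deriv γ t) (γ t)) (Icc 0 1) t :=
      ((hd t).inner ℝ (hd t)).hasDerivWithinAt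
    have h2 : HasDerivWithinAt (fun t => (inner ℝ (γ t) (γ t) : ℝ)) 0 (Icc 0 1) t := by
      refine (hasDerivWithinAt_const t (Icc (0 : ℝ) 1) (1 : ℝ)).congr ?_ ?_
      · intro u hu
        rw [real_inner_self_eq_norm_sq, hnorm u hu, one_pow]
      · rw [real_inner_self_eq_norm_sq, hnorm t ht, one_pow]
    have h3 := (uniqueDiffOn_Icc one_pos t ht).eq_deriv _ h1 h2
    rw [real_inner_comm] at h3
    linarith
  have hbound : ∀ t ∈ Icc (0 : ℝ) 1, |(inner ℝ (deriv γ t) (γ 0) : ℝ)| ≤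
      ‖deriv γ t‖ * Real.sqrt (1 - h t ^ 2) := by
    intro t ht
    have h1 : (inner ℝ (deriv γ t) (γ 0) : ℝ) = inner ℝ (deriv γ t) (γ 0 - h t • γ t) := by
      rw [inner_sub_right, real_inner_smul_right, horth t ht]
      ring
    have h2 : ‖γ 0 - h t • γ t‖ ^ 2 = 1 - h t ^ 2 := by
      rw [norm_sub_sq_real, norm_smul, mul_pow, hnorm t ht, hnorm 0 ⟨le_rfl, zero_le_one⟩,
        Real.norm_eq_abs, sq_abs, real_inner_smul_right, real_inner_comm]
      simp only [hhdef]
      ring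
    have h3 : ‖γ 0 - h t • γ t‖ = Real.sqrt (1 - h t ^ 2) := by
      rw [← h2, Real.sqrt_sq (norm_nonneg _)]
    rw [h1, ← h3]
    exact abs_real_inner_le_norm _ _
  have key := image_le_of_deriv_right_lt_deriv_boundary' (a := 0) (b := 1)
    (f := fun t => Real.cos (θ t)) (f' := fun t => -Real.sin (θ t) * (‖deriv γ t‖ + ε))
    (B := h) (B' := fun t => inner ℝ (deriv γ t) (γ 0))
    (fun t _ => ((hθ t).cos.continuousAt).continuousWithinAt)
    (fun t _ => ((hθ t).cos).hasDerivWithinAt)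
    (by
      have : h 0 = 1 := by
        simp only [hhdef]
        rw [real_inner_self_eq_norm_sq, hnorm 0 ⟨le_rfl, zero_le_one⟩, one_pow]
      rw [this]
      exact Real.cos_le_one _)
    (fun t _ => (hh t).continuousAt.continuousWithinAt)
    (fun t _ => (hh t).hasDerivWithinAt)
    (by
      intro t ht heq
      have ht' : t ∈ Icc (0 : ℝ) 1 := ⟨ht.1, ht.2.le⟩
      obtain ⟨h1, h2⟩ := hθpos t ht'
      have hsin : 0 < Real.sin (θ t) := Real.sin_pos_of_pos_of_lt_pi h1 h2
      have h3 : Real.sqrt (1 - h t ^ 2) = Real.sin (θ t) := by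
        have heq' : h t = Real.cos (θ t) := heq.symm
        rw [heq', ← Real.sin_sq, Real.sqrt_sq hsin.le]
      have h4 := hbound t ht'
      rw [h3] at h4
      have h5 := (abs_le.mp h4).1
      change -Real.sin (θ t) * (‖deriv γ t‖ + ε) < inner ℝ (deriv γ t) (γ 0)
      nlinarith [mul_pos hε hsin])
    (x := 1) ⟨zero_le_one, le_rfl⟩
  have h1 : Real.cos (θ 1) ≤ h 1 := key
  have h01 : (1 : ℝ) ∈ Icc (0 : ℝ) 1 := ⟨zero_le_one, le_rfl⟩
  have h2 : InnerProductGeometry.angle (γ 0) (γ 1) ≤ θ 1 := by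
    unfold InnerProductGeometry.angle
    rw [hnorm 0 ⟨le_rfl, zero_le_one⟩, hnorm 1 h01, mul_one, div_one, real_inner_comm]
    calc Real.arccos (h 1) ≤ Real.arccos (Real.cos (θ 1)) := Real.arccos_le_arccos h1
      _ = θ 1 := Real.arccos_cos (hθpos 1 h01).1.le (hθpos 1 h01).2.le
  have h3 : θ 1 = L 1 + 2 * ε := by
    simp only [hθdef]
    ring
  linarith

end Pool.Agent.MP562567
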