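import Pool.Agent.Lib.MP_562567_gt.Spec

/-!
# MP_562567_gt: the average has no atoms
-/

set_option autoImplicit false

namespace Pool.Agent.MP562567

open MeasureTheory Set

namespace atomAux

/-- transitivity on the unit vectors -/
theorem exists_rho {n : ℕ} (A : Avg n) {y y' : E n} (h : ‖y‖ = ‖y'‖) :
    ∃ k : A.G, A.ρ k y = y' := by
  obtain ⟨k, hk⟩ := A.surj (Submodule.reflection (Submodule.span ℝ {y - y'})ᗮ)
  exact ⟨k, by rw [hk]; exact Submodule.reflection_sub h⟩

theorem meas {n : ℕ} (A : Avg n) (e : E n) : Measurable fun g : A.G => A.ρ g e :=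
  A.measJ.comp (measurable_id.prodMk measurable_const)

theorem measSet {n : ℕ} (A : Avg n) (e y : E n) : MeasurableSet {g | A.ρ g e = y} :=
  meas A e (measurableSet_singleton y)

theorem same {n : ℕ} (A : Avg n) (e : E n) {y y' : E n} (h : ‖y‖ = ‖y'‖) :
    A.μ {g | A.ρ g e = y} = A.μ {g | A.ρ g e = y'} := by
  obtain ⟨k, hk⟩ := exists_rho A h
  have h1 := (A.left k).measure_preimage (measSet A e y').nullMeasurableSet
  rw [← h1]
  congr 1
  ext g
  simp only [mem_setOf_eq, mem_preimage]
  rw [map_mul]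
  change A.ρ g e = y ↔ A.ρ k (A.ρ g e) = y'
  rw [← hk]
  exact ((A.ρ k).injective.eq_iff).symm

/-- infinitely many unit vectors -/
theorem infinite_sphere {n : ℕ} (hn : 2 ≤ n) : {y : E n | ‖y‖ = 1}.Infinite := by
  let i₀ : Fin n := ⟨0, by omega⟩
  let i₁ : Fin n := ⟨1, by omega⟩
  have hne : i₀ ≠ i₁ := by
    intro h
    have := congrArg Fin.val h
    simp [i₀, i₁] at this
  let f : ℝ → E n := fun t => Real.cos t • bv i₀ + Real.sin t • bv i₁
  have hf0 : ∀ t, f t i₀ = Real.cos t := by
    intro t
    simp [f, bv, hne]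
  have hfn : ∀ t, ‖f t‖ = 1 := by
    intro t
    have h1 : ‖(bv i₀ : E n)‖ = 1 := by simp [bv]
    have h2 : ‖(bv i₁ : E n)‖ = 1 := by simp [bv]
    have h3 : inner ℝ (bv i₀ : E n) (bv i₁) = 0 := by
      simp [bv, EuclideanSpace.inner_single_left, hne]
    have h4 : ‖f t‖ ^ 2 = 1 := by
      simp only [f]
      rw [norm_add_sq_real, norm_smul, norm_smul, inner_smul_left, inner_smul_right, h1, h2, h3]
      simp only [Real.norm_eq_abs, mul_one, sq_abs, mul_zero, add_zero]
      linarith [Real.cos_sq_add_sin_sq t]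
    nlinarith [norm_nonneg (f t)]
  have hinj : InjOn f (Icc 0 Real.pi) := by
    intro s hs t ht hst
    apply Real.injOn_cos hs ht
    rw [← hf0 s, ← hf0 t, hst]
  have h1 : (f '' Icc 0 Real.pi).Infinite := (Icc_infinite Real.pi_pos).image hinj
  refine h1.mono ?_
  rintro _ ⟨t, _, rfl⟩
  exact hfn t

end atomAux

open atomAux in
theorem atom : S_Atom := by
  intro n A hn e y he
  by_cases hy : ‖y‖ = 1
  · by_contra hne
    have hinf := infinite_sphere hn
    have h1 := Measure.finite_const_le_meas_of_disjoint_iUnion A.μ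
      (ε := A.μ {g | A.ρ g e = y}) (pos_iff_ne_zero.mpr hne)
      (As := fun z : {z : E n | ‖z‖ = 1} => {g | A.ρ g e = z})
      (fun z => measSet A e z)
      (fun z z' hzz => by
        rw [Function.onFun, Set.disjoint_left]
        intro g hg hg'
        simp only [mem_setOf_eq] at hg hg'
        exact hzz (Subtype.ext (hg.symm.trans hg')))
      (measure_ne_top _ _)
    have h2 : {z : {z : E n | ‖z‖ = 1} | A.μ {g | A.ρ g e = y} ≤ A.μ {g | A.ρ g e = z}} =
        Set.univ := by
      ext z
      simp only [mem_setOf_eq, mem_univ, iff_true]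
      exact le_of_eq (same A e (hy.trans z.2.symm))
    rw [h2] at h1
    exact hinf (Set.finite_coe_iff.mp (Set.finite_univ_iff.mp h1))
  · have h1 : {g | A.ρ g e = y} = ∅ := by
      ext g
      simp only [mem_setOf_eq, mem_empty_iff_false, iff_false]
      intro h
      apply hy
      rw [← h, LinearIsometryEquiv.norm_map, he]
    rw [h1, measure_empty]

end Pool.Agent.MP562567
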