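import Pool.Agent.Lib.MP_562567_gt.Spec

/-!
# MP_562567_gt: the invariant average over the linear isometries (Haar measure) exists
-/

set_option autoImplicit false

namespace Pool.Agent.MP562567

open MeasureTheory Set

namespace avgAux

/-- the group of the linear isometries, as unitary continuous linear maps -/
abbrev UG (n : ℕ) : Type := unitary (E n →L[ℝ] E n)

theorem norm_le (n : ℕ) (u : UG n) : ‖(u : E n →L[ℝ] E n)‖ ≤ 1 :=
  ContinuousLinearMap.opNorm_le_bound _ zero_le_one fun x => by
    rw [Unitary.norm_map, one_mul]

theorem cstar (n : ℕ) : ContinuousStar (E n →L[ℝ] E n) :=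
  ⟨(ContinuousLinearMap.adjoint (𝕜 := ℝ) (E := E n) (F := E n)).continuous⟩

theorem tgrp (n : ℕ) : IsTopologicalGroup (UG n) := by
  have := cstar n
  infer_instance

theorem compact (n : ℕ) : CompactSpace (UG n) := by
  have : ProperSpace (E n →L[ℝ] E n) := FiniteDimensional.proper ℝ _
  have := cstar n
  refine isCompact_iff_compactSpace.1
    (Metric.isCompact_of_isClosed_isBounded (s := (unitary (E n →L[ℝ] E n) : Set (E n →L[ℝ] E n)))
      isClosed_unitary ?_)
  refine (Metric.isBounded_closedBall (x := (0 : E n →L[ℝ] E n)) (r := 1)).subset fun u hu => ?_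
  rw [mem_closedBall_zero_iff]
  exact norm_le n ⟨u, hu⟩

end avgAux

open avgAux in
theorem avg : S_Avg := by
  intro n
  have := compact n
  have := tgrp n
  let : MeasurableSpace (UG n) := borel _
  have : BorelSpace (UG n) := ⟨rfl⟩
  have : FiniteDimensional ℝ (E n →L[ℝ] E n) := inferInstance
  have : SecondCountableTopology (E n →L[ℝ] E n) := by
    have : ProperSpace (E n →L[ℝ] E n) := FiniteDimensional.proper ℝ _
    infer_instance
  have : SecondCountableTopology (UG n) := inferInstance
  let μ : Measure (UG n) := Measure.haarMeasure ⊤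
  have hprob : IsProbabilityMeasure μ := by
    constructor
    have h := Measure.haarMeasure_self (K₀ := (⊤ : TopologicalSpace.PositiveCompacts (UG n)))
    rwa [TopologicalSpace.PositiveCompacts.coe_top] at h
  have : μ.IsHaarMeasure := inferInstanceAs (Measure.IsHaarMeasure (Measure.haarMeasure _))
  refine ⟨Avg.mk (UG n) μ hprob Unitary.linearIsometryEquiv.toMonoidHom ?_
    (fun k => measurePreserving_mul_left μ k) (fun k => ?_)
      Unitary.linearIsometryEquiv.surjective⟩
  · refine Continuous.measurable ?_
    exact (continuous_subtype_val.comp continuous_fst).clm_apply continuous_snd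
  · refine ⟨measurable_mul_const k, ?_⟩
    have : IsProbabilityMeasure (μ.map (fun g => g * k)) :=
      Measure.isProbabilityMeasure_map (measurable_mul_const k).aemeasurable
    exact Measure.isHaarMeasure_eq_of_isProbabilityMeasure _ _

end Pool.Agent.MP562567
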