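import Pool.Agent.Lib.MP_562567_gt.Spec

/-!
# MP_562567_gt, CC: the round caps
-/

set_option autoImplicit false

namespace Pool.Agent.MP562567

namespace capAux

variable {n : ℕ}

/-- elementary facts on the parameter -/
theorem capl_facts (R : ℝ) (h0 : 0 < R) (h1 : R ≤ 1) : 0 < capl R ∧
    2 * capl R = R * (1 + capl R ^ 2) ∧
    1 - capl R ^ 2 = Real.sqrt (1 - R ^ 2) * (1 + capl R ^ 2) := by
  have hR : 0 ≤ 1 - R ^ 2 := by nlinarith
  obtain ⟨w, hw⟩ : ∃ w : ℝ, w = Real.sqrt (1 - R ^ 2) := ⟨_, rfl⟩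
  have hw0 : 0 ≤ w := by rw [hw]; exact Real.sqrt_nonneg _
  have hw2 : w ^ 2 = 1 - R ^ 2 := by rw [hw]; exact Real.sq_sqrt hR
  have hw1 : w < 1 := by nlinarith
  obtain ⟨l, hl⟩ : ∃ l : ℝ, l = capl R := ⟨_, rfl⟩
  have hlR : l * R = 1 - w := by
    rw [hl, hw]
    unfold capl
    field_simp
  rw [← hl, ← hw]
  have hl0 : 0 < l := by
    by_contra hcon
    have : l * R ≤ 0 := mul_nonpos_of_nonpos_of_nonneg (not_lt.1 hcon) h0.le
    linarith
  have hl2 : l ^ 2 * (1 + w) = 1 - w := by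
    have e1 : l ^ 2 * R ^ 2 = (1 - w) ^ 2 := by rw [← mul_pow, hlR]
    have e2 : R ^ 2 = (1 - w) * (1 + w) := by linarith
    rw [e2] at e1
    have e3 : (1 - w) * (l ^ 2 * (1 + w)) = (1 - w) * (1 - w) := by linarith
    exact mul_left_cancel₀ (by linarith) e3
  refine ⟨hl0, ?_, ?_⟩
  · have e1 : (1 + w) * (2 * l) = (1 + w) * (R * (1 + l ^ 2)) := by
      have e2 : (1 + w) * (1 + l ^ 2) = 2 := by linarith
      have e3 : l * (R * R) = (1 - w) * R := by rw [← mul_assoc, hlR]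
      have e4 : R * R = (1 - w) * (1 + w) := by linarith
      rw [e4] at e3
      have e5 : (1 - w) * (l * (1 + w)) = (1 - w) * R := by linarith
      have e6 : l * (1 + w) = R := mul_left_cancel₀ (by linarith) e5
      calc (1 + w) * (2 * l) = 2 * (l * (1 + w)) := by ring
        _ = 2 * R := by rw [e6]
        _ = R * ((1 + w) * (1 + l ^ 2)) := by rw [e2]; ring
        _ = _ := by ring
    exact mul_left_cancel₀ (by linarith) e1
  · have e1 : (1 + w) * (1 - l ^ 2) = (1 + w) * (w * (1 + l ^ 2)) := by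
      have e2 : (1 + w) * (1 + l ^ 2) = 2 := by linarith
      have e3 : (1 + w) * (1 - l ^ 2) = 2 * w := by linarith
      rw [e3]
      calc 2 * w = w * ((1 + w) * (1 + l ^ 2)) := by rw [e2]; ring
        _ = _ := by ring
    exact mul_left_cancel₀ (by linarith) e1

theorem D_pos (l : ℝ) (x : E n) : 0 < 1 + l ^ 2 * ‖x‖ ^ 2 := by positivity

theorem capS_eq (R : ℝ) (h0 : 0 < capl R) : capS n R =
    fun x => Real.log (2 * capl R) - Real.log (1 + capl R ^ 2 * ‖x‖ ^ 2) := by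
  funext x
  unfold capS
  rw [Real.log_div (by positivity) (D_pos _ x).ne']

theorem hasD (l : ℝ) (x : E n) : HasFDerivAt (fun y : E n => 1 + l ^ 2 * ‖y‖ ^ 2)
    (l ^ 2 • (2 • (innerSL ℝ x))) x := by
  have h1 : HasFDerivAt (fun y : E n => ‖y‖ ^ 2) (2 • (innerSL ℝ x)) x :=
    (hasStrictFDerivAt_norm_sq x).hasFDerivAt
  exact (h1.const_mul (l ^ 2)).const_add 1

theorem hasS (R : ℝ) (h0 : 0 < capl R) (x : E n) : HasFDerivAt (capS n R)
    (-((1 + capl R ^ 2 * ‖x‖ ^ 2)⁻¹ • (capl R ^ 2 • (2 • (innerSL ℝ x))))) x := by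
  rw [capS_eq R h0]
  exact ((hasD (capl R) x).log (D_pos _ x).ne').const_sub _

theorem inner_bv (x : E n) (i : Fin n) : inner ℝ x (bv i) = x i := by
  unfold bv
  rw [EuclideanSpace.inner_single_right]
  simp

theorem pdS (R : ℝ) (h0 : 0 < capl R) (i : Fin n) : pd i (capS n R) =
    fun x => -((1 + capl R ^ 2 * ‖x‖ ^ 2)⁻¹ * (capl R ^ 2 * (2 * x i))) := by
  funext x
  unfold pd
  rw [(hasS R h0 x).fderiv]
  simp only [neg_apply, smul_apply, smul_eq_mul, innerSL_apply_apply, inner_bv, nsmul_eq_mul,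
    Nat.cast_ofNat]

theorem pdpdS (R : ℝ) (h0 : 0 < capl R) (i : Fin n) (x : E n) : pd i (pd i (capS n R)) x =
    - (2 * capl R ^ 2 * (1 + capl R ^ 2 * ‖x‖ ^ 2)⁻¹) +
      4 * capl R ^ 4 * x i ^ 2 * (1 + capl R ^ 2 * ‖x‖ ^ 2)⁻¹ ^ 2 := by
  rw [pdS R h0 i]
  have g1 := (hasDerivAt_inv (D_pos (capl R) x).ne').comp_hasFDerivAt x (hasD (capl R) x)
  have g2 : HasFDerivAt (fun y : E n => y i) (EuclideanSpace.proj i : E n →L[ℝ] ℝ) x :=
    (EuclideanSpace.proj i : E n →L[ℝ] ℝ).hasFDerivAt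
  have g3 := (g1.fun_mul ((g2.const_mul 2).const_mul (capl R ^ 2))).fun_neg
  have g4 : (EuclideanSpace.proj i : E n →L[ℝ] ℝ) (bv i) = 1 := by
    simp [bv]
  unfold pd
  have g5 := g3.fderiv
  simp only [Function.comp_apply] at g5
  rw [g5]
  simp only [neg_apply, add_apply, smul_apply, smul_eq_mul, innerSL_apply_apply, inner_bv,
    nsmul_eq_mul, Nat.cast_ofNat, g4]
  rw [← inv_pow]
  ring

end capAux

open capAux in
/-- **CC.** -/
theorem cap : S_Cap := by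
  intro hSc hH n R hn h0 h1
  obtain ⟨hl0, hl1, hl2⟩ := capl_facts R h0 h1
  have hcd : ContDiff ℝ (↑(⊤ : ℕ∞)) (capS n R) := by
    rw [capS_eq R hl0]
    refine contDiff_const.sub (ContDiff.log ?_ fun x => (D_pos _ x).ne')
    exact contDiff_const.add (contDiff_const.mul (contDiff_norm_sq ℝ))
  refine ⟨hcd, ?_, ?_⟩
  · intro x
    rw [hSc n _ x hcd]
    have e1 : Real.exp (-2 * capS n R x) =
        (1 + capl R ^ 2 * ‖x‖ ^ 2) ^ 2 * (2 * capl R)⁻¹ ^ 2 := by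
      unfold capS
      rw [show -2 * Real.log (2 * capl R / (1 + capl R ^ 2 * ‖x‖ ^ 2)) =
        -(2 * Real.log (2 * capl R / (1 + capl R ^ 2 * ‖x‖ ^ 2))) by ring, Real.exp_neg]
      have hq : 0 < 2 * capl R / (1 + capl R ^ 2 * ‖x‖ ^ 2) := by positivity
      rw [two_mul (Real.log _), Real.exp_add, Real.exp_log hq]
      have := D_pos (capl R) x
      field_simp
    have e2 : lap (capS n R) x = - (n * (2 * capl R ^ 2 * (1 + capl R ^ 2 * ‖x‖ ^ 2)⁻¹)) +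
        4 * capl R ^ 4 * ‖x‖ ^ 2 * (1 + capl R ^ 2 * ‖x‖ ^ 2)⁻¹ ^ 2 := by
      unfold lap
      simp_rw [pdpdS R hl0]
      rw [Finset.sum_add_distrib, Finset.sum_neg_distrib, Finset.sum_const, Finset.card_univ,
        Fintype.card_fin, nsmul_eq_mul, ← Finset.sum_mul, ← Finset.mul_sum,
        ← EuclideanSpace.real_norm_sq_eq]
    have e3 : ∑ i, pd i (capS n R) x ^ 2 =
        4 * capl R ^ 4 * ‖x‖ ^ 2 * (1 + capl R ^ 2 * ‖x‖ ^ 2)⁻¹ ^ 2 := by
      have e4 : ∀ i, pd i (capS n R) x ^ 2 =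
          4 * capl R ^ 4 * x i ^ 2 * (1 + capl R ^ 2 * ‖x‖ ^ 2)⁻¹ ^ 2 := by
        intro i
        rw [pdS R hl0]
        ring
      simp_rw [e4]
      rw [← Finset.sum_mul, ← Finset.mul_sum, ← EuclideanSpace.real_norm_sq_eq]
    rw [e1, e2, e3]
    have hD := (D_pos (capl R) x).ne'
    obtain ⟨D, hDd⟩ : ∃ D : ℝ, D = 1 + capl R ^ 2 * ‖x‖ ^ 2 := ⟨_, rfl⟩
    obtain ⟨q, hq⟩ : ∃ q : ℝ, q = ‖x‖ ^ 2 := ⟨_, rfl⟩
    rw [← hDd] at hD ⊢
    rw [← hq] at hDd ⊢
    have hl := hl0.ne'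
    obtain ⟨l, hll⟩ : ∃ l : ℝ, l = capl R := ⟨_, rfl⟩
    rw [← hll] at hl hDd ⊢
    field_simp
    rw [hDd]
    ring
  · intro x hxs
    have hx1 : ‖x‖ = 1 := by
      rw [mem_sphere_zero_iff_norm] at hxs
      exact hxs
    have hD : 0 < 1 + capl R ^ 2 := by positivity
    have e1 : Real.exp (capS n R x) = R := by
      unfold capS
      rw [hx1, one_pow, mul_one, Real.exp_log (by positivity), div_eq_iff hD.ne', hl1]
    refine ⟨e1, ?_⟩
    rw [hH n _ x hcd hx1, Real.exp_neg, e1, (hasS R hl0 x).fderiv]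
    simp only [neg_apply, smul_apply, smul_eq_mul, innerSL_apply_apply, nsmul_eq_mul,
      Nat.cast_ofNat, real_inner_self_eq_norm_sq, hx1]
    have e2 : Real.sqrt (1 / R ^ 2 - 1) = Real.sqrt (1 - R ^ 2) / R := by
      have : 1 / R ^ 2 - 1 = (1 - R ^ 2) / R ^ 2 := by field_simp
      rw [this, Real.sqrt_div (by nlinarith), Real.sqrt_sq h0.le]
    rw [e2]
    have e3 : Real.sqrt (1 - R ^ 2) = (1 - capl R ^ 2) / (1 + capl R ^ 2) := by
      rw [eq_div_iff hD.ne', hl2]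
    rw [e3]
    field_simp
    ring

end Pool.Agent.MP562567
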