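import Pool.Agent.Lib.MP_562567_gt.Spec

/-!
# MP_562567_gt, CA: the boundary of the cap of radius `R` has hyperspherical radius at least `R`
-/

set_option autoImplicit false

namespace Pool.Agent.MP562567

theorem capRad : S_CapRad := by
  intro hId hLen hAng hSc hH hCap n R hn hR hR1
  refine ⟨ContinuousMap.id (Sph n), hId n (by omega), ?_⟩
  intro γ hγ hmem x y hx hy
  obtain ⟨-, -, h3⟩ := hCap hSc hH n R hn hR hR1
  have h1 : len (conf (capS n R)) γ = R * ∫ t in (0 : ℝ)..1, ‖deriv γ t‖ := by
    rw [hLen, ← intervalIntegral.integral_const_mul]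
    refine intervalIntegral.integral_congr fun t ht => ?_
    rw [Set.uIcc_of_le zero_le_one] at ht
    change Real.exp (capS n R (γ t)) * ‖deriv γ t‖ = R * ‖deriv γ t‖
    rw [(h3 _ (hmem t ht)).1]
  have h2 := hAng n γ hγ (fun t ht => mem_sphere_zero_iff_norm.mp (hmem t ht))
  rw [h1]
  refine mul_le_mul_of_nonneg_left ?_ hR.le
  change InnerProductGeometry.angle (x : E n) (y : E n) ≤ _
  rw [← hx, ← hy]
  exact h2

end Pool.Agent.MP562567
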