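import Pool.Agent.Lib.MP_562567_gt.Spec

/-!
# MP_562567_gt: the inequality for closed curves
-/

set_option autoImplicit false

namespace Pool.Agent.MP562567

open MeasureTheory Set

namespace circAux

theorem sin_nat (k : ℕ) (x : ℝ) : |Real.sin (k * x)| ≤ k * |Real.sin x| := by
  induction k with
  | zero => simp
  | succ k ih =>
    have h1 : Real.sin (((k + 1 : ℕ) : ℝ) * x) =
        Real.sin (k * x) * Real.cos x + Real.cos (k * x) * Real.sin x := by
      rw [← Real.sin_add]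
      congr 1
      push_cast
      ring
    rw [h1]
    have h2 : |Real.sin (k * x) * Real.cos x| ≤ |Real.sin (k * x)| := by
      rw [abs_mul]
      exact mul_le_of_le_one_right (abs_nonneg _) (Real.abs_cos_le_one _)
    have h3 : |Real.cos (k * x) * Real.sin x| ≤ |Real.sin x| := by
      rw [abs_mul]
      exact mul_le_of_le_one_left (abs_nonneg _) (Real.abs_cos_le_one _)
    have h4 := abs_add_le (Real.sin (k * x) * Real.cos x) (Real.cos (k * x) * Real.sin x)
    push_cast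
    linarith

theorem sin_int_sq (k : ℤ) (x : ℝ) : Real.sin (k * x) ^ 2 ≤ (k : ℝ) ^ 2 * Real.sin x ^ 2 := by
  obtain ⟨m, rfl | rfl⟩ := k.eq_nat_or_neg
  · have h := sin_nat m x
    have h2 := pow_le_pow_left₀ (abs_nonneg _) h 2
    rw [sq_abs, mul_pow, sq_abs] at h2
    push_cast
    exact h2
  · have h := sin_nat m x
    have h2 := pow_le_pow_left₀ (abs_nonneg _) h 2
    rw [sq_abs, mul_pow, sq_abs] at h2
    push_cast
    rw [neg_mul, Real.sin_neg, neg_sq, neg_sq]
    exact h2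

theorem cs (ω : ℝ → ℝ) (hω : Continuous ω) (t δ : ℝ) (hδ : 0 < δ) :
    (∫ s in t..t + δ, ω s) ^ 2 ≤ δ * ∫ s in t..t + δ, ω s ^ 2 := by
  set I : ℝ := ∫ s in t..t + δ, ω s with hI
  set m : ℝ := I / δ with hm
  have h0 : 0 ≤ ∫ s in t..t + δ, (ω s - m) ^ 2 :=
    intervalIntegral.integral_nonneg (by linarith) fun s _ => sq_nonneg _
  have hi1 : IntervalIntegrable (fun s => ω s ^ 2) volume t (t + δ) :=
    (hω.pow 2).intervalIntegrable _ _
  have hi2 : IntervalIntegrable (fun s => 2 * m * ω s) volume t (t + δ) :=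
    (continuous_const.mul hω).intervalIntegrable _ _
  have hi3 : IntervalIntegrable (fun _ => m ^ 2) volume t (t + δ) :=
    continuous_const.intervalIntegrable _ _
  have h1 : ∫ s in t..t + δ, (ω s - m) ^ 2 = (∫ s in t..t + δ, ω s ^ 2) - 2 * m * I + δ * m ^ 2 := by
    have h2 : ∫ s in t..t + δ, (ω s - m) ^ 2 = ∫ s in t..t + δ, (ω s ^ 2 - 2 * m * ω s + m ^ 2) :=
      intervalIntegral.integral_congr fun s _ => by ring
    rw [h2, intervalIntegral.integral_add (hi1.sub hi2) hi3, intervalIntegral.integral_sub hi1 hi2,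
      intervalIntegral.integral_const_mul, intervalIntegral.integral_const, smul_eq_mul]
    rw [add_sub_cancel_left]
  rw [h1] at h0
  have hmI : m * δ = I := by
    rw [hm]
    field_simp
  have h3 : I ^ 2 = δ * (2 * m * I - δ * m ^ 2) := by
    rw [← hmI]
    ring
  rw [h3]
  apply mul_le_mul_of_nonneg_left _ hδ.le
  linarith

theorem shift (g : ℝ → ℝ) (hp : ∀ t, g (t + 2 * Real.pi) = g t) (s : ℝ) :
    ∫ t in (0 : ℝ)..(2 * Real.pi), g (t + s) = ∫ t in (0 : ℝ)..(2 * Real.pi), g t := by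
  rw [intervalIntegral.integral_comp_add_right g]
  have hp' : Function.Periodic g (2 * Real.pi) := hp
  have h4 := hp'.intervalIntegral_add_eq s 0
  rw [zero_add] at h4
  rw [zero_add, add_comm (2 * Real.pi) s]
  exact h4

theorem dbound {n : ℕ} (c : ℝ → E n) (ω : ℝ → ℝ) (hc : Continuous c) (hω : Continuous ω)
    (hpω : ∀ t, ω (t + 2 * Real.pi) = ω t)
    (hcω : ∀ σ τ, σ ≤ τ → ‖c τ - c σ‖ ≤ ∫ t in σ..τ, ω t) (δ : ℝ) (hδ : 0 < δ) :
    ∫ t in (0 : ℝ)..(2 * Real.pi), ‖c (t + δ) - c t‖ ^ 2 ≤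
      δ ^ 2 * ∫ t in (0 : ℝ)..(2 * Real.pi), ω t ^ 2 := by
  set W : ℝ := ∫ t in (0 : ℝ)..(2 * Real.pi), ω t ^ 2 with hW
  have hcu' : Continuous fun p : ℝ × ℝ => ω (p.1 + p.2) ^ 2 := by fun_prop
  have hcu : Continuous (Function.uncurry fun t s : ℝ => ω (t + s) ^ 2) := hcu'
  have hcont2 : Continuous fun t : ℝ => ∫ s in (0 : ℝ)..δ, ω (t + s) ^ 2 :=
    intervalIntegral.continuous_parametric_intervalIntegral_of_continuous'
      (f := fun t s : ℝ => ω (t + s) ^ 2) hcu 0 δ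
  have h1 : ∀ t, ‖c (t + δ) - c t‖ ^ 2 ≤ δ * ∫ s in (0 : ℝ)..δ, ω (t + s) ^ 2 := by
    intro t
    have h2 : ∫ s in (0 : ℝ)..δ, ω (t + s) ^ 2 = ∫ s in t..t + δ, ω s ^ 2 := by
      rw [intervalIntegral.integral_comp_add_left (fun s => ω s ^ 2), add_zero]
    rw [h2]
    refine le_trans ?_ (cs ω hω t δ hδ)
    exact pow_le_pow_left₀ (norm_nonneg _) (hcω t (t + δ) (by linarith)) 2
  have hcc : Continuous fun t : ℝ => ‖c (t + δ) - c t‖ ^ 2 := by fun_prop
  calc ∫ t in (0 : ℝ)..(2 * Real.pi), ‖c (t + δ) - c t‖ ^ 2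
      ≤ ∫ t in (0 : ℝ)..(2 * Real.pi), δ * ∫ s in (0 : ℝ)..δ, ω (t + s) ^ 2 :=
        intervalIntegral.integral_mono_on (by positivity) (hcc.intervalIntegrable _ _)
          ((continuous_const.mul hcont2).intervalIntegrable _ _) fun t _ => h1 t
    _ = δ * ∫ t in (0 : ℝ)..(2 * Real.pi), ∫ s in (0 : ℝ)..δ, ω (t + s) ^ 2 := by
        rw [intervalIntegral.integral_const_mul]
    _ = δ * ∫ s in (0 : ℝ)..δ, ∫ t in (0 : ℝ)..(2 * Real.pi), ω (t + s) ^ 2 := by
        congr 1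
        refine MeasureTheory.intervalIntegral_intervalIntegral_swap
          (F := fun t s : ℝ => ω (t + s) ^ 2) ?_
        exact (hcu.continuousOn.integrableOn_compact
          ((isCompact_uIcc (a := 0) (b := 2 * Real.pi)).prod
            (isCompact_uIcc (a := 0) (b := δ)))).mono_set
          (Set.prod_mono uIoc_subset_uIcc uIoc_subset_uIcc)
    _ = δ * ∫ s in (0 : ℝ)..δ, W := by
        congr 1
        refine intervalIntegral.integral_congr fun s _ => ?_
        exact shift (fun t => ω t ^ 2) (fun t => by simp only [hpω]) s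
    _ = δ ^ 2 * W := by
        rw [intervalIntegral.integral_const, smul_eq_mul]
        ring

theorem tend (k : ℤ) :
    Filter.Tendsto (fun δ : ℝ => 4 * Real.sin (k * δ / 2) ^ 2 / δ ^ 2)
      (nhdsWithin 0 (Set.Ioi 0)) (nhds ((k : ℝ) ^ 2)) := by
  have h1 : HasDerivAt (fun δ : ℝ => Real.sin (k * δ / 2)) ((k : ℝ) / 2) 0 := by
    have h2 : HasDerivAt (fun δ : ℝ => (k : ℝ) * δ / 2) ((k : ℝ) / 2) 0 := by
      have h3 := ((hasDerivAt_id (0 : ℝ)).const_mul (k : ℝ)).div_const 2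
      simpa using h3
    have h4 := h2.sin
    simpa using h4
  have h5 := h1.tendsto_slope_zero_right
  have h6 := (h5.pow 2).const_mul 4
  have h7 : 4 * ((k : ℝ) / 2) ^ 2 = (k : ℝ) ^ 2 := by ring
  rw [h7] at h6
  refine h6.congr fun δ => ?_
  simp only [mul_zero, zero_div, Real.sin_zero, sub_zero, zero_add, smul_eq_mul]
  rw [mul_pow, inv_pow, div_eq_mul_inv]
  ring

end circAux

open circAux in
theorem circ : S_Circ := by
  intro hPA n c ω hc hω hpc hpω hω0 hcω r
  set W : ℝ := ∫ t in (0 : ℝ)..(2 * Real.pi), ω t ^ 2 with hW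
  have hci : ∀ i : Fin n, Continuous fun t => c t i := fun i => by
    have h : Continuous fun x : E n => x i := by fun_prop
    exact h.comp hc
  choose a ha0 hasum using fun i : Fin n => hPA (fun t => c t i) (hci i) (fun t => by rw [hpc])
  set A : ℤ → ℝ := fun k => ∑ i, a i k with hA
  have hA0 : ∀ k, 0 ≤ A k := fun k => Finset.sum_nonneg fun i _ => ha0 i k
  have hD : ∀ δ : ℝ, HasSum (fun k : ℤ => 4 * Real.sin (k * δ / 2) ^ 2 * A k)
      (∫ t in (0 : ℝ)..(2 * Real.pi), ‖c (t + δ) - c t‖ ^ 2) := by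
    intro δ
    have h1 := hasSum_sum (s := Finset.univ) fun i _ => hasum i δ
    have h2 : ∫ t in (0 : ℝ)..(2 * Real.pi), ‖c (t + δ) - c t‖ ^ 2 =
        ∑ i, ∫ t in (0 : ℝ)..(2 * Real.pi), (c (t + δ) i - c t i) ^ 2 := by
      rw [← intervalIntegral.integral_finset_sum]
      · refine intervalIntegral.integral_congr fun t _ => ?_
        change ‖c (t + δ) - c t‖ ^ 2 = ∑ i, (c (t + δ) i - c t i) ^ 2
        rw [EuclideanSpace.norm_sq_eq]
        refine Finset.sum_congr rfl fun i _ => ?_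
        rw [Real.norm_eq_abs, sq_abs]
        rfl
      · intro i _
        have h3 := hci i
        exact (by fun_prop : Continuous fun t => (c (t + δ) i - c t i) ^ 2).intervalIntegrable _ _
    rw [h2]
    have h4 : (fun k : ℤ => 4 * Real.sin (k * δ / 2) ^ 2 * A k) =
        fun k : ℤ => ∑ i, 4 * Real.sin (k * δ / 2) ^ 2 * a i k := by
      funext k
      rw [hA, Finset.mul_sum]
    rw [h4]
    exact h1
  have hK : ∀ K : Finset ℤ, ∑ k ∈ K, (k : ℝ) ^ 2 * A k ≤ W := by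
    intro K
    have h1 : Filter.Tendsto (fun δ : ℝ => ∑ k ∈ K, 4 * Real.sin (k * δ / 2) ^ 2 / δ ^ 2 * A k)
        (nhdsWithin 0 (Set.Ioi 0)) (nhds (∑ k ∈ K, (k : ℝ) ^ 2 * A k)) :=
      tendsto_finset_sum K fun k _ => (tend k).mul_const (A k)
    refine le_of_tendsto h1 ?_
    filter_upwards [self_mem_nhdsWithin] with δ hδ
    have hδ' : (0 : ℝ) < δ := hδ
    have h2 : ∑ k ∈ K, 4 * Real.sin (k * δ / 2) ^ 2 * A k ≤
        ∫ t in (0 : ℝ)..(2 * Real.pi), ‖c (t + δ) - c t‖ ^ 2 :=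
      sum_le_hasSum K (fun k _ => mul_nonneg (by positivity) (hA0 k)) (hD δ)
    have h3 := dbound c ω hc hω hpω hcω δ hδ'
    have h4 : ∑ k ∈ K, 4 * Real.sin (k * δ / 2) ^ 2 / δ ^ 2 * A k =
        (∑ k ∈ K, 4 * Real.sin (k * δ / 2) ^ 2 * A k) / δ ^ 2 := by
      rw [Finset.sum_div]
      refine Finset.sum_congr rfl fun k _ => ?_
      ring
    rw [h4, div_le_iff₀ (by positivity)]
    linarith
  refine hasSum_le_of_sum_le (hD r) fun K => ?_
  calc ∑ k ∈ K, 4 * Real.sin (k * r / 2) ^ 2 * A k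
      ≤ ∑ k ∈ K, 4 * Real.sin (r / 2) ^ 2 * ((k : ℝ) ^ 2 * A k) := by
        refine Finset.sum_le_sum fun k _ => ?_
        have h1 := sin_int_sq k (r / 2)
        have h2 : (k : ℝ) * (r / 2) = k * r / 2 := by ring
        rw [h2] at h1
        have h3 := hA0 k
        nlinarith [mul_le_mul_of_nonneg_right h1 h3]
    _ = 4 * Real.sin (r / 2) ^ 2 * ∑ k ∈ K, (k : ℝ) ^ 2 * A k := by rw [Finset.mul_sum]
    _ ≤ 4 * Real.sin (r / 2) ^ 2 * W := by
        apply mul_le_mul_of_nonneg_left (hK K) (by positivity)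

end Pool.Agent.MP562567
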