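import Pool.Agent.Lib.MP_562567_gt.Spec

/-!
# MP_562567_gt, CO: conformal covariance of the Laplacian
-/

set_option autoImplicit false

namespace Pool.Agent.MP562567

namespace CovAux

variable {n : ℕ}

theorem two_le_top : (2 : WithTop ℕ∞) ≤ ((⊤ : ℕ∞) : WithTop ℕ∞) := by
  have h : (2 : WithTop ℕ∞) = ((2 : ℕ∞) : WithTop ℕ∞) := by norm_num
  rw [h]
  exact_mod_cast le_top

/-- second derivative of a product with a composition -/
theorem second_prod (Λ : E n → ℝ) (u : E n → ℝ) (T : E n → E n) (x w : E n)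
    (hΛ : ContDiffAt ℝ 2 Λ x) (hT : ContDiffAt ℝ 2 T x) (hu : ContDiffAt ℝ 2 u (T x)) :
    fderiv ℝ (fun y => fderiv ℝ (fun z => Λ z * u (T z)) y w) x w =
      fderiv ℝ (fun y => fderiv ℝ Λ y w) x w * u (T x) +
      2 * (fderiv ℝ Λ x w * fderiv ℝ u (T x) (fderiv ℝ T x w)) +
      Λ x * (fderiv ℝ (fderiv ℝ u) (T x) (fderiv ℝ T x w) (fderiv ℝ T x w) +
        fderiv ℝ u (T x) (fderiv ℝ (fderiv ℝ T) x w w)) := by
  have evd : ∀ {F : Type} [NormedAddCommGroup F] [NormedSpace ℝ F] (f : E n → F) (z : E n),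
      ContDiffAt ℝ 2 f z → ∀ᶠ y in nhds z, DifferentiableAt ℝ f y := by
    intro F _ _ f z hf
    filter_upwards [hf.eventually (by norm_num)] with y hy using hy.differentiableAt (by norm_num)
  have h2 : ∀ {F : Type} [NormedAddCommGroup F] [NormedSpace ℝ F] (f : E n → F) (z : E n),
      ContDiffAt ℝ 2 f z → DifferentiableAt ℝ (fderiv ℝ f) z := by
    intro F _ _ f z hf
    exact (hf.fderiv_right (m := 1) (by norm_num)).differentiableAt (by norm_num)
  have e1 : (fun y => fderiv ℝ (fun z => Λ z * u (T z)) y w) =ᶠ[nhds x]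
      fun y => fderiv ℝ Λ y w * u (T y) + Λ y * fderiv ℝ u (T y) (fderiv ℝ T y w) := by
    filter_upwards [evd Λ x hΛ, evd T x hT, hT.continuousAt.eventually (evd u (T x) hu)]
      with y h1 h3 h4
    have h5 : HasFDerivAt (fun z => u (T z)) ((fderiv ℝ u (T y)).comp (fderiv ℝ T y)) y :=
      h4.hasFDerivAt.comp y h3.hasFDerivAt
    have h6 : HasFDerivAt (fun z => Λ z * u (T z)) _ y := h1.hasFDerivAt.mul h5
    rw [h6.fderiv]
    simp only [add_apply, smul_apply, ContinuousLinearMap.comp_apply, smul_eq_mul]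
    ring
  rw [e1.fderiv_eq]
  have dΛ : DifferentiableAt ℝ Λ x := hΛ.differentiableAt (by norm_num)
  have dT : DifferentiableAt ℝ T x := hT.differentiableAt (by norm_num)
  have du : DifferentiableAt ℝ u (T x) := hu.differentiableAt (by norm_num)
  have a1 : DifferentiableAt ℝ (fun y => fderiv ℝ Λ y w) x :=
    ((h2 Λ x hΛ).hasFDerivAt.clm_apply (hasFDerivAt_const w x)).differentiableAt
  have a2 : HasFDerivAt (fun y => u (T y)) ((fderiv ℝ u (T x)).comp (fderiv ℝ T x)) x :=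
    du.hasFDerivAt.comp x dT.hasFDerivAt
  have a3 : HasFDerivAt (fun y => fderiv ℝ u (T y))
      ((fderiv ℝ (fderiv ℝ u) (T x)).comp (fderiv ℝ T x)) x :=
    (h2 u (T x) hu).hasFDerivAt.comp x dT.hasFDerivAt
  have a4 := (h2 T x hT).hasFDerivAt.clm_apply (hasFDerivAt_const w x)
  have a5 := a3.clm_apply a4
  have a6 : HasFDerivAt (fun y => fderiv ℝ Λ y w * u (T y) +
      Λ y * fderiv ℝ u (T y) (fderiv ℝ T y w)) _ x :=
    (a1.hasFDerivAt.mul a2).add (dΛ.hasFDerivAt.mul a5)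
  rw [a6.fderiv]
  simp only [add_apply, smul_apply, ContinuousLinearMap.comp_apply, smul_eq_mul,
    ContinuousLinearMap.flip_apply, zero_add, ContinuousLinearMap.comp_zero]
  ring

theorem contDiff_den (a : E n) : ContDiff ℝ (↑(⊤ : ℕ∞)) (den a) := by
  have hi : ContDiff ℝ (↑(⊤ : ℕ∞)) (fun y : E n => (inner ℝ a y : ℝ)) :=
    contDiff_const.inner ℝ contDiff_id
  have hs : ContDiff ℝ (↑(⊤ : ℕ∞)) (fun y : E n => ‖y‖ ^ 2) := contDiff_norm_sq ℝ
  exact (contDiff_const.add (contDiff_const.mul hi)).add (contDiff_const.mul hs)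

theorem contDiffAt_lam (a x : E n) (hx : 0 < den a x) : ContDiffAt ℝ 2 (lam a) x := by
  have h : ContDiffAt ℝ 2 (den a) x := (contDiff_den a).contDiffAt.of_le two_le_top
  exact contDiffAt_const.div h hx.ne'

/-- the orthonormal basis given by a conformal linear map -/
theorem exists_basis (L : E n →L[ℝ] E n) (l : ℝ) (hl : 0 < l) (hL : ∀ v, ‖L v‖ = l * ‖v‖) :
    ∃ b : OrthonormalBasis (Fin n) ℝ (E n), ∀ i, L (bv i) = l • b i := by
  let M : E n →ₗᵢ[ℝ] E n :=
    { toLinearMap := l⁻¹ • L.toLinearMap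
      norm_map' := by
        intro v
        simp only [LinearMap.smul_apply, ContinuousLinearMap.coe_coe, norm_smul, norm_inv,
          Real.norm_eq_abs, abs_of_pos hl, hL]
        field_simp }
  refine ⟨(EuclideanSpace.basisFun (Fin n) ℝ).map (M.toLinearIsometryEquiv rfl), fun i => ?_⟩
  rw [OrthonormalBasis.map_apply, EuclideanSpace.basisFun_apply]
  have e : (M.toLinearIsometryEquiv rfl) (EuclideanSpace.single i 1) = l⁻¹ • L (bv i) := rfl
  rw [e, smul_smul, mul_inv_cancel₀ hl.ne', one_smul]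

end CovAux

open CovAux in
theorem cov : S_Cov := by
  intro hLB hM2 hM3 n a x u ha hx hu
  obtain ⟨hT, -, hnorm, -⟩ := hM2 n a x ha hx
  obtain ⟨hz, hlin⟩ := hM3 hM2 n a x ha hx
  have hκ : 0 < 1 - ‖a‖ ^ 2 := by nlinarith [norm_nonneg a]
  have hlam : 0 < lam a x := div_pos hκ hx
  have hT2 : ContDiffAt ℝ 2 (mob a) x := hT.of_le two_le_top
  have hl2 := contDiffAt_lam a x hx
  have hΛ : ContDiffAt ℝ 2 (fun y => lam a y ^ pp n) x := hl2.rpow_const_of_ne hlam.ne'
  have hpd : ∀ i : Fin n, fderiv ℝ (fun y => lam a y ^ pp n) x (bv i) =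
      pp n * lam a x ^ (pp n - 1) * pd i (lam a) x := by
    intro i
    have h := (hl2.differentiableAt (by norm_num)).hasFDerivAt.rpow_const (p := pp n)
      (Or.inl hlam.ne')
    rw [h.fderiv]
    simp only [smul_apply, smul_eq_mul]
    rfl
  have e1 : lap (tr a u) x = ∑ i : Fin n,
      (pd i (pd i fun y => lam a y ^ pp n) x * u (mob a x) +
      2 * ((pp n * lam a x ^ (pp n - 1) * pd i (lam a) x) *
        fderiv ℝ u (mob a x) (fderiv ℝ (mob a) x (bv i))) +
      lam a x ^ pp n * (fderiv ℝ (fderiv ℝ u) (mob a x) (fderiv ℝ (mob a) x (bv i))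
        (fderiv ℝ (mob a) x (bv i)) +
        fderiv ℝ u (mob a x) (fderiv ℝ (fderiv ℝ (mob a)) x (bv i) (bv i)))) := by
    unfold lap
    refine Finset.sum_congr rfl fun i _ => ?_
    have h := second_prod (fun y => lam a y ^ pp n) u (mob a) x (bv i) hΛ hT2 hu
    rw [hpd i] at h
    exact h
  have e2 : ∑ i : Fin n, pd i (pd i fun y => lam a y ^ pp n) x = 0 := hz
  have e3 : lam a x • (∑ i, fderiv ℝ (fderiv ℝ (mob a)) x (bv i) (bv i)) =
      -((2 * pp n) • (∑ i, (pd i (lam a) x) • fderiv ℝ (mob a) x (bv i))) :=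
    eq_neg_of_add_eq_zero_left hlin
  have e4 : lam a x * ∑ i, fderiv ℝ u (mob a x) (fderiv ℝ (fderiv ℝ (mob a)) x (bv i) (bv i)) =
      -((2 * pp n) * ∑ i, (pd i (lam a) x) *
        fderiv ℝ u (mob a x) (fderiv ℝ (mob a) x (bv i))) := by
    have h := congrArg (fderiv ℝ u (mob a x)) e3
    simpa only [map_smul, map_neg, map_sum, smul_eq_mul] using h
  obtain ⟨b, hb⟩ := exists_basis (fderiv ℝ (mob a) x) (lam a x) hlam hnorm
  have e5 : ∑ i, fderiv ℝ (fderiv ℝ u) (mob a x) (fderiv ℝ (mob a) x (bv i))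
      (fderiv ℝ (mob a) x (bv i)) = lam a x ^ 2 * lap u (mob a x) := by
    rw [hLB n u (mob a x) hu b, Finset.mul_sum]
    refine Finset.sum_congr rfl fun i _ => ?_
    rw [hb i]
    simp only [map_smul, smul_apply, smul_eq_mul]
    ring
  have e6 : lam a x ^ pp n = lam a x ^ (pp n - 1) * lam a x := by
    rw [← Real.rpow_add_one hlam.ne']
    congr 1
    ring
  have e7 : lam a x ^ (pp n + 2) = lam a x ^ pp n * lam a x ^ 2 := by
    rw [Real.rpow_add hlam]
    norm_num
  have e8 : ∀ (A B C F : Fin n → ℝ) (s t q : ℝ),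
      ∑ i, (A i * s + 2 * (t * B i * C i) + q * (F i + 0)) =
        (∑ i, A i) * s + 2 * t * (∑ i, B i * C i) + q * ∑ i, F i := by
    intro A B C F s t q
    rw [Finset.sum_add_distrib, Finset.sum_add_distrib, Finset.sum_mul, Finset.mul_sum,
      Finset.mul_sum]
    congr 1
    · congr 1
      exact Finset.sum_congr rfl fun i _ => by ring
    · exact Finset.sum_congr rfl fun i _ => by ring
  have e9 : lap (tr a u) x = (∑ i : Fin n, pd i (pd i fun y => lam a y ^ pp n) x) * u (mob a x) +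
      2 * (pp n * lam a x ^ (pp n - 1)) * (∑ i, pd i (lam a) x *
        fderiv ℝ u (mob a x) (fderiv ℝ (mob a) x (bv i))) +
      lam a x ^ pp n * ((∑ i, fderiv ℝ (fderiv ℝ u) (mob a x) (fderiv ℝ (mob a) x (bv i))
        (fderiv ℝ (mob a) x (bv i))) +
        ∑ i, fderiv ℝ u (mob a x) (fderiv ℝ (fderiv ℝ (mob a)) x (bv i) (bv i))) := by
    rw [e1, ← Finset.sum_add_distrib]
    have := e8 (fun i => pd i (pd i fun y => lam a y ^ pp n) x) (fun i => pd i (lam a) x)
      (fun i => fderiv ℝ u (mob a x) (fderiv ℝ (mob a) x (bv i)))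
      (fun i => fderiv ℝ (fderiv ℝ u) (mob a x) (fderiv ℝ (mob a) x (bv i))
        (fderiv ℝ (mob a) x (bv i)) +
        fderiv ℝ u (mob a x) (fderiv ℝ (fderiv ℝ (mob a)) x (bv i) (bv i))) (u (mob a x))
      (pp n * lam a x ^ (pp n - 1)) (lam a x ^ pp n)
    simpa only [add_zero] using this
  rw [e9, e2, e5, e7]
  have e10 : lam a x ^ pp n *
      ∑ i, fderiv ℝ u (mob a x) (fderiv ℝ (fderiv ℝ (mob a)) x (bv i) (bv i)) =
      -(2 * (pp n * lam a x ^ (pp n - 1)) * (∑ i, pd i (lam a) x *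
        fderiv ℝ u (mob a x) (fderiv ℝ (mob a) x (bv i)))) := by
    rw [e6, mul_assoc, e4]
    ring
  rw [mul_add, e10]
  ring

end Pool.Agent.MP562567
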