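import Pool.Agent.Lib.MP_562567_gt.Mob2

/-!
# MP_562567_gt, CB: conformal covariance of the boundary operator
-/

set_option autoImplicit false

namespace Pool.Agent.MP562567

open Mob2Aux in
theorem covB : S_CovB := by
  intro hM1 hM2 n a x u ha hx hu
  obtain ⟨hden, hlam, -⟩ := (hM1 n a x).1 ha hx.le
  obtain ⟨-, -, -, hrad⟩ := hM2 n a x ha hden
  have hDT : HasFDerivAt (mob a) (fderiv ℝ (mob a) x) x :=
    (hasFDerivAt_mob a x hden.ne').differentiableAt.hasFDerivAt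
  have hrad := hrad hx
  -- the derivative of `lam`
  have hL : HasFDerivAt (lam a) ((1 - ‖a‖ ^ 2) • (-(den a x ^ 2)⁻¹ •
      ((2 : ℝ) • innerSL ℝ a + (2 * ‖a‖ ^ 2) • innerSL ℝ x))) x := by
    have h1 : HasFDerivAt (fun x => (den a x)⁻¹)
        (-(den a x ^ 2)⁻¹ • ((2 : ℝ) • innerSL ℝ a + (2 * ‖a‖ ^ 2) • innerSL ℝ x)) x :=
      (hasDerivAt_inv hden.ne').comp_hasFDerivAt x (hasFDerivAt_den a x)
    exact h1.const_mul (1 - ‖a‖ ^ 2)
  have hLp := hL.rpow_const (p := pp n) (Or.inl hlam.ne')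
  have huT : HasFDerivAt (fun y => u (mob a y))
      ((fderiv ℝ u (mob a x)).comp (fderiv ℝ (mob a) x)) x :=
    hu.hasFDerivAt.comp x hDT
  have hv : HasFDerivAt (tr a u) _ x := hLp.mul huT
  rw [hv.fderiv]
  have hxx : inner ℝ x x = (1 : ℝ) := by
    rw [real_inner_self_eq_norm_sq, hx, one_pow]
  simp only [add_apply, smul_apply, ContinuousLinearMap.comp_apply, hrad, map_smul,
    innerSL_apply_apply, smul_eq_mul, hxx]
  unfold tr
  have e1 : lam a x ^ (pp n - 1) * lam a x = lam a x ^ pp n := by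
    rw [← Real.rpow_add_one hlam.ne']; congr 1; ring
  have e2 : lam a x ^ (pp n + 1) = lam a x ^ pp n * lam a x := Real.rpow_add_one hlam.ne' _
  have e3 : (1 - ‖a‖ ^ 2) * (-(den a x ^ 2)⁻¹ * (2 * inner ℝ a x + 2 * ‖a‖ ^ 2 * 1)) =
      lam a x ^ 2 - lam a x := by
    have hD2 : den a x = 1 + 2 * inner ℝ a x + ‖a‖ ^ 2 := by
      unfold den
      rw [hx]
      ring
    unfold lam
    have hDne : den a x ≠ 0 := hden.ne'
    field_simp
    rw [hD2]
    ring
  rw [e3, e2, ← e1]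
  ring

end Pool.Agent.MP562567
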