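import Mathlib

/-!
# MP_562567_gt: Riemannian metrics on the closed unit ball, conformal to the Euclidean metric

General definitions for a Riemannian metric `g` on (a neighbourhood of the closed unit ball of) `ℝⁿ`, given by its
matrix `(g_ij(x))` in the standard coordinates: scalar curvature, mean curvature of the unit sphere,
length of curves in the unit sphere, hyperspherical radius of the unit sphere with the induced metric.
-/

set_option autoImplicit false

namespace Pool.Agent.MP562567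

open MeasureTheory

/-- Euclidean space `ℝⁿ` -/
abbrev E (n : ℕ) : Type := EuclideanSpace ℝ (Fin n)

/-- the standard basis vector `e_i` -/
noncomputable def bv {n : ℕ} (i : Fin n) : E n := EuclideanSpace.single i 1

/-- the partial derivative `∂_i F` at `x` -/
noncomputable def pd {n : ℕ} (i : Fin n) (F : E n → ℝ) (x : E n) : ℝ := fderiv ℝ F x (bv i)

/-- the Christoffel symbols
`Γ^k_ij = (1/2) ∑_l g^kl (∂_i g_jl + ∂_j g_il - ∂_l g_ij)` of the metric `g` -/
noncomputable def Chr {n : ℕ} (g : E n → Matrix (Fin n) (Fin n) ℝ) (k i j : Fin n) (x : E n) : ℝ :=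
  (1 / 2) * ∑ l, (g x)⁻¹ k l * (pd i (fun y => g y j l) x + pd j (fun y => g y i l) x
    - pd l (fun y => g y i j) x)

/-- the Ricci tensor
`R_ij = ∑_k (∂_k Γ^k_ij - ∂_j Γ^k_ik) + ∑_kl (Γ^k_kl Γ^l_ij - Γ^k_jl Γ^l_ik)` -/
noncomputable def Ric {n : ℕ} (g : E n → Matrix (Fin n) (Fin n) ℝ) (i j : Fin n) (x : E n) : ℝ :=
  ∑ k, (pd k (Chr g k i j) x - pd j (Chr g k i k) x) +
    ∑ k, ∑ l, (Chr g k k l x * Chr g l i j x - Chr g k j l x * Chr g l i k x)

/-- the scalar curvature `∑_ij g^ij R_ij` (the unit sphere `Sⁿ` has scalar curvature `n (n - 1)`) -/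
noncomputable def scal {n : ℕ} (g : E n → Matrix (Fin n) (Fin n) ℝ) (x : E n) : ℝ :=
  ∑ i, ∑ j, (g x)⁻¹ i j * Ric g i j x

/-- the `g`-unit normal field of the spheres `|x| = const`, pointing outwards:
`ν^i = ∑_j g^ij x_j / (∑_kl g^kl x_k x_l)^(1/2)` -/
noncomputable def nrm {n : ℕ} (g : E n → Matrix (Fin n) (Fin n) ℝ) (i : Fin n) (x : E n) : ℝ :=
  (∑ j, (g x)⁻¹ i j * x j) / Real.sqrt (∑ k, ∑ l, (g x)⁻¹ k l * x k * x l)

/-- the mean curvature (sum of the principal curvatures with respect to the outer normal, convex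
boundaries have mean curvature `≥ 0`) of the sphere through `x`, that is the divergence
`(det g)^(-1/2) ∑_i ∂_i ((det g)^(1/2) ν^i)` of the unit normal field -/
noncomputable def meanCurv {n : ℕ} (g : E n → Matrix (Fin n) (Fin n) ℝ) (x : E n) : ℝ :=
  (Real.sqrt (g x).det)⁻¹ * ∑ i, pd i (fun y => Real.sqrt (g y).det * nrm g i y) x

/-- the `g`-length of the curve `γ` on the parameter interval `[0, 1]` -/
noncomputable def len {n : ℕ} (g : E n → Matrix (Fin n) (Fin n) ℝ) (γ : ℝ → E n) : ℝ :=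
  ∫ t in (0 : ℝ)..1, Real.sqrt (∑ i, ∑ j, g (γ t) i j * deriv γ t i * deriv γ t j)

/-- the unit sphere `S^(n-1)` -/
abbrev Sph (n : ℕ) : Type := Metric.sphere (0 : E n) 1

/-- There is a map `f` from the unit sphere with the metric induced by `g` to the round sphere
`S^(n-1)(R)` (we use the points `f(x)` of the unit sphere; their distance in `S^(n-1)(R)` is `R` times the
angle) which does not increase distances and is not homotopic to a constant map (this means that its degree is not zero). The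
distance of two points of the unit sphere with the metric `g` is the infimum of the lengths of the
`C¹` curves in the sphere which join them. -/
def RadGe {n : ℕ} (g : E n → Matrix (Fin n) (Fin n) ℝ) (R : ℝ) : Prop :=
  ∃ f : C(Sph n, Sph n), ¬ f.Nullhomotopic ∧
    ∀ γ : ℝ → E n, ContDiff ℝ 1 γ → (∀ t ∈ Set.Icc (0 : ℝ) 1, γ t ∈ Metric.sphere (0 : E n) 1) →
      ∀ x y : Sph n, γ 0 = x → γ 1 = y →
        R * InnerProductGeometry.angle (f x : E n) (f y : E n) ≤ len g γ

/-- the hyperspherical radius of the unit sphere with the metric induced by `g` is `R` -/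
def HasRad {n : ℕ} (g : E n → Matrix (Fin n) (Fin n) ℝ) (R : ℝ) : Prop :=
  IsGreatest {r : ℝ | 0 < r ∧ RadGe g r} R

/-- the conformal metric `e^(2s) |dx|²` -/
noncomputable def conf {n : ℕ} (s : E n → ℝ) : E n → Matrix (Fin n) (Fin n) ℝ :=
  fun x => Matrix.diagonal fun _ => Real.exp (2 * s x)

/-- `Φ_n(R)` for the metrics on the closed unit ball which are conformal to the Euclidean metric: the
supremum of `inf H` over all metrics `g = e^(2s) |dx|²`, `s` smooth, with `Sc(g) ≥ n (n - 1)` on the closed ball and hyperspherical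
radius of the boundary equal to `R`; the supremum over the empty set is `-∞` (`⊥`) -/
noncomputable def PhiConf (n : ℕ) (R : ℝ) : EReal :=
  ⨆ (s : E n → ℝ) (_ : ContDiff ℝ (↑(⊤ : ℕ∞)) s)
    (_ : ∀ x ∈ Metric.closedBall (0 : E n) 1, (n : ℝ) * ((n : ℝ) - 1) ≤ scal (conf s) x)
    (_ : HasRad (conf s) R), ⨅ y : Sph n, ((meanCurv (conf s) (y : E n) : ℝ) : EReal)

/-! ### auxiliary notions for the proof -/

/-- the Euclidean Laplacian -/
noncomputable def lap {n : ℕ} (u : E n → ℝ) (x : E n) : ℝ := ∑ i, pd i (pd i u) x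

/-- `p = (n - 2) / 2` -/
noncomputable def pp (n : ℕ) : ℝ := ((n : ℝ) - 2) / 2

/-- the denominator of the Moebius map -/
noncomputable def den {n : ℕ} (a x : E n) : ℝ := 1 + 2 * inner ℝ a x + ‖a‖ ^ 2 * ‖x‖ ^ 2

/-- the Moebius map of the unit ball with `0 ↦ a` -/
noncomputable def mob {n : ℕ} (a x : E n) : E n :=
  (den a x)⁻¹ • ((1 - ‖a‖ ^ 2) • x + (1 + 2 * inner ℝ a x + ‖x‖ ^ 2) • a)

/-- its conformal factor -/
noncomputable def lam {n : ℕ} (a x : E n) : ℝ := (1 - ‖a‖ ^ 2) / den a x

/-- an invariant average over all linear isometries of `ℝⁿ` -/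
structure Avg (n : ℕ) where
  G : Type
  [grp : Group G]
  [ms : MeasurableSpace G]
  μ : Measure G
  prob : IsProbabilityMeasure μ
  ρ : G →* (E n ≃ₗᵢ[ℝ] E n)
  measJ : Measurable fun q : G × E n => ρ q.1 q.2
  left : ∀ k : G, MeasurePreserving (fun g => k * g) μ μ
  right : ∀ k : G, MeasurePreserving (fun g => g * k) μ μ
  surj : Function.Surjective ρ

attribute [instance] Avg.grp Avg.ms Avg.prob

/-- the conformal transform of `u` -/
noncomputable def tr {n : ℕ} (a : E n) (u : E n → ℝ) (x : E n) : ℝ :=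
  lam a x ^ pp n * u (mob a x)

/-- the hypotheses on the conformal factor: `u` is `C²` near the closed ball, positive, and
`-Δu ≥ p (p + 1) u^(1 + 2/p)` -/
structure Sup (n : ℕ) (u : E n → ℝ) : Prop where
  smooth : ∃ U : Set (E n), IsOpen U ∧ Metric.closedBall 0 1 ⊆ U ∧ ContDiffOn ℝ 2 u U
  pos : ∀ x ∈ Metric.closedBall (0 : E n) 1, 0 < u x
  ineq : ∀ x ∈ Metric.closedBall (0 : E n) 1,
    pp n * (pp n + 1) * u x ^ (1 + 2 / pp n) ≤ - lap u x

/-- the boundary inequality `∂_r u + p u ≥ κ u^(1 + 1/p)` on the unit sphere -/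
def Bd (n : ℕ) (κ : ℝ) (u : E n → ℝ) : Prop :=
  ∀ x ∈ Metric.sphere (0 : E n) 1, κ * u x ^ (1 + 1 / pp n) ≤ fderiv ℝ u x x + pp n * u x

end Pool.Agent.MP562567
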