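import Pool.Agent.Lib.MP_562567_gt.Spec

/-!
# MP_562567_gt, FI: the final theorem from the main inequality and the caps
-/

set_option autoImplicit false

namespace Pool.Agent.MP562567

namespace FinalAux

/-- `√(1/R² - 1)` for `R ≤ 1` -/
theorem sq_val {R : ℝ} (hR : 0 < R) (hR1 : R ≤ 1) : Real.sqrt (1 / R ^ 2 - 1) ^ 2 = 1 / R ^ 2 - 1 := by
  rw [Real.sq_sqrt]
  have h : R ^ 2 ≤ 1 := by nlinarith
  have : 1 ≤ 1 / R ^ 2 := by
    rw [le_div_iff₀ (by positivity)]
    linarith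
  linarith

/-- the numerical condition -/
def Cond (n : ℕ) (R : ℝ) : Prop := 6 ≤ n ∨ (4 ≤ n ∧ R ^ 2 ≤ ((n : ℝ) - 2) / n)

theorem cond_c {n : ℕ} {R c : ℝ} (hR : 0 < R) (h : Cond n R) (hc : 1 / R ^ 2 - 1 ≤ c ^ 2) :
    6 ≤ n ∨ (4 ≤ n ∧ 2 / ((n : ℝ) - 2) ≤ c ^ 2) := by
  rcases h with h | ⟨h4, h⟩
  · exact Or.inl h
  · refine Or.inr ⟨h4, ?_⟩
    have h4' : (4 : ℝ) ≤ n := by exact_mod_cast h4
    have hn : (0 : ℝ) < n := by linarith
    have hn2 : (0 : ℝ) < (n : ℝ) - 2 := by linarith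
    have hR2 : 0 < R ^ 2 := by positivity
    have h1 : (n : ℝ) / ((n : ℝ) - 2) ≤ 1 / R ^ 2 := by
      rw [div_le_div_iff₀ hn2 hR2]
      rw [le_div_iff₀ hn] at h
      linarith
    have h2 : 2 / ((n : ℝ) - 2) = (n : ℝ) / ((n : ℝ) - 2) - 1 := by
      field_simp
      ring
    linarith

end FinalAux

open FinalAux in
theorem final : S_Final := by
  intro hMI hCap hCapRad hId hLen hAng hSc hH n R hR
  -- upper bound
  have upper : ∀ s : E n → ℝ, 4 ≤ n → Cond n R → R ≤ 1 → ContDiff ℝ (↑(⊤ : ℕ∞)) s →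
      (∀ x ∈ Metric.closedBall (0 : E n) 1, (n : ℝ) * ((n : ℝ) - 1) ≤ scal (conf s) x) →
      HasRad (conf s) R →
      ⨅ y : Sph n, ((meanCurv (conf s) (y : E n) : ℝ) : EReal) ≤
        (((((n : ℝ) - 1) * Real.sqrt (1 / R ^ 2 - 1) : ℝ)) : EReal) := by
    intro s h4 hcond hR1 hs hscal hrad
    have h4' : (4 : ℝ) ≤ n := by exact_mod_cast h4
    by_contra hcon
    push Not at hcon
    obtain ⟨h, h1, h2⟩ := EReal.lt_iff_exists_real_btwn.mp hcon
    have h1' : ((n : ℝ) - 1) * Real.sqrt (1 / R ^ 2 - 1) < h := by exact_mod_cast h1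
    have hsn : 0 ≤ Real.sqrt (1 / R ^ 2 - 1) := Real.sqrt_nonneg _
    have hn1 : (0 : ℝ) < (n : ℝ) - 1 := by linarith
    have hh0 : 0 ≤ h := le_trans (mul_nonneg hn1.le hsn) h1'.le
    have hmc : ∀ x ∈ Metric.sphere (0 : E n) 1, h ≤ meanCurv (conf s) x := by
      intro x hx
      have h3 : (h : EReal) < ((meanCurv (conf s) x : ℝ) : EReal) :=
        lt_of_lt_of_le h2 (iInf_le (fun y : Sph n => ((meanCurv (conf s) (y : E n) : ℝ) : EReal))
          ⟨x, hx⟩)
      have h4 : h < meanCurv (conf s) x := by exact_mod_cast h3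
      exact h4.le
    have hlt : Real.sqrt (1 / R ^ 2 - 1) < h / ((n : ℝ) - 1) := by
      rw [lt_div_iff₀ hn1]
      linarith
    have hc2 : 1 / R ^ 2 - 1 < (h / ((n : ℝ) - 1)) ^ 2 := by
      rw [← sq_val hR hR1]
      exact pow_lt_pow_left₀ hlt hsn (by norm_num)
    have hin := (hMI n s R (by omega) hs hscal hR hrad.1.2).2 h hh0 hmc
      (cond_c hR hcond hc2.le)
    have hR2 : 0 < R ^ 2 := by positivity
    have : R ^ 2 * (1 + (1 / R ^ 2 - 1)) < R ^ 2 * (1 + (h / ((n : ℝ) - 1)) ^ 2) :=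
      mul_lt_mul_of_pos_left (by linarith) hR2
    have e : R ^ 2 * (1 + (1 / R ^ 2 - 1)) = 1 := by
      field_simp
      ring
    linarith
  -- the caps
  have attained : 4 ≤ n → Cond n R → R ≤ 1 →
      PhiConf n R = (((((n : ℝ) - 1) * Real.sqrt (1 / R ^ 2 - 1) : ℝ)) : EReal) := by
    intro h4 hcond hR1
    have h4' : (4 : ℝ) ≤ n := by exact_mod_cast h4
    have hn1 : (0 : ℝ) < (n : ℝ) - 1 := by linarith
    refine le_antisymm ?_ ?_
    · unfold PhiConf
      refine iSup_le fun s => iSup_le fun hs => iSup_le fun hscal => iSup_le fun hrad => ?_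
      exact upper s h4 hcond hR1 hs hscal hrad
    · obtain ⟨hc1, hc2, hc3⟩ := hCap hSc hH n R (by omega) hR hR1
      have hscal : ∀ x ∈ Metric.closedBall (0 : E n) 1,
          (n : ℝ) * ((n : ℝ) - 1) ≤ scal (conf (capS n R)) x := fun x _ => (hc2 x).ge
      have hrad : HasRad (conf (capS n R)) R := by
        refine ⟨⟨hR, hCapRad hId hLen hAng hSc hH hCap n R (by omega) hR hR1⟩, ?_⟩
        intro r hr
        obtain ⟨hr0, hr1⟩ := hr
        have hsn : 0 ≤ Real.sqrt (1 / R ^ 2 - 1) := Real.sqrt_nonneg _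
        have ec : ((n : ℝ) - 1) * Real.sqrt (1 / R ^ 2 - 1) / ((n : ℝ) - 1) =
            Real.sqrt (1 / R ^ 2 - 1) := by
          field_simp
        have hin := (hMI n (capS n R) r (by omega) hc1 hscal hr0 hr1).2
          (((n : ℝ) - 1) * Real.sqrt (1 / R ^ 2 - 1)) (mul_nonneg hn1.le hsn)
          (fun x hx => (hc3 x hx).2.ge)
          (cond_c hR hcond (by rw [ec, sq_val hR hR1]))
        rw [ec, sq_val hR hR1] at hin
        have hR2 : 0 < R ^ 2 := by positivity
        have e : r ^ 2 * (1 + (1 / R ^ 2 - 1)) = r ^ 2 / R ^ 2 := by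
          field_simp
          ring
        rw [e, div_le_one hR2] at hin
        exact le_of_sq_le_sq hin hR.le
      unfold PhiConf
      refine le_trans ?_ (le_iSup_of_le (capS n R) (le_iSup_of_le hc1
        (le_iSup_of_le hscal (le_iSup_of_le hrad le_rfl))))
      refine le_iInf fun y => ?_
      rw [(hc3 y y.2).2]
  refine ⟨?_, ?_⟩
  · intro h6
    split_ifs with hR1
    · exact attained (by omega) (Or.inl h6) hR1
    · unfold PhiConf
      rw [eq_bot_iff]
      refine iSup_le fun s => iSup_le fun hs => iSup_le fun hscal => iSup_le fun hrad => ?_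
      exact absurd ((hMI n s R (by omega) hs hscal hR hrad.1.2).1 h6) hR1
  · intro h4 hcond
    have h4' : (4 : ℝ) ≤ n := by exact_mod_cast h4
    have hR1 : R ≤ 1 := by
      have : ((n : ℝ) - 2) / n ≤ 1 := by
        rw [div_le_one (by linarith)]
        linarith
      nlinarith
    exact attained h4 (Or.inr ⟨h4, hcond⟩) hR1

end Pool.Agent.MP562567
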