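import Pool.Agent.Lib.MP_562567_gt.Spec

/-!
# MP_562567_gt, HH: the mean curvature of the unit sphere for a conformal metric
-/

set_option autoImplicit false

namespace Pool.Agent.MP562567

namespace hhAux

variable {n : ℕ}

theorem inv_conf (s : E n → ℝ) (x : E n) (i j : Fin n) :
    (conf s x)⁻¹ i j = if i = j then Real.exp (-2 * s x) else 0 := by
  have h : (conf s x)⁻¹ = Matrix.diagonal fun _ => Real.exp (-2 * s x) := by
    apply Matrix.inv_eq_right_inv
    unfold conf
    rw [Matrix.diagonal_mul_diagonal]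
    have h1 : (fun _ : Fin n => Real.exp (2 * s x) * Real.exp (-2 * s x)) = fun _ => 1 := by
      funext _
      rw [← Real.exp_add]
      rw [show 2 * s x + -2 * s x = 0 by ring, Real.exp_zero]
    rw [h1, Matrix.diagonal_one]
  rw [h, Matrix.diagonal_apply]

theorem sqrt_det (s : E n → ℝ) (y : E n) :
    Real.sqrt (conf s y).det = Real.exp (n * s y) := by
  unfold conf
  rw [Matrix.det_diagonal, Finset.prod_const, Finset.card_univ, Fintype.card_fin,
    ← Real.exp_nat_mul]
  rw [show (n : ℝ) * (2 * s y) = n * s y + n * s y by ring, Real.exp_add,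
    Real.sqrt_mul_self (Real.exp_pos _).le]

theorem nrm_conf (s : E n → ℝ) (i : Fin n) (y : E n) :
    nrm (conf s) i y = Real.exp (- s y) * (y i * ‖y‖⁻¹) := by
  unfold nrm
  simp only [inv_conf]
  have h1 : ∑ j, (if i = j then Real.exp (-2 * s y) else 0) * y j = Real.exp (-2 * s y) * y i := by
    rw [Finset.sum_eq_single i]
    · rw [if_pos rfl]
    · intro j _ hj
      rw [if_neg (Ne.symm hj), zero_mul]
    · intro h
      exact absurd (Finset.mem_univ i) h
  have h2 : ∑ k, ∑ l, (if k = l then Real.exp (-2 * s y) else 0) * y k * y l =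
      (Real.exp (- s y) * ‖y‖) ^ 2 := by
    rw [mul_pow, EuclideanSpace.real_norm_sq_eq, Finset.mul_sum]
    refine Finset.sum_congr rfl fun k _ => ?_
    rw [Finset.sum_eq_single k]
    · rw [if_pos rfl, ← Real.exp_nat_mul]
      push_cast
      rw [show (2 : ℝ) * - s y = -2 * s y by ring]
      ring
    · intro j _ hj
      rw [if_neg (Ne.symm hj), zero_mul, zero_mul]
    · intro h
      exact absurd (Finset.mem_univ k) h
  rw [h1, h2, Real.sqrt_sq (by positivity)]
  rw [show -2 * s y = - s y + - s y by ring, Real.exp_add]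
  have h3 := (Real.exp_pos (- s y)).ne'
  rw [div_eq_mul_inv, mul_inv]
  field_simp

theorem hasFDerivAt_norm_inv (x : E n) (hx : ‖x‖ = 1) :
    HasFDerivAt (fun y : E n => ‖y‖⁻¹) (-(innerSL ℝ x)) x := by
  have h1 : HasFDerivAt (fun y : E n => ‖y‖ ^ 2) (2 • (innerSL ℝ x)) x :=
    (hasStrictFDerivAt_norm_sq x).hasFDerivAt
  have h2 := h1.sqrt (by rw [hx]; norm_num)
  have h3 : (fun y : E n => Real.sqrt (‖y‖ ^ 2)) = fun y => ‖y‖ := by
    funext y
    exact Real.sqrt_sq (norm_nonneg y)
  rw [h3, hx] at h2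
  have h4 : HasDerivAt (fun t : ℝ => t⁻¹) (-(‖x‖ ^ 2)⁻¹) ‖x‖ := hasDerivAt_inv (by rw [hx]; norm_num)
  have h5 := h4.comp_hasFDerivAt x h2
  refine h5.congr_fderiv ?_
  rw [hx]
  ext v
  simp

end hhAux

open hhAux in
/-- **HH.** -/
theorem hh : S_H := by
  intro n s x hs hx
  have hd : DifferentiableAt ℝ s x := (hs.differentiable (by simp)) x
  unfold meanCurv
  have e1 : ∀ i, (fun y => Real.sqrt (conf s y).det * nrm (conf s) i y) =
      fun y => Real.exp (((n : ℝ) - 1) * s y) * (y i * ‖y‖⁻¹) := by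
    intro i
    funext y
    rw [sqrt_det, nrm_conf, ← mul_assoc, ← Real.exp_add]
    congr 2
    ring
  have e2 : ∀ i, pd i (fun y => Real.sqrt (conf s y).det * nrm (conf s) i y) x =
      Real.exp (((n : ℝ) - 1) * s x) * (((n : ℝ) - 1) * (x i * pd i s x) + 1 - x i ^ 2) := by
    intro i
    rw [e1]
    have g1 : HasFDerivAt (fun y => Real.exp (((n : ℝ) - 1) * s y))
        (Real.exp (((n : ℝ) - 1) * s x) • (((n : ℝ) - 1) • fderiv ℝ s x)) x :=
      (hd.hasFDerivAt.const_mul ((n : ℝ) - 1)).exp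
    have g2 : HasFDerivAt (fun y : E n => y i) (EuclideanSpace.proj i : E n →L[ℝ] ℝ) x :=
      (EuclideanSpace.proj i : E n →L[ℝ] ℝ).hasFDerivAt
    have g3 := g1.fun_mul (g2.fun_mul (hasFDerivAt_norm_inv x hx))
    unfold pd
    rw [g3.fderiv]
    have g4 : (EuclideanSpace.proj i : E n →L[ℝ] ℝ) (bv i) = 1 := by
      simp [bv]
    have g5 : inner ℝ x (bv i) = x i := by
      unfold bv
      rw [EuclideanSpace.inner_single_right]
      simp
    simp only [add_apply, smul_apply, smul_eq_mul,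
      neg_apply, innerSL_apply_apply, g4, g5, hx]
    ring
  simp_rw [e2]
  rw [← Finset.mul_sum, Finset.sum_sub_distrib, Finset.sum_add_distrib, ← Finset.mul_sum,
    Finset.sum_const, Finset.card_univ, Fintype.card_fin, nsmul_eq_mul,
    ← EuclideanSpace.real_norm_sq_eq, hx]
  have e3 : ∑ i, x i * pd i s x = fderiv ℝ s x x := by
    have g1 : x = ∑ i, x i • (bv i : E n) := by
      have := (EuclideanSpace.basisFun (Fin n) ℝ).sum_repr x
      simpa [bv] using this.symm
    conv_rhs => rw [g1]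
    rw [map_sum]
    refine Finset.sum_congr rfl fun i _ => ?_
    rw [map_smul, smul_eq_mul]
    rw [← g1]
    rfl
  rw [e3, sqrt_det, ← Real.exp_neg, ← mul_assoc, ← Real.exp_add]
  rw [show -(↑n * s x) + (↑n - 1) * s x = - s x by ring]
  ring

end Pool.Agent.MP562567
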