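import Pool.Agent.Lib.MP_562567_gt.Spec

/-!
# MP_562567_gt, HE: centering (Hersch)
-/

set_option autoImplicit false

namespace Pool.Agent.MP562567

open MeasureTheory Set Filter Topology

namespace HerschAux

variable {n : ℕ}

theorem measurable_mob (a : E n) : Measurable (mob a) := by
  have h1 : Continuous (den a) := by unfold den; fun_prop
  have h2 : Continuous fun x : E n =>
      (1 - ‖a‖ ^ 2) • x + (1 + 2 * inner ℝ a x + ‖x‖ ^ 2) • a := by fun_prop
  exact h1.measurable.inv.smul h2.measurable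

theorem measurable_orbit (A : Avg n) (e : E n) : Measurable fun g => A.ρ g e :=
  A.measJ.comp (measurable_id.prodMk measurable_const)

theorem norm_orbit (A : Avg n) (e : E n) (he : ‖e‖ = 1) (g : A.G) : ‖A.ρ g e‖ = 1 := by
  rw [LinearIsometryEquiv.norm_map, he]

theorem continuousAt_mob (x a₀ : E n) (h : 0 < den a₀ x) :
    ContinuousAt (fun a => mob a x) a₀ := by
  have h1 : Continuous fun a : E n => den a x := by unfold den; fun_prop
  have h2 : Continuous fun a : E n =>
      (1 - ‖a‖ ^ 2) • x + (1 + 2 * inner ℝ a x + ‖x‖ ^ 2) • a := by fun_prop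
  exact (h1.continuousAt.inv₀ h.ne').smul h2.continuousAt

/-- almost every point of the orbit is different from `- a` -/
theorem ae_ne (hAt : S_Atom) (A : Avg n) (hn : 2 ≤ n) (e a : E n) (he : ‖e‖ = 1) :
    ∀ᵐ g ∂A.μ, A.ρ g e ≠ -a := by
  have h := hAt n A hn e (-a) he
  rw [ae_iff]
  simpa using h

theorem mob_mem (hM : S_Mob1) (a x : E n) (ha : ‖a‖ ≤ 1) (hx : ‖x‖ = 1) (hne : x ≠ -a) :
    mob a x ∈ Metric.sphere (0 : E n) 1 := by
  rw [mem_sphere_zero_iff_norm]
  exact ((hM n a x).2.1 ha hx hne).2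

theorem ne_of_lt (a x : E n) (ha : ‖a‖ < 1) (hx : ‖x‖ = 1) : x ≠ -a := by
  intro h
  rw [h, norm_neg] at hx
  linarith

section

variable (hAt : S_Atom) (hM : S_Mob1) (A : Avg n) (hn : 2 ≤ n) (f : C(Sph n, Sph n))
  (F : E n → E n) (hF : ∀ x : Sph n, F x = f x) (e : E n) (he : ‖e‖ = 1)

include hF in
theorem norm_F (x : E n) (hx : x ∈ Metric.sphere (0 : E n) 1) : ‖F x‖ = 1 := by
  have h := hF ⟨x, hx⟩
  have h2 : F x = (f ⟨x, hx⟩ : E n) := h
  rw [h2]
  exact mem_sphere_zero_iff_norm.mp (f ⟨x, hx⟩).2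

include hF in
theorem continuousOn_F : ContinuousOn F (Metric.sphere (0 : E n) 1) := by
  rw [continuousOn_iff_continuous_domRestrict]
  have h : (Metric.sphere (0 : E n) 1).domRestrict F = fun x : Sph n => (f x : E n) := by
    funext x
    exact hF x
  rw [h]
  exact continuous_subtype_val.comp f.continuous

include hAt hM hn he in
theorem ae_eq_of_one (a : E n) (ha : ‖a‖ = 1) :
    ∀ᵐ g ∂A.μ, F (mob a (A.ρ g e)) = F a := by
  filter_upwards [ae_ne hAt A hn e a he] with g hg
  rw [(hM n a (A.ρ g e)).2.2 ha (norm_orbit A e he g) hg]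

include hAt hM hn hF he in
theorem aesm (a : E n) (ha : ‖a‖ ≤ 1) :
    AEStronglyMeasurable (fun g => F (mob a (A.ρ g e))) A.μ := by
  rcases ha.lt_or_eq with h | h
  · have h1 : ∀ g, mob a (A.ρ g e) ∈ Metric.sphere (0 : E n) 1 := fun g =>
      mob_mem hM a _ ha (norm_orbit A e he g) (ne_of_lt a _ h (norm_orbit A e he g))
    have h2 : Measurable fun g => (⟨mob a (A.ρ g e), h1 g⟩ : Sph n) :=
      ((measurable_mob a).comp (measurable_orbit A e)).subtype_mk
    have h3 : (fun g => F (mob a (A.ρ g e))) =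
        fun g => ((f ⟨mob a (A.ρ g e), h1 g⟩ : Sph n) : E n) := by
      funext g
      exact hF ⟨mob a (A.ρ g e), h1 g⟩
    rw [h3]
    exact (measurable_subtype_coe.comp (f.continuous.measurable.comp h2)).aestronglyMeasurable
  · exact (aestronglyMeasurable_const (b := F a)).congr
      ((ae_eq_of_one hAt hM A hn F e he a h).mono fun g hg => hg.symm)

include hAt hM hn hF he in
theorem continuousOn_H :
    ContinuousOn (fun a => ∫ g, F (mob a (A.ρ g e)) ∂A.μ) (Metric.closedBall (0 : E n) 1) := by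
  intro a₀ ha₀
  have ha₀' : ‖a₀‖ ≤ 1 := mem_closedBall_zero_iff.mp ha₀
  refine tendsto_integral_filter_of_dominated_convergence (fun _ => 1) ?_ ?_
    (integrable_const 1) ?_
  · filter_upwards [self_mem_nhdsWithin] with a ha
    exact aesm hAt hM A hn f F hF e he a (mem_closedBall_zero_iff.mp ha)
  · filter_upwards [self_mem_nhdsWithin] with a ha
    filter_upwards [ae_ne hAt A hn e a he] with g hg
    exact (norm_F f F hF _ (mob_mem hM a _ (mem_closedBall_zero_iff.mp ha)
      (norm_orbit A e he g) hg)).le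
  · filter_upwards [ae_ne hAt A hn e a₀ he] with g hg
    have hx := norm_orbit A e he g
    have h1 := continuousOn_F f F hF (mob a₀ (A.ρ g e)) (mob_mem hM a₀ _ ha₀' hx hg)
    refine h1.tendsto.comp ?_
    rw [tendsto_nhdsWithin_iff]
    refine ⟨((continuousAt_mob _ a₀ ((hM n a₀ _).2.1 ha₀' hx hg).1).tendsto).mono_left
      nhdsWithin_le_nhds, ?_⟩
    have h2 : ∀ᶠ a in 𝓝[Metric.closedBall (0 : E n) 1] a₀, A.ρ g e ≠ -a := by
      have h3 : Tendsto (fun a : E n => -a) (𝓝[Metric.closedBall (0 : E n) 1] a₀) (𝓝 (-a₀)) :=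
        continuous_neg.continuousAt.tendsto.mono_left nhdsWithin_le_nhds
      filter_upwards [h3.eventually_ne hg.symm] with a ha using ha.symm
    filter_upwards [self_mem_nhdsWithin, h2] with a ha ha2
    exact mob_mem hM a _ (mem_closedBall_zero_iff.mp ha) hx ha2

include hAt hM hn he in
theorem H_one (a : E n) (ha : ‖a‖ = 1) : ∫ g, F (mob a (A.ρ g e)) ∂A.μ = F a := by
  rw [integral_congr_ae (ae_eq_of_one hAt hM A hn F e he a ha)]
  simp

end

/-- a nonvanishing map of the closed ball gives a homotopy of its normalisation on the sphere -/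
theorem nullhomotopic_of (f : C(Sph n, Sph n)) (H : E n → E n)
    (hc : ContinuousOn H (Metric.closedBall (0 : E n) 1))
    (h0 : ∀ a ∈ Metric.closedBall (0 : E n) 1, H a ≠ 0) (h1 : ∀ x : Sph n, H x = f x) :
    f.Nullhomotopic := by
  have hmem : ∀ p : unitInterval × Sph n,
      ((p.1 : ℝ) • (p.2 : E n)) ∈ Metric.closedBall (0 : E n) 1 := by
    intro p
    rw [mem_closedBall_zero_iff, norm_smul, mem_sphere_zero_iff_norm.mp p.2.2, mul_one,
      Real.norm_eq_abs, abs_of_nonneg p.1.2.1]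
    exact p.1.2.2
  have hcont : Continuous fun p : unitInterval × Sph n => H ((p.1 : ℝ) • (p.2 : E n)) := by
    refine hc.comp_continuous ?_ hmem
    exact (continuous_subtype_val.comp continuous_fst).smul
      (continuous_subtype_val.comp continuous_snd)
  have hnorm : Continuous fun p : unitInterval × Sph n =>
      (‖H ((p.1 : ℝ) • (p.2 : E n))‖⁻¹ • H ((p.1 : ℝ) • (p.2 : E n)) : E n) :=
    (hcont.norm.inv₀ fun p => norm_ne_zero_iff.mpr (h0 _ (hmem p))).smul hcont
  have hu : ∀ a ∈ Metric.closedBall (0 : E n) 1,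
      (‖H a‖⁻¹ • H a : E n) ∈ Metric.sphere (0 : E n) 1 := by
    intro a ha
    rw [mem_sphere_zero_iff_norm, norm_smul, norm_inv, norm_norm,
      inv_mul_cancel₀ (norm_ne_zero_iff.mpr (h0 a ha))]
  have hz : (0 : E n) ∈ Metric.closedBall (0 : E n) 1 := by simp
  refine ⟨⟨‖H 0‖⁻¹ • H 0, hu 0 hz⟩, ContinuousMap.Homotopic.symm ⟨?_⟩⟩
  refine
    { toFun := fun p => ⟨‖H ((p.1 : ℝ) • (p.2 : E n))‖⁻¹ • H ((p.1 : ℝ) • (p.2 : E n)),
        hu _ (hmem p)⟩
      continuous_toFun := hnorm.subtype_mk _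
      map_zero_left := ?_
      map_one_left := ?_ }
  · intro x
    apply Subtype.ext
    simp
  · intro x
    apply Subtype.ext
    have e1 : ((1 : unitInterval) : ℝ) • (x : E n) = (x : E n) := by simp
    change ‖H (((1 : unitInterval) : ℝ) • (x : E n))‖⁻¹ • H (((1 : unitInterval) : ℝ) • (x : E n)) =
      (f x : E n)
    rw [e1, h1 x, mem_sphere_zero_iff_norm.mp (f x).2]
    simp

end HerschAux

open HerschAux in
theorem hersch : S_Hersch := by
  intro hAt hM n A hn f hf F hF e he
  by_contra hcon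
  apply hf
  refine nullhomotopic_of f (fun a => ∫ g, F (mob a (A.ρ g e)) ∂A.μ)
    (continuousOn_H hAt hM A hn f F hF e he) ?_ ?_
  · intro a ha h0
    rcases (mem_closedBall_zero_iff.mp ha).lt_or_eq with h | h
    · exact hcon ⟨a, h, h0⟩
    · have h1 := H_one hAt hM A hn F e he a h
      have h2 := norm_F f F hF a (mem_sphere_zero_iff_norm.mpr h)
      rw [← h1] at h2
      change ∫ g, F (mob a (A.ρ g e)) ∂A.μ = 0 at h0
      rw [h0, norm_zero] at h2
      exact zero_ne_one h2
  · intro x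
    rw [← hF x]
    exact H_one hAt hM A hn F e he x (mem_sphere_zero_iff_norm.mp x.2)

end Pool.Agent.MP562567
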