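import Pool.Agent.Lib.MP_562567_gt.Spec
import Pool.Agent.Lib.BrouwerThm.Basic

/-!
# MP_562567_gt, IN: the identity of the sphere is not homotopic to a constant map
-/

set_option autoImplicit false

namespace Pool.Agent.MP562567

namespace IdNotAux

variable {n : ℕ}

open Classical in
/-- the radial projection to the sphere, with a value at the centre -/
noncomputable def N (y : Sph n) (x : E n) : Sph n :=
  if h : x = 0 then y else ⟨‖x‖⁻¹ • x, by
    rw [mem_sphere_zero_iff_norm, norm_smul, norm_inv, norm_norm,
      inv_mul_cancel₀ (norm_ne_zero_iff.mpr h)]⟩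

theorem N_coe (y : Sph n) {x : E n} (h : x ≠ 0) : (N y x : E n) = ‖x‖⁻¹ • x := by
  unfold N
  rw [dif_neg h]

theorem continuousAt_N (y : Sph n) {x : E n} (h : x ≠ 0) : ContinuousAt (N y) x := by
  rw [Topology.IsInducing.subtypeVal.continuousAt_iff]
  have h1 : ContinuousAt (fun x : E n => ‖x‖⁻¹ • x) x :=
    (continuous_norm.continuousAt.inv₀ (norm_ne_zero_iff.mpr h)).smul continuousAt_id
  refine h1.congr ?_
  filter_upwards [isOpen_ne.mem_nhds h] with z hz
  exact (N_coe y hz).symm

/-- the parameter -/
noncomputable def T (x : E n) : unitInterval :=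
  Set.projIcc (0 : ℝ) 1 zero_le_one (2 - 2 * ‖x‖)

theorem continuous_T : Continuous (T (n := n)) :=
  continuous_projIcc.comp (continuous_const.sub (continuous_const.mul continuous_norm))

theorem T_of_one_le {x : E n} (h : 1 ≤ ‖x‖) : T x = 0 := by
  unfold T
  exact Set.projIcc_of_le_left _ (by linarith)

theorem T_of_le_half {x : E n} (h : ‖x‖ ≤ 1 / 2) : T x = 1 := by
  unfold T
  exact Set.projIcc_of_right_le _ (by linarith)

end IdNotAux

open IdNotAux in
theorem idNot : S_IdNot := by
  intro n hn hnull
  obtain ⟨y, ⟨H⟩⟩ := hnull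
  have hHc : Continuous fun p : unitInterval × Sph n => H p := H.continuous
  obtain ⟨x, hx⟩ := Pool.Agent.Lib.BrouwerThm.exists_zero_of_eq_id
    (fun x : E n => (max 1 ‖x‖) • (H (T x, N y x) : E n)) (by
      have hmax : Continuous fun x : E n => max 1 ‖x‖ := continuous_const.max continuous_norm
      refine hmax.smul ?_
      refine continuous_subtype_val.comp ?_
      rw [continuous_iff_continuousAt]
      intro x
      by_cases hx : x = 0
      · have h0 : ∀ z : E n, ‖z‖ < 1 / 2 → H (T z, N y z) = y := by
          intro z hz
          rw [T_of_le_half hz.le]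
          simp
        refine (continuousAt_const (y := y)).congr ?_
        have hmem : {z : E n | ‖z‖ < 1 / 2} ∈ nhds x := by
          refine (isOpen_lt continuous_norm continuous_const).mem_nhds ?_
          rw [hx]
          simp
        filter_upwards [hmem] with z hz
        exact (h0 z hz).symm
      · exact ContinuousAt.comp (f := fun x : E n => (T x, N y x))
          (g := fun p : unitInterval × Sph n => H p) hHc.continuousAt
          (continuous_T.continuousAt.prodMk (continuousAt_N y hx))) 1 (by
      intro x hx
      have hx0 : x ≠ 0 := by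
        intro h
        rw [h, norm_zero] at hx
        linarith
      have h1 : H (T x, N y x) = N y x := by
        rw [T_of_one_le hx]
        simp
      change (max 1 ‖x‖) • (H (T x, N y x) : E n) = x
      rw [h1, N_coe y hx0, max_eq_right hx, smul_smul,
        mul_inv_cancel₀ (norm_ne_zero_iff.mpr hx0), one_smul])
  have h1 : (max 1 ‖x‖) ≠ 0 := (lt_of_lt_of_le one_pos (le_max_left _ _)).ne'
  have h2 := (smul_eq_zero.mp hx).resolve_left h1
  have h3 : ‖(H (T x, N y x) : E n)‖ = 1 := mem_sphere_zero_iff_norm.mp (H (T x, N y x)).2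
  rw [h2, norm_zero] at h3
  exact zero_ne_one h3

end Pool.Agent.MP562567
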