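import Pool.Agent.Lib.MP_562567_gt.Spec

/-!
# MP_562567_gt, IE: the main inequality
-/

set_option autoImplicit false

namespace Pool.Agent.MP562567

namespace IneqAux

open MeasureTheory Set

variable {n : ℕ}

theorem meas_orb (A : Avg n) (e : E n) : Measurable fun g => A.ρ g e :=
  A.measJ.comp (measurable_id.prodMk measurable_const)

theorem mem_sphere_orb (A : Avg n) {e : E n} (he : ‖e‖ = 1) (g : A.G) :
    A.ρ g e ∈ Metric.sphere (0 : E n) 1 := by
  rw [mem_sphere_zero_iff_norm, LinearIsometryEquiv.norm_map, he]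

/-- continuous functions on the sphere are measurable along the orbit -/
theorem meas_cont {F : Type} [TopologicalSpace F] [MeasurableSpace F] [BorelSpace F] (A : Avg n)
    {e : E n} (he : ‖e‖ = 1) {f : E n → F} (hf : ContinuousOn f (Metric.sphere 0 1)) :
    Measurable fun g => f (A.ρ g e) := by
  have h1 : Measurable fun g => (⟨A.ρ g e, mem_sphere_orb A he g⟩ : Metric.sphere (0 : E n) 1) :=
    (meas_orb A e).subtype_mk
  have h2 : Measurable fun x : Metric.sphere (0 : E n) 1 => f x :=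
    (continuousOn_iff_continuous_domRestrict.mp hf).measurable
  exact h2.comp h1

theorem integrable_cont (A : Avg n) {e : E n} (he : ‖e‖ = 1) {f : E n → ℝ}
    (hf : ContinuousOn f (Metric.sphere 0 1)) : Integrable (fun g => f (A.ρ g e)) A.μ := by
  obtain ⟨C, hC⟩ := (isCompact_sphere (0 : E n) 1).exists_bound_of_continuousOn hf
  refine (integrable_const C).mono' (meas_cont A he hf).aestronglyMeasurable ?_
  exact Filter.Eventually.of_forall fun g => hC _ (mem_sphere_orb A he g)

/-- power means -/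
theorem pm (A : Avg n) {e : E n} (he : ‖e‖ = 1) {v : E n → ℝ}
    (hv : ContinuousOn v (Metric.sphere 0 1)) (hpos : ∀ x ∈ Metric.sphere (0 : E n) 1, 0 < v x)
    {a b : ℝ} (ha : 0 < a) (hab : a ≤ b) :
    ∫ g, v (A.ρ g e) ^ a ∂A.μ ≤ (∫ g, v (A.ρ g e) ^ b ∂A.μ) ^ (a / b) := by
  have hb : 0 < b := ha.trans_le hab
  have hc : ∀ q : ℝ, ContinuousOn (fun x => v x ^ q) (Metric.sphere 0 1) := fun q =>
    hv.rpow_const fun x hx => Or.inl (hpos x hx).ne'
  have hθ0 : 0 ≤ a / b := (div_pos ha hb).le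
  have hθ1 : a / b ≤ 1 := (div_le_one hb).mpr hab
  have h := (Real.concaveOn_rpow hθ0 hθ1).le_map_integral
    (μ := A.μ) (f := fun g => v (A.ρ g e) ^ b)
    ((continuousOn_id.rpow_const fun x _ => Or.inr hθ0)) isClosed_Ici
    (Filter.Eventually.of_forall fun g =>
      (Real.rpow_pos_of_pos (hpos _ (mem_sphere_orb A he g)) b).le)
    (integrable_cont A he (hc b)) ?_
  · refine le_trans (le_of_eq ?_) h
    refine integral_congr_ae (Filter.Eventually.of_forall fun g => ?_)
    have hp := hpos _ (mem_sphere_orb A he g)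
    change v (A.ρ g e) ^ a = (v (A.ρ g e) ^ b) ^ (a / b)
    rw [← Real.rpow_mul hp.le, mul_div_cancel₀ _ hb.ne']
  · have := integrable_cont A he (hc a)
    refine this.congr (Filter.Eventually.of_forall fun g => ?_)
    have hp := hpos _ (mem_sphere_orb A he g)
    change v (A.ρ g e) ^ a = (v (A.ρ g e) ^ b) ^ (a / b)
    rw [← Real.rpow_mul hp.le, mul_div_cancel₀ _ hb.ne']

theorem hasDerivAt_F {p t : ℝ} (ht : 0 < t) :
    HasDerivAt (fun t : ℝ => t ^ p * (1 - t)) (t ^ (p - 1) * (p - (p + 1) * t)) t := by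
  have h1 := Real.hasDerivAt_rpow_const (x := t) (p := p) (Or.inl ht.ne')
  have h2 : HasDerivAt (fun t : ℝ => 1 - t) (-1) t := by
    simpa using (hasDerivAt_id t).const_sub 1
  have h := h1.mul h2
  refine HasDerivAt.congr_deriv (f := fun t : ℝ => t ^ p * (1 - t)) h ?_
  have e : t ^ p = t ^ (p - 1) * t := by
    rw [← Real.rpow_add_one ht.ne', sub_add_cancel]
  rw [e]
  ring

theorem cont_F {p : ℝ} (hp : 0 < p) : Continuous fun t : ℝ => t ^ p * (1 - t) := by
  have h1 : Continuous fun t : ℝ => t ^ p := continuous_id.rpow_const fun x => Or.inr hp.le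
  exact h1.mul (continuous_const.sub continuous_id)

theorem mono_F {p : ℝ} (hp : 0 < p) :
    MonotoneOn (fun t : ℝ => t ^ p * (1 - t)) (Icc 0 (p / (p + 1))) := by
  refine monotoneOn_of_deriv_nonneg (convex_Icc _ _) (cont_F hp).continuousOn ?_ ?_
  · intro t ht
    rw [interior_Icc] at ht
    exact (hasDerivAt_F ht.1).differentiableAt.differentiableWithinAt
  · intro t ht
    rw [interior_Icc] at ht
    rw [(hasDerivAt_F ht.1).deriv]
    refine mul_nonneg (Real.rpow_nonneg ht.1.le _) ?_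
    have := ht.2
    rw [lt_div_iff₀ (by linarith)] at this
    linarith

theorem anti_F {p : ℝ} (hp : 0 < p) :
    AntitoneOn (fun t : ℝ => t ^ p * (1 - t)) (Icc (p / (p + 1)) 1) := by
  have hq : 0 < p / (p + 1) := by positivity
  refine antitoneOn_of_deriv_nonpos (convex_Icc _ _) (cont_F hp).continuousOn ?_ ?_
  · intro t ht
    rw [interior_Icc] at ht
    exact (hasDerivAt_F (hq.trans ht.1)).differentiableAt.differentiableWithinAt
  · intro t ht
    rw [interior_Icc] at ht
    rw [(hasDerivAt_F (hq.trans ht.1)).deriv]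
    refine mul_nonpos_of_nonneg_of_nonpos (Real.rpow_nonneg (hq.trans ht.1).le _) ?_
    have := ht.1
    rw [div_lt_iff₀ (by linarith)] at this
    linarith

theorem F_le {p X : ℝ} (hp : 0 < p) (h0 : 0 ≤ X) (h1 : X ≤ 1) :
    X ^ p * (1 - X) ≤ (p / (p + 1)) ^ p * (1 - p / (p + 1)) := by
  have hq : 0 < p / (p + 1) := by positivity
  have hq1 : p / (p + 1) ≤ 1 := by
    rw [div_le_one (by linarith)]
    linarith
  rcases le_total X (p / (p + 1)) with h | h
  · exact mono_F hp ⟨h0, h⟩ ⟨hq.le, le_rfl⟩ h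
  · exact anti_F hp ⟨le_rfl, hq1⟩ ⟨h, h1⟩ h

/-- the numerical part for `1 ≤ p` -/
theorem num {p X Y c : ℝ} (hp : 0 < p) (hX : 0 < X) (hXY : X ≤ Y) (hX1 : X ≤ 1)
    (hc : 1 / p ≤ c ^ 2) (h : c ^ 2 * Y ^ (p + 1) ≤ X ^ p * (1 - X)) : Y * (1 + c ^ 2) ≤ 1 := by
  have hY : 0 < Y := hX.trans_le hXY
  have hYp : 0 < Y ^ p := Real.rpow_pos_of_pos hY p
  have eY : Y ^ (p + 1) = Y ^ p * Y := Real.rpow_add_one hY.ne' p
  rcases le_or_gt Y (p / (p + 1)) with hle | hgt
  · have h1 := mono_F hp ⟨hX.le, hXY.trans hle⟩ ⟨hY.le, hle⟩ hXY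
    simp only at h1
    have h2 : Y ^ p * (c ^ 2 * Y) ≤ Y ^ p * (1 - Y) := by
      rw [eY] at h
      linarith
    have h3 := le_of_mul_le_mul_left h2 hYp
    linarith
  · exfalso
    have h1 := F_le hp hX.le hX1
    have hq : 0 < p / (p + 1) := by positivity
    have e1 : 1 - p / (p + 1) = (1 / p) * (p / (p + 1)) := by
      field_simp
      ring
    have h2 : (p / (p + 1)) ^ (p + 1) < Y ^ (p + 1) :=
      Real.rpow_lt_rpow hq.le hgt (by linarith)
    rw [Real.rpow_add_one hq.ne'] at h2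
    rw [e1] at h1
    have h3 : 0 < 1 / p := by positivity
    have h4 : 0 < Y ^ (p + 1) := Real.rpow_pos_of_pos hY _
    have h5 : (1 / p) * Y ^ (p + 1) ≤ c ^ 2 * Y ^ (p + 1) :=
      mul_le_mul_of_nonneg_right hc h4.le
    have h6 : (1 / p) * ((p / (p + 1)) ^ p * (p / (p + 1))) < (1 / p) * Y ^ (p + 1) :=
      mul_lt_mul_of_pos_left h2 h3
    have e2 : (1 / p) * ((p / (p + 1)) ^ p * (p / (p + 1))) =
      (p / (p + 1)) ^ p * ((1 / p) * (p / (p + 1))) := by ring
    linarith

end IneqAux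

open IneqAux MeasureTheory in
theorem ineq : S_Ineq := by
  intro n A v R e hn he hR hsup hRv hM0 hM1
  have hn' : (3 : ℝ) ≤ n := by exact_mod_cast hn
  have hp : 0 < pp n := by
    unfold pp
    linarith
  set p := pp n with hpdef
  obtain ⟨U, hU, hsub, hUd⟩ := hsup.smooth
  have hv : ContinuousOn v (Metric.sphere 0 1) :=
    hUd.continuousOn.mono (Metric.sphere_subset_closedBall.trans hsub)
  have hpos : ∀ x ∈ Metric.sphere (0 : E n) 1, 0 < v x := fun x hx =>
    hsup.pos x (Metric.sphere_subset_closedBall hx)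
  set M := ∫ g, v (A.ρ g e) ∂A.μ with hMdef
  have hM1' : M = ∫ g, v (A.ρ g e) ^ (1 : ℝ) ∂A.μ := by
    simp only [Real.rpow_one]
    exact hMdef
  set N := ∫ g, v (A.ρ g e) ^ (1 + 1 / p) ∂A.μ with hNdef
  have h1p : 0 < 1 + 1 / p := by positivity
  have hMN : M ≤ N ^ (1 / (1 + 1 / p)) := by
    rw [hM1']
    exact pm A he hv hpos one_pos (by
      have : 0 < 1 / p := by positivity
      linarith)
  have hN0 : 0 ≤ N := integral_nonneg fun g =>
    (Real.rpow_pos_of_pos (hpos _ (mem_sphere_orb A he g)) _).le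
  have hNpos : 0 < N := by
    rcases hN0.lt_or_eq with h | h
    · exact h
    · exfalso
      rw [← h, Real.zero_rpow (by positivity)] at hMN
      linarith
  have hMN' : M ^ (1 + 1 / p) ≤ N := by
    have := Real.rpow_le_rpow hM0.le hMN h1p.le
    rwa [← Real.rpow_mul hNpos.le, one_div_mul_cancel h1p.ne', Real.rpow_one] at this
  have hX0 : 0 < M ^ (2 / p) := Real.rpow_pos_of_pos hM0 _
  have hX1 : M ^ (2 / p) ≤ 1 := Real.rpow_le_one hM0.le hM1 (by positivity)
  have hsq : ∀ c : ℝ, 0 ≤ c → p * c * N ≤ p * M * Real.sqrt (1 - M ^ (2 / p)) →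
      c ^ 2 * N ^ 2 ≤ M ^ 2 * (1 - M ^ (2 / p)) := by
    intro c hc h
    have h1 : c * N ≤ M * Real.sqrt (1 - M ^ (2 / p)) := by
      have : p * (c * N) ≤ p * (M * Real.sqrt (1 - M ^ (2 / p))) := by linarith
      exact le_of_mul_le_mul_left this hp
    have h2 : (c * N) ^ 2 ≤ (M * Real.sqrt (1 - M ^ (2 / p))) ^ 2 :=
      pow_le_pow_left₀ (mul_nonneg hc hN0) h1 2
    rw [mul_pow, mul_pow, Real.sq_sqrt (by linarith)] at h2
    exact h2
  have h6 : 6 ≤ n → R ^ 2 ≤ M ^ (2 / p) := by
    intro h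
    have h' : (6 : ℝ) ≤ n := by exact_mod_cast h
    have hp2 : 2 ≤ p := by
      rw [hpdef]
      unfold pp
      linarith
    have := pm A he hv hpos (show 0 < 2 / p by positivity)
      (show 2 / p ≤ 1 by rw [div_le_one hp]; exact hp2)
    rw [← hM1', div_one] at this
    exact hRv.trans this
  refine ⟨?_, ?_⟩
  · intro h
    have := (h6 h).trans hX1
    nlinarith
  · intro c hc hineq hcase
    have hs := hsq c hc hineq
    rcases hcase with h | ⟨h4, hcc⟩
    · -- n ≥ 6
      have hR2 := h6 h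
      have hN2 : (M ^ (1 + 1 / p)) ^ 2 ≤ N ^ 2 := pow_le_pow_left₀ (by positivity) hMN' 2
      have e1 : (M ^ (1 + 1 / p)) ^ 2 = M ^ 2 * M ^ (2 / p) := by
        rw [← Real.rpow_natCast, ← Real.rpow_mul hM0.le, ← Real.rpow_natCast M 2,
          ← Real.rpow_add hM0]
        congr 1
        push_cast
        ring
      rw [e1] at hN2
      have h1 : c ^ 2 * (M ^ 2 * M ^ (2 / p)) ≤ M ^ 2 * (1 - M ^ (2 / p)) :=
        (mul_le_mul_of_nonneg_left hN2 (sq_nonneg c)).trans hs
      have h2 : M ^ 2 * (c ^ 2 * M ^ (2 / p)) ≤ M ^ 2 * (1 - M ^ (2 / p)) := by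
        linarith
      have h3 := le_of_mul_le_mul_left h2 (by positivity)
      have h4 : M ^ (2 / p) * (1 + c ^ 2) ≤ 1 := by linarith
      have h5 : R ^ 2 * (1 + c ^ 2) ≤ M ^ (2 / p) * (1 + c ^ 2) :=
        mul_le_mul_of_nonneg_right hR2 (by positivity)
      exact h5.trans h4
    · have h4' : (4 : ℝ) ≤ n := by exact_mod_cast h4
      have hp1 : 1 ≤ p := by
        rw [hpdef]
        unfold pp
        linarith
      have hRY : R ^ 2 ≤ N ^ (2 / (p + 1)) := by
        have := pm A he hv hpos (show 0 < 2 / p by positivity)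
          (show 2 / p ≤ 1 + 1 / p by
            rw [div_le_iff₀ hp, add_mul, one_div, inv_mul_cancel₀ hp.ne']
            linarith)
        rw [← hNdef] at this
        have e : 2 / p / (1 + 1 / p) = 2 / (p + 1) := by
          field_simp
        rw [e] at this
        exact hRv.trans this
      have hXY : M ^ (2 / p) ≤ N ^ (2 / (p + 1)) := by
        have := Real.rpow_le_rpow hM0.le hMN (show 0 ≤ 2 / p by positivity)
        rw [← Real.rpow_mul hNpos.le] at this
        have e : 1 / (1 + 1 / p) * (2 / p) = 2 / (p + 1) := by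
          field_simp
        rw [e] at this
        exact this
      have hc1 : 1 / p ≤ c ^ 2 := by
        have : 1 / p = 2 / ((n : ℝ) - 2) := by
          rw [hpdef]
          unfold pp
          have : (n : ℝ) - 2 ≠ 0 := by
            have : (0 : ℝ) < (n : ℝ) - 2 := by linarith
            exact this.ne'
          field_simp
        rw [this]
        exact hcc
      have hY2 : (N ^ (2 / (p + 1))) ^ (p + 1) = N ^ 2 := by
        rw [← Real.rpow_mul hNpos.le, div_mul_cancel₀ _ (by linarith), Real.rpow_two]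
      have hX2 : (M ^ (2 / p)) ^ p = M ^ 2 := by
        rw [← Real.rpow_mul hM0.le, div_mul_cancel₀ _ hp.ne', Real.rpow_two]
      have := num hp hX0 hXY hX1 hc1 (by rw [hY2, hX2]; exact hs)
      have h5 : R ^ 2 * (1 + c ^ 2) ≤ N ^ (2 / (p + 1)) * (1 + c ^ 2) :=
        mul_le_mul_of_nonneg_right hRY (by positivity)
      exact h5.trans this

end Pool.Agent.MP562567
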