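import Pool.Agent.Lib.MP_562567_gt.Spec

/-!
# MP_562567_gt, LB: the Laplacian in an arbitrary orthonormal basis
-/

set_option autoImplicit false

namespace Pool.Agent.MP562567

namespace LapBAux

variable {n : ℕ}

theorem pd_pd (v : E n → ℝ) (x : E n) (hv : ContDiffAt ℝ 2 v x) (i j : Fin n) :
    pd i (pd j v) x = fderiv ℝ (fderiv ℝ v) x (bv i) (bv j) := by
  have hd : DifferentiableAt ℝ (fderiv ℝ v) x :=
    (hv.fderiv_right (m := 1) (by norm_num)).differentiableAt (by norm_num)
  unfold pd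
  have h := hd.hasFDerivAt.clm_apply (hasFDerivAt_const (bv j : E n) x)
  rw [h.fderiv]
  simp

theorem trace_basis (B : E n →L[ℝ] E n →L[ℝ] ℝ) (b : OrthonormalBasis (Fin n) ℝ (E n))
    (c : OrthonormalBasis (Fin n) ℝ (E n)) : ∑ i, B (b i) (b i) = ∑ i, B (c i) (c i) := by
  have e : ∀ i, B (b i) (b i) = ∑ j, ∑ k, (inner ℝ (c j) (b i) * inner ℝ (b i) (c k)) *
      B (c j) (c k) := by
    intro i
    have h1 : b i = ∑ j, inner ℝ (c j) (b i) • c j := (c.sum_repr' (b i)).symm
    have h2 : ∀ w : E n, B (b i) w = ∑ j, inner ℝ (c j) (b i) * B (c j) w := by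
      intro w
      conv_lhs => rw [h1]
      simp only [map_sum, map_smul, sum_apply, smul_apply, smul_eq_mul]
    have h3 : ∀ j, B (c j) (b i) = ∑ k, inner ℝ (b i) (c k) * B (c j) (c k) := by
      intro j
      conv_lhs => rw [h1]
      simp only [map_sum, map_smul, smul_eq_mul]
      refine Finset.sum_congr rfl fun k _ => ?_
      rw [real_inner_comm (b i) (c k)]
    rw [h2]
    refine Finset.sum_congr rfl fun j _ => ?_
    rw [h3, Finset.mul_sum]
    refine Finset.sum_congr rfl fun k _ => ?_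
    ring
  simp_rw [e]
  rw [Finset.sum_comm]
  refine Finset.sum_congr rfl fun j _ => ?_
  rw [Finset.sum_comm]
  have h2 : ∀ k, ∑ i, (inner ℝ (c j) (b i) * inner ℝ (b i) (c k)) * B (c j) (c k) =
      inner ℝ (c j) (c k) * B (c j) (c k) := by
    intro k
    rw [← Finset.sum_mul, b.sum_inner_mul_inner]
  simp_rw [h2]
  rw [Finset.sum_eq_single j]
  · rw [real_inner_self_eq_norm_sq, c.orthonormal.1 j]
    ring
  · intro k _ hk
    rw [c.orthonormal.2 (Ne.symm hk)]
    ring
  · intro h
    exact absurd (Finset.mem_univ _) h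

end LapBAux

open LapBAux in
theorem lapB : S_LapB := by
  intro n v x hv b
  unfold lap
  have h1 : ∀ i, pd i (pd i v) x = fderiv ℝ (fderiv ℝ v) x (EuclideanSpace.basisFun (Fin n) ℝ i)
      (EuclideanSpace.basisFun (Fin n) ℝ i) := by
    intro i
    rw [pd_pd v x hv, EuclideanSpace.basisFun_apply]
    rfl
  simp_rw [h1]
  exact trace_basis _ _ _

end Pool.Agent.MP562567
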