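import Pool.Agent.Lib.MP_562567_gt.Spec

/-!
# MP_562567_gt, LN: the length for a conformal metric
-/

set_option autoImplicit false

namespace Pool.Agent.MP562567

theorem lenn : S_Len := by
  intro n s γ
  unfold len
  refine intervalIntegral.integral_congr fun t _ => ?_
  have h : ∑ i, ∑ j, conf s (γ t) i j * deriv γ t i * deriv γ t j =
      (Real.exp (s (γ t)) * ‖deriv γ t‖) ^ 2 := by
    rw [mul_pow, EuclideanSpace.real_norm_sq_eq, Finset.mul_sum]
    refine Finset.sum_congr rfl fun i _ => ?_
    rw [Finset.sum_eq_single i]
    · simp only [conf, Matrix.diagonal_apply_eq]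
      rw [two_mul, Real.exp_add]
      ring
    · intro j _ hj
      simp only [conf]
      rw [Matrix.diagonal_apply_ne _ (Ne.symm hj)]
      ring
    · intro hi
      exact absurd (Finset.mem_univ i) hi
  change Real.sqrt _ = _
  rw [h, Real.sqrt_sq (by positivity)]

end Pool.Agent.MP562567
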