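import Pool.Agent.Lib.MP_562567_gt.Spec

/-!
# MP_562567_gt, LP: the map along great circles
-/

set_option autoImplicit false

namespace Pool.Agent.MP562567

namespace LipPathAux

variable {n : ℕ}

theorem norm_sub_le_angle (u v : E n) (hu : ‖u‖ = 1) (hv : ‖v‖ = 1) :
    ‖u - v‖ ≤ InnerProductGeometry.angle u v := by
  have h1 : ‖u - v‖ ^ 2 = 2 - 2 * Real.cos (InnerProductGeometry.angle u v) := by
    rw [InnerProductGeometry.cos_angle, hu, hv, norm_sub_sq_real, hu, hv]
    ring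
  have h2 := Real.one_sub_sq_div_two_le_cos (x := InnerProductGeometry.angle u v)
  have h3 : ‖u - v‖ ^ 2 ≤ (InnerProductGeometry.angle u v) ^ 2 := by
    rw [h1]
    linarith
  exact (sq_le_sq₀ (norm_nonneg _) (InnerProductGeometry.angle_nonneg u v)).mp h3

/-- the great circle -/
noncomputable def C (b c : E n) (t : ℝ) : E n := Real.cos t • b + Real.sin t • c

/-- the derivative -/
noncomputable def C' (b c : E n) (t : ℝ) : E n := (-Real.sin t) • b + Real.cos t • c

theorem norm_C {b c : E n} (hb : ‖b‖ = 1) (hc : ‖c‖ = 1) (hbc : inner ℝ b c = (0 : ℝ)) (t : ℝ) :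
    ‖C b c t‖ = 1 := by
  have h1 : ‖C b c t‖ ^ 2 = 1 := by
    unfold C
    rw [norm_add_sq_real]
    simp only [norm_smul, mul_pow, Real.norm_eq_abs, sq_abs, real_inner_smul_left,
        real_inner_smul_right]
    rw [hb, hc, hbc]
    linarith [Real.sin_sq_add_cos_sq t]
  nlinarith [norm_nonneg (C b c t)]

theorem norm_C' {b c : E n} (hb : ‖b‖ = 1) (hc : ‖c‖ = 1) (hbc : inner ℝ b c = (0 : ℝ)) (t : ℝ) :
    ‖C' b c t‖ = 1 := by
  have h1 : ‖C' b c t‖ ^ 2 = 1 := by
    unfold C'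
    rw [norm_add_sq_real]
    simp only [norm_smul, mul_pow, Real.norm_eq_abs, sq_abs, real_inner_smul_left,
        real_inner_smul_right]
    rw [hb, hc, hbc, neg_sq]
    linarith [Real.sin_sq_add_cos_sq t]
  nlinarith [norm_nonneg (C' b c t)]

theorem contDiff_C (b c : E n) : ContDiff ℝ 1 (C b c) := by
  unfold C
  exact (Real.contDiff_cos.smul contDiff_const).add (Real.contDiff_sin.smul contDiff_const)

theorem hasDerivAt_C (b c : E n) (t : ℝ) : HasDerivAt (C b c) (C' b c t) t :=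
  ((Real.hasDerivAt_cos t).smul_const b).add ((Real.hasDerivAt_sin t).smul_const c)

end LipPathAux

open LipPathAux in
theorem lipPath : S_LipPath := by
  intro hM1 hM2 hLen n s R f F a hR hs ha hF hlen b c hb hc hbc σ τ hστ
  have hC := norm_C hb hc hbc
  have hC' := norm_C' hb hc hbc
  have hden : ∀ t, 0 < den a (C b c t) := fun t => ((hM1 n a _).1 ha (hC t).le).1
  have hlam : ∀ t, 0 < lam a (C b c t) := fun t => ((hM1 n a _).1 ha (hC t).le).2.1
  have hmob : ∀ t, ‖mob a (C b c t)‖ = 1 := by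
    intro t
    refine ((hM1 n a _).2.1 ha.le (hC t) ?_).2
    intro h
    have h1 := hC t
    rw [h, norm_neg] at h1
    exact ha.ne h1
  have hsm : ∀ t, ContDiffAt ℝ 1 (mob a) (C b c t) := fun t =>
    (hM2 n a _ ha (hden t)).1.of_le (by exact_mod_cast le_top)
  have hcomp : ContDiff ℝ 1 (fun t => mob a (C b c t)) := by
    rw [contDiff_iff_contDiffAt]
    intro t
    exact (hsm t).comp t (contDiff_C b c).contDiffAt
  set γ : ℝ → E n := fun t => mob a (C b c (σ + (τ - σ) * t)) with hγ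
  have hγC : ContDiff ℝ 1 γ :=
    hcomp.comp (contDiff_const.add (contDiff_const.mul contDiff_id))
  set h : ℝ → ℝ := fun t => Real.exp (s (mob a (C b c t))) * lam a (C b c t) with hh
  have hγ' : ∀ t, Real.exp (s (γ t)) * ‖deriv γ t‖ = (τ - σ) * h (σ + (τ - σ) * t) := by
    intro t
    have h1 : HasDerivAt (fun t => C b c (σ + (τ - σ) * t))
        ((τ - σ) • C' b c (σ + (τ - σ) * t)) t := by
      have h2 : HasDerivAt (fun t => σ + (τ - σ) * t) (τ - σ) t := by
        simpa using ((hasDerivAt_id t).const_mul (τ - σ)).const_add σ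
      exact (hasDerivAt_C b c _).scomp t h2
    have h3 : HasFDerivAt (mob a) (fderiv ℝ (mob a) (C b c (σ + (τ - σ) * t)))
        (C b c (σ + (τ - σ) * t)) :=
      ((hsm _).differentiableAt (by norm_num)).hasFDerivAt
    have h4 : HasDerivAt γ (fderiv ℝ (mob a) (C b c (σ + (τ - σ) * t))
        ((τ - σ) • C' b c (σ + (τ - σ) * t))) t :=
      HasFDerivAt.comp_hasDerivAt (f := fun t => C b c (σ + (τ - σ) * t)) t h3 h1
    rw [h4.deriv, (hM2 n a _ ha (hden _)).2.2.1, norm_smul, hC', Real.norm_eq_abs,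
      abs_of_nonneg (sub_nonneg.mpr hστ)]
    simp only [hh, hγ]
    ring
  have hL : len (conf s) γ = ∫ t in σ..τ, h t := by
    rw [hLen]
    simp_rw [hγ']
    rw [intervalIntegral.integral_const_mul, intervalIntegral.mul_integral_comp_add_mul]
    congr 1 <;> ring
  have hx : mob a (C b c σ) ∈ Metric.sphere (0 : E n) 1 := mem_sphere_zero_iff_norm.mpr (hmob σ)
  have hy : mob a (C b c τ) ∈ Metric.sphere (0 : E n) 1 := mem_sphere_zero_iff_norm.mpr (hmob τ)
  have key := hlen γ hγC (fun t _ => mem_sphere_zero_iff_norm.mpr (hmob _)) ⟨_, hx⟩ ⟨_, hy⟩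
    (by simp [hγ]) (by simp [hγ])
  rw [hL] at key
  have e1 : F (mob a (C b c σ)) = f ⟨_, hx⟩ := hF ⟨_, hx⟩
  have e2 : F (mob a (C b c τ)) = f ⟨_, hy⟩ := hF ⟨_, hy⟩
  change ‖F (mob a (C b c τ)) - F (mob a (C b c σ))‖ ≤ ∫ t in σ..τ, h t / R
  rw [e1, e2, intervalIntegral.integral_div, le_div_iff₀ hR]
  have h5 := norm_sub_le_angle (f ⟨_, hy⟩ : E n) (f ⟨_, hx⟩ : E n)
    (mem_sphere_zero_iff_norm.mp (f ⟨_, hy⟩).2) (mem_sphere_zero_iff_norm.mp (f ⟨_, hx⟩).2)
  rw [InnerProductGeometry.angle_comm] at h5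
  calc _ ≤ InnerProductGeometry.angle (f ⟨_, hx⟩ : E n) (f ⟨_, hy⟩ : E n) * R :=
        mul_le_mul_of_nonneg_right h5 hR.le
    _ = R * InnerProductGeometry.angle (f ⟨_, hx⟩ : E n) (f ⟨_, hy⟩ : E n) := mul_comm _ _
    _ ≤ _ := key

end Pool.Agent.MP562567
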