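import Pool.Agent.Lib.MP_562567_gt.Spec

/-!
# MP_562567_gt: the main inequality for metrics, from the modules
-/

set_option autoImplicit false

namespace Pool.Agent.MP562567

open MeasureTheory Set in
/-- the main inequality, from the statements of the modules -/
theorem miOf : S_Avg → S_Atom → S_Pars → S_Circ → S_Poinc → S_Ode → S_LapB → S_Rad1 → S_Rad2 →
    S_Mean → S_Mob1 → S_Mob2 → S_Mob3 → S_Cov → S_CovB → S_Tr → S_Hersch → S_Len → S_LipPath →
    S_Core → S_Ineq → S_Sc → S_H → S_US → S_MI := by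
  intro hAvg hAtom hPars hCirc hPoinc hOde hLapB hRad1 hRad2 hMean hMob1 hMob2 hMob3 hCov hCovB
    hTr hHersch hLen hLip hCore hIneq hSc hH hUS n s R hn hs hscal hR hRad
  obtain ⟨A⟩ := hAvg n
  have hn' : (3 : ℝ) ≤ n := by exact_mod_cast hn
  obtain ⟨hsup, hbd⟩ := hUS hSc hH n s hn hs hscal
  set e : E n := EuclideanSpace.single (⟨0, by omega⟩ : Fin n) (1 : ℝ) with hedef
  have he : ‖e‖ = 1 := by
    rw [hedef, PiLp.norm_single, norm_one]
  obtain ⟨v, hv, hvb, hRv⟩ := hCore hAtom hPars hCirc hPoinc hLapB hMob1 hMob2 hMob3 hCov hCovB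
    hTr hHersch hLen hLip n A s R e hn hs.continuous he hsup hR hRad
  obtain ⟨hM0, hM1, hmean⟩ := hMean hOde hLapB hRad1 hRad2 n A v hn hv e he
  obtain ⟨h6, hc⟩ := hIneq n A v R e hn he hR hv hRv hM0 hM1
  refine ⟨h6, ?_⟩
  intro h hh hmc hcase
  have hp : 0 < pp n := by
    unfold pp
    linarith
  have hc0 : 0 ≤ h / ((n : ℝ) - 1) := div_nonneg hh (by linarith)
  exact hc (h / ((n : ℝ) - 1)) hc0
    (hmean (pp n * (h / ((n : ℝ) - 1))) (mul_nonneg hp.le hc0) (hvb _ (hbd h hmc))) hcase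

end Pool.Agent.MP562567
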