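import Pool.Agent.Lib.MP_562567_gt.RadAux

/-!
# MP_562567_gt: the inequalities for the mean value of a supersolution
-/

set_option autoImplicit false

namespace Pool.Agent.MP562567

open MeasureTheory Set

open radAux in
theorem mean : S_Mean := by
  intro hOde hLB hR1 hR2 n A v hn hS e he
  obtain ⟨⟨U, hU, hB, hv⟩, hpos, hineq⟩ := hS
  have hn3 : (3 : ℝ) ≤ n := by exact_mod_cast hn
  have hp : 0 < pp n := by
    unfold pp
    linarith
  set p : ℝ := pp n with hpdef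
  set K : Set (E n) := Metric.closedBall 0 1 with hK
  have hvc : ContinuousOn v K := hv.continuousOn.mono hB
  have hv1 : ContDiffOn ℝ 1 (fderiv ℝ v) U := hv.fderiv_of_isOpen hU (by norm_num)
  have hD2 : ContinuousOn (fderiv ℝ (fderiv ℝ v)) K :=
    (hv1.continuousOn_fderiv_of_isOpen hU le_rfl).mono hB
  have hlapc : ContinuousOn (lap v) K := by
    have h1 : ∀ x ∈ K, lap v x = ∑ i, fderiv ℝ (fderiv ℝ v) x
        ((EuclideanSpace.basisFun (Fin n) ℝ) i) ((EuclideanSpace.basisFun (Fin n) ℝ) i) :=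
      fun x hx => hLB n v x (hv.contDiffAt (hU.mem_nhds (hB hx))) _
    refine ContinuousOn.congr ?_ h1
    refine continuousOn_finset_sum _ fun i _ => ?_
    exact (hD2.clm_apply continuousOn_const).clm_apply continuousOn_const
  have hqc : ∀ q : ℝ, ContinuousOn (fun x => v x ^ q) K := fun q =>
    hvc.rpow_const fun x hx => Or.inl (hpos x hx).ne'
  have hint : ∀ f : E n → ℝ, ContinuousOn f K → ∀ r ∈ Icc (0 : ℝ) 1,
      Integrable (fun g => f (r • A.ρ g e)) A.μ := by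
    intro f hf r hr
    have h1 := int0 A f 1 hf (r • e)
      (by rw [norm_smul, he, mul_one, Real.norm_eq_abs, abs_of_nonneg hr.1]; exact hr.2)
    simpa only [map_smul] using h1
  have hmem : ∀ r ∈ Icc (0 : ℝ) 1, ∀ g, r • A.ρ g e ∈ K := by
    intro r hr g
    rw [hK, mem_closedBall_zero_iff, norm_smul, LinearIsometryEquiv.norm_map, he, mul_one,
      Real.norm_eq_abs, abs_of_nonneg hr.1]
    exact hr.2
  have hφpos : ∀ r ∈ Icc (0 : ℝ) 1, 0 < ∫ g, v (r • A.ρ g e) ∂A.μ := by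
    intro r hr
    obtain ⟨x₀, hx₀, hmin⟩ := (isCompact_closedBall (0 : E n) 1).exists_isMinOn
      ⟨0, by simp⟩ hvc
    have h1 : ∫ _, v x₀ ∂A.μ ≤ ∫ g, v (r • A.ρ g e) ∂A.μ :=
      integral_mono (integrable_const _) (hint v hvc r hr) fun g => hmin (hmem r hr g)
    rw [integral_const, probReal_univ, one_smul] at h1
    exact lt_of_lt_of_le (hpos x₀ hx₀) h1
  have hineq2 : ∀ r ∈ Icc (0 : ℝ) 1,
      r * ∫ g, fderiv ℝ (fderiv ℝ v) (r • A.ρ g e) (A.ρ g e) (A.ρ g e) ∂A.μ +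
      ((n : ℝ) - 1) * ∫ g, fderiv ℝ v (r • A.ρ g e) (A.ρ g e) ∂A.μ ≤
      -(p * (p + 1) * r * (∫ g, v (r • A.ρ g e) ∂A.μ) ^ (1 + 2 / p)) := by
    intro r hr
    rw [hR2 hLB n A v U hU hB hv e he r hr]
    have hq1 : (1 : ℝ) ≤ 1 + 2 / p := by
      have : 0 < 2 / p := by positivity
      linarith
    have hJ : (∫ g, v (r • A.ρ g e) ∂A.μ) ^ (1 + 2 / p) ≤
        ∫ g, v (r • A.ρ g e) ^ (1 + 2 / p) ∂A.μ :=
      (convexOn_rpow hq1).map_integral_le
        (continuousOn_id.rpow_const fun x _ => Or.inr (by linarith)) isClosed_Ici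
        (Filter.Eventually.of_forall fun g => (hpos _ (hmem r hr g)).le)
        (hint v hvc r hr) (hint _ (hqc _) r hr)
    have hL : ∫ g, lap v (r • A.ρ g e) ∂A.μ ≤
        ∫ g, -(p * (p + 1) * v (r • A.ρ g e) ^ (1 + 2 / p)) ∂A.μ :=
      integral_mono (hint _ hlapc r hr) ((hint _ (hqc _) r hr).const_mul _).neg fun g => by
        have h1 := hineq _ (hmem r hr g)
        linarith
    rw [integral_neg, integral_const_mul] at hL
    have h2 : p * (p + 1) * (∫ g, v (r • A.ρ g e) ∂A.μ) ^ (1 + 2 / p) ≤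
        p * (p + 1) * ∫ g, v (r • A.ρ g e) ^ (1 + 2 / p) ∂A.μ :=
      mul_le_mul_of_nonneg_left hJ (by positivity)
    have h3 : ∫ g, lap v (r • A.ρ g e) ∂A.μ ≤
        -(p * (p + 1) * (∫ g, v (r • A.ρ g e) ∂A.μ) ^ (1 + 2 / p)) := by linarith
    have h4 := mul_le_mul_of_nonneg_left h3 hr.1
    linarith
  have hode := hOde n (fun r => ∫ g, v (r • A.ρ g e) ∂A.μ)
    (fun r => ∫ g, fderiv ℝ v (r • A.ρ g e) (A.ρ g e) ∂A.μ)
    (fun r => ∫ g, fderiv ℝ (fderiv ℝ v) (r • A.ρ g e) (A.ρ g e) (A.ρ g e) ∂A.μ) hn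
    (fun r hr => hR1 n A v U hU hB hv e he r hr) hφpos hineq2
  simp only [one_smul] at hode
  have h1mem : (1 : ℝ) ∈ Icc (0 : ℝ) 1 := ⟨zero_le_one, le_rfl⟩
  have hM0 : 0 < ∫ g, v (A.ρ g e) ∂A.μ := by
    have h := hφpos 1 h1mem
    simpa only [one_smul] using h
  set M : ℝ := ∫ g, v (A.ρ g e) ∂A.μ with hM
  refine ⟨hM0, hode.1, fun κ hκ hBd => ?_⟩
  have hi1 : Integrable (fun g => fderiv ℝ v (A.ρ g e) (A.ρ g e)) A.μ :=
    int1 A v U hU 1 hB hv e e he.le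
  have hiq : Integrable (fun g => v (A.ρ g e) ^ (1 + 1 / p)) A.μ := by
    have h := hint _ (hqc (1 + 1 / p)) 1 h1mem
    simpa only [one_smul] using h
  have hiv : Integrable (fun g => v (A.ρ g e)) A.μ := by
    have h := hint _ hvc 1 h1mem
    simpa only [one_smul] using h
  have hsph : ∀ g, A.ρ g e ∈ Metric.sphere (0 : E n) 1 := by
    intro g
    rw [mem_sphere_zero_iff_norm, LinearIsometryEquiv.norm_map, he]
  have hb1 : κ * ∫ g, v (A.ρ g e) ^ (1 + 1 / p) ∂A.μ ≤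
      ∫ g, fderiv ℝ v (A.ρ g e) (A.ρ g e) ∂A.μ + p * M := by
    rw [hM, ← integral_const_mul, ← integral_const_mul, ← integral_add hi1 (hiv.const_mul _)]
    exact integral_mono (hiq.const_mul _) (hi1.add (hiv.const_mul _)) fun g => hBd _ (hsph g)
  have hb0 : 0 ≤ κ * ∫ g, v (A.ρ g e) ^ (1 + 1 / p) ∂A.μ := by
    refine mul_nonneg hκ (integral_nonneg fun g => ?_)
    exact Real.rpow_nonneg (hpos _ (Metric.sphere_subset_closedBall (hsph g))).le _
  have hb2 := hode.2 (hb0.trans hb1)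
  have hx1 : M ^ (2 / p) ≤ 1 := Real.rpow_le_one hM0.le hode.1 (by positivity)
  have hsq : (p * M * Real.sqrt (1 - M ^ (2 / p))) ^ 2 = p ^ 2 * M ^ 2 * (1 - M ^ (2 / p)) := by
    rw [mul_pow, mul_pow, Real.sq_sqrt (by linarith)]
  have hb3 : (κ * ∫ g, v (A.ρ g e) ^ (1 + 1 / p) ∂A.μ) ^ 2 ≤
      (p * M * Real.sqrt (1 - M ^ (2 / p))) ^ 2 := by
    rw [hsq]
    exact (pow_le_pow_left₀ hb0 hb1 2).trans hb2
  exact (le_abs_self _).trans (abs_le_of_sq_le_sq hb3 (by positivity))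

end Pool.Agent.MP562567
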