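import Pool.Agent.Lib.MP_562567_gt.Spec

/-!
# MP_562567_gt, M1: Moebius maps, norms
-/

set_option autoImplicit false

namespace Pool.Agent.MP562567

namespace Mob1Aux

variable {n : ℕ}

theorem norm_num_sq (a x : E n) :
    ‖(1 - ‖a‖ ^ 2) • x + (1 + 2 * inner ℝ a x + ‖x‖ ^ 2) • a‖ ^ 2 =
      den a x * (den a x - (1 - ‖a‖ ^ 2) * (1 - ‖x‖ ^ 2)) := by
  rw [norm_add_sq_real, norm_smul, norm_smul, mul_pow, mul_pow, Real.norm_eq_abs, Real.norm_eq_abs,
    sq_abs, sq_abs, real_inner_smul_left, real_inner_smul_right, real_inner_comm a x]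
  unfold den
  ring

theorem norm_mob_sq (a x : E n) (h : 0 < den a x) :
    ‖mob a x‖ ^ 2 = 1 - (1 - ‖a‖ ^ 2) * (1 - ‖x‖ ^ 2) / den a x := by
  unfold mob
  rw [norm_smul, mul_pow, norm_num_sq, Real.norm_eq_abs, sq_abs]
  field_simp

theorem den_ge (a x : E n) : (1 - ‖a‖ * ‖x‖) ^ 2 ≤ den a x := by
  have h := abs_real_inner_le_norm a x
  have h2 := neg_abs_le (inner ℝ a x)
  unfold den
  nlinarith

theorem den_one (a x : E n) (hx : ‖x‖ = 1) : den a x = ‖x + a‖ ^ 2 := by
  rw [norm_add_sq_real, hx, real_inner_comm]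
  unfold den
  rw [hx]
  ring

end Mob1Aux

open Mob1Aux in
theorem mob1 : S_Mob1 := by
  intro n a x
  refine ⟨?_, ?_, ?_⟩
  · intro ha hx
    have h1 : ‖a‖ * ‖x‖ < 1 := by
      nlinarith [norm_nonneg a, norm_nonneg x]
    have hden : 0 < den a x := by
      have h2 := den_ge a x
      have h3 : 0 < (1 - ‖a‖ * ‖x‖) ^ 2 := by
        have : 0 < 1 - ‖a‖ * ‖x‖ := by linarith
        positivity
      linarith
    have ha2 : 0 < 1 - ‖a‖ ^ 2 := by
      nlinarith [norm_nonneg a]
    have hx2 : 0 ≤ 1 - ‖x‖ ^ 2 := by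
      nlinarith [norm_nonneg x]
    refine ⟨hden, ?_, ?_⟩
    · unfold lam
      exact div_pos ha2 hden
    · have h4 := norm_mob_sq a x hden
      have h5 : 0 ≤ (1 - ‖a‖ ^ 2) * (1 - ‖x‖ ^ 2) / den a x :=
        div_nonneg (mul_nonneg ha2.le hx2) hden.le
      nlinarith [norm_nonneg (mob a x)]
  · intro ha hx hxa
    have hden : 0 < den a x := by
      rw [den_one a x hx]
      have : x + a ≠ 0 := fun h => hxa (eq_neg_of_add_eq_zero_left h)
      have := norm_pos_iff.mpr this
      positivity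
    refine ⟨hden, ?_⟩
    have h4 := norm_mob_sq a x hden
    rw [hx] at h4
    have h5 : ‖mob a x‖ ^ 2 = 1 := by
      rw [h4]
      simp
    have h6 : (‖mob a x‖ - 1) * (‖mob a x‖ + 1) = 0 := by
      linarith
    rcases mul_eq_zero.mp h6 with h | h
    · linarith
    · linarith [norm_nonneg (mob a x)]
  · intro ha hx hxa
    have hden : 0 < den a x := by
      rw [den_one a x hx]
      have : x + a ≠ 0 := fun h => hxa (eq_neg_of_add_eq_zero_left h)
      have := norm_pos_iff.mpr this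
      positivity
    have h1 : den a x = 1 + 2 * inner ℝ a x + 1 := by
      unfold den
      rw [ha, hx]
      ring
    unfold mob
    rw [ha, hx, one_pow, sub_self, zero_smul, zero_add, smul_smul, ← h1,
      inv_mul_cancel₀ hden.ne', one_smul]

end Pool.Agent.MP562567
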