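import Pool.Agent.Lib.MP_562567_gt.Spec

/-!
# MP_562567_gt, M3: Moebius maps, second derivatives
-/

set_option autoImplicit false

namespace Pool.Agent.MP562567

namespace Mob3Aux

variable {n : ℕ}

theorem inner_bv (a : E n) (i : Fin n) : inner ℝ a (bv i) = a i := by
  unfold bv
  rw [EuclideanSpace.inner_single_right]
  simp

theorem bv_inner (a : E n) (i : Fin n) : inner ℝ (bv i) a = a i := by
  rw [real_inner_comm, inner_bv]

theorem bv_bv (i : Fin n) : (bv i : E n) i = 1 := by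
  unfold bv
  simp

theorem sum_mul_bv (y : E n) : ∑ i, (y i) • (bv i : E n) = y := by
  have h := (EuclideanSpace.basisFun (Fin n) ℝ).sum_repr y
  simpa [bv, EuclideanSpace.basisFun_repr, EuclideanSpace.basisFun_apply] using h

theorem sum_mul (y z : E n) : ∑ i, y i * z i = inner ℝ y z := by
  rw [PiLp.inner_apply]
  refine Finset.sum_congr rfl fun i _ => ?_
  simp [mul_comm]

/-- the derivative of the denominator -/
noncomputable def LL (a x : E n) : E n →L[ℝ] ℝ :=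
  (2 : ℝ) • innerSL ℝ a + (2 * ‖a‖ ^ 2) • innerSL ℝ x

theorem hasFDerivAt_inner (a x : E n) :
    HasFDerivAt (fun x : E n => (inner ℝ a x : ℝ)) (innerSL ℝ a) x :=
  (innerSL ℝ a).hasFDerivAt

theorem hasFDerivAt_sq (x : E n) :
    HasFDerivAt (fun x : E n => ‖x‖ ^ 2) ((2 : ℝ) • innerSL ℝ x) x := by
  refine HasFDerivAt.congr_fderiv (hasStrictFDerivAt_norm_sq x).hasFDerivAt ?_
  ext v
  simp [two_smul]

theorem hasFDerivAt_den (a x : E n) : HasFDerivAt (den a) (LL a x) x := by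
  have h := ((((hasFDerivAt_inner a x).const_mul 2).const_add 1).add
    ((hasFDerivAt_sq x).const_mul (‖a‖ ^ 2)))
  refine HasFDerivAt.congr_fderiv (f := den a) h ?_
  ext v
  simp [LL]
  ring

theorem LL_bv (a x : E n) (i : Fin n) : LL a x (bv i) = 2 * a i + 2 * ‖a‖ ^ 2 * x i := by
  simp [LL, inner_bv]

theorem continuous_den (a : E n) : Continuous (den a) :=
  continuous_iff_continuousAt.mpr fun x => (hasFDerivAt_den a x).continuousAt

theorem ev_pos (a x : E n) (hx : 0 < den a x) : ∀ᶠ y in nhds x, 0 < den a y :=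
  (continuous_den a).continuousAt.eventually (lt_mem_nhds hx)

/-- sum of the squares of the derivatives of the denominator -/
theorem sum_sq (a x : E n) :
    ∑ i, (2 * a i + 2 * ‖a‖ ^ 2 * x i) ^ 2 = 4 * ‖a‖ ^ 2 * den a x := by
  have e : ∀ i : Fin n, (2 * a i + 2 * ‖a‖ ^ 2 * x i) ^ 2 =
      ((2 : ℝ) • a + (2 * ‖a‖ ^ 2) • x : E n) i * ((2 : ℝ) • a + (2 * ‖a‖ ^ 2) • x : E n) i := by
    intro i
    simp
    ring
  rw [Finset.sum_congr rfl fun i _ => e i, sum_mul, real_inner_self_eq_norm_sq, norm_add_sq_real,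
    norm_smul, norm_smul, mul_pow, mul_pow, Real.norm_eq_abs, Real.norm_eq_abs, sq_abs, sq_abs,
    real_inner_smul_left, real_inner_smul_right]
  unfold den
  ring

/-- the sum of `D_i N_i` -/
theorem sum_S (a x : E n) (κ : ℝ) :
    ∑ i, (2 * a i + 2 * ‖a‖ ^ 2 * x i) • (κ • (bv i : E n) + (2 * a i + 2 * x i) • a) =
      κ • ((2 : ℝ) • a + (2 * ‖a‖ ^ 2) • x) +
        (4 * ‖a‖ ^ 2 + 4 * inner ℝ a x + 4 * ‖a‖ ^ 2 * inner ℝ a x +
          4 * ‖a‖ ^ 2 * ‖x‖ ^ 2) • a := by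
  have e1 : ∑ i, (2 * a i + 2 * ‖a‖ ^ 2 * x i) • (κ • (bv i : E n) + (2 * a i + 2 * x i) • a) =
      κ • ∑ i, ((2 : ℝ) • a + (2 * ‖a‖ ^ 2) • x : E n) i • (bv i : E n) +
      (∑ i, ((2 : ℝ) • a + (2 * ‖a‖ ^ 2) • x : E n) i * ((2 : ℝ) • a + (2 : ℝ) • x : E n) i) •
        a := by
    rw [Finset.smul_sum, Finset.sum_smul, ← Finset.sum_add_distrib]
    refine Finset.sum_congr rfl fun i _ => ?_
    simp only [PiLp.add_apply, PiLp.smul_apply, smul_eq_mul]
    module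
  rw [e1, sum_mul_bv, sum_mul]
  congr 2
  rw [inner_add_left, inner_add_right, inner_add_right, real_inner_smul_left,
    real_inner_smul_left, real_inner_smul_left, real_inner_smul_left, real_inner_smul_right,
    real_inner_smul_right, real_inner_smul_right, real_inner_smul_right,
    real_inner_self_eq_norm_sq, real_inner_self_eq_norm_sq, real_inner_comm a x]
  ring

/-! ### the first part -/

theorem pd_rpow (a y : E n) (hy : 0 < den a y) (q : ℝ) (i : Fin n) :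
    fderiv ℝ (fun z => den a z ^ q) y (bv i) =
      q * den a y ^ (q - 1) * (2 * a i + 2 * ‖a‖ ^ 2 * y i) := by
  have h := (hasFDerivAt_den a y).rpow_const (p := q) (Or.inl hy.ne')
  rw [h.fderiv]
  simp only [smul_apply, smul_eq_mul, LL_bv]

theorem lap_rpow (a x : E n) (hx : 0 < den a x) (q : ℝ) :
    lap (fun z => den a z ^ q) x =
      q * (q - 1) * den a x ^ (q - 2) * (4 * ‖a‖ ^ 2 * den a x) +
        q * den a x ^ (q - 1) * (2 * ‖a‖ ^ 2 * n) := by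
  have key : ∀ i : Fin n, pd i (pd i (fun z => den a z ^ q)) x =
      q * (q - 1) * den a x ^ (q - 2) * (2 * a i + 2 * ‖a‖ ^ 2 * x i) ^ 2 +
        q * den a x ^ (q - 1) * (2 * ‖a‖ ^ 2) := by
    intro i
    unfold pd
    have e1 : (fun y => fderiv ℝ (fun z => den a z ^ q) y (bv i)) =ᶠ[nhds x]
        fun y => q * den a y ^ (q - 1) * (2 * a i + 2 * ‖a‖ ^ 2 * inner ℝ (bv i) y) := by
      filter_upwards [ev_pos a x hx] with y hy
      rw [pd_rpow a y hy, bv_inner]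
    rw [e1.fderiv_eq]
    have h1 := ((hasFDerivAt_den a x).rpow_const (p := q - 1) (Or.inl hx.ne')).const_mul q
    have h2 := ((hasFDerivAt_inner (bv i) x).const_mul (2 * ‖a‖ ^ 2)).const_add (2 * a i)
    have h3 : HasFDerivAt (fun y => q * den a y ^ (q - 1) *
        (2 * a i + 2 * ‖a‖ ^ 2 * inner ℝ (bv i) y)) _ x := h1.mul h2
    rw [h3.fderiv]
    simp only [add_apply, smul_apply, smul_eq_mul, LL_bv, innerSL_apply_apply, bv_inner, bv_bv]
    have e2 : q - 1 - 1 = q - 2 := by ring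
    rw [e2]
    ring
  unfold lap
  rw [Finset.sum_congr rfl fun i _ => key i, Finset.sum_add_distrib, ← Finset.mul_sum, sum_sq,
    Finset.sum_const, Finset.card_univ, Fintype.card_fin, nsmul_eq_mul]
  ring

theorem part1 (a x : E n) (ha : ‖a‖ < 1) (hx : 0 < den a x) :
    lap (fun y => lam a y ^ pp n) x = 0 := by
  have hκ : 0 < 1 - ‖a‖ ^ 2 := by nlinarith [norm_nonneg a]
  have e1 : ∀ y, 0 < den a y → lam a y ^ pp n =
      (1 - ‖a‖ ^ 2) ^ pp n * den a y ^ (-pp n) := by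
    intro y hy
    unfold lam
    rw [Real.div_rpow hκ.le hy.le, Real.rpow_neg hy.le, div_eq_mul_inv]
  have e2 : lap (fun y => lam a y ^ pp n) x =
      (1 - ‖a‖ ^ 2) ^ pp n * lap (fun z => den a z ^ (-pp n)) x := by
    unfold lap
    rw [Finset.mul_sum]
    refine Finset.sum_congr rfl fun i _ => ?_
    unfold pd
    have e3 : ∀ y, 0 < den a y → fderiv ℝ (fun y => lam a y ^ pp n) y (bv i) =
        (1 - ‖a‖ ^ 2) ^ pp n * fderiv ℝ (fun z => den a z ^ (-pp n)) y (bv i) := by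
      intro y hy
      have e4 : (fun y => lam a y ^ pp n) =ᶠ[nhds y]
          fun z => (1 - ‖a‖ ^ 2) ^ pp n * den a z ^ (-pp n) := by
        filter_upwards [ev_pos a y hy] with z hz using e1 z hz
      have hd : DifferentiableAt ℝ (fun z => den a z ^ (-pp n)) y :=
        ((hasFDerivAt_den a y).rpow_const (Or.inl hy.ne')).differentiableAt
      rw [e4.fderiv_eq, fderiv_const_mul hd]
      simp
    have e5 : (fun y => fderiv ℝ (fun y => lam a y ^ pp n) y (bv i)) =ᶠ[nhds x]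
        fun y => (1 - ‖a‖ ^ 2) ^ pp n * fderiv ℝ (fun z => den a z ^ (-pp n)) y (bv i) := by
      filter_upwards [ev_pos a x hx] with y hy using e3 y hy
    have e6 : (fun y => fderiv ℝ (fun z => den a z ^ (-pp n)) y (bv i)) =ᶠ[nhds x]
        fun y => (-pp n) * den a y ^ (-pp n - 1) *
          (2 * a i + 2 * ‖a‖ ^ 2 * inner ℝ (bv i) y) := by
      filter_upwards [ev_pos a x hx] with y hy
      rw [pd_rpow a y hy, bv_inner]
    have hd : DifferentiableAt ℝ (fun y => fderiv ℝ (fun z => den a z ^ (-pp n)) y (bv i)) x := by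
      refine DifferentiableAt.congr_of_eventuallyEq ?_ e6
      have h1 := ((hasFDerivAt_den a x).rpow_const (p := -pp n - 1) (Or.inl hx.ne')).const_mul
        (-pp n)
      have h2 := ((hasFDerivAt_inner (bv i) x).const_mul (2 * ‖a‖ ^ 2)).const_add (2 * a i)
      exact (h1.mul h2).differentiableAt
    rw [e5.fderiv_eq, fderiv_const_mul hd]
    simp
  rw [e2, lap_rpow a x hx]
  have e3 : den a x ^ (-pp n - 1) = den a x ^ (-pp n - 2) * den a x := by
    rw [← Real.rpow_add_one hx.ne']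
    congr 1
    ring
  rw [e3]
  have e4 : (n : ℝ) = 2 * pp n + 2 := by unfold pp; ring
  rw [e4]
  ring

/-! ### the second part -/

/-- the numerator -/
noncomputable def num (a x : E n) : E n :=
  (1 - ‖a‖ ^ 2) • x + (1 + 2 * inner ℝ a x + ‖x‖ ^ 2) • a

theorem hasFDerivAt_num (a x : E n) :
    HasFDerivAt (num a) ((1 - ‖a‖ ^ 2) • ContinuousLinearMap.id ℝ (E n) +
      ((2 : ℝ) • innerSL ℝ a + (2 : ℝ) • innerSL ℝ x).smulRight a) x := by
  have h3 := (((hasFDerivAt_inner a x).const_mul 2).const_add 1).add (hasFDerivAt_sq x)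
  exact ((hasFDerivAt_id x).const_smul (1 - ‖a‖ ^ 2)).add (h3.smul_const a)

theorem hasFDerivAt_inv (a x : E n) (hx : 0 < den a x) :
    HasFDerivAt (fun y => (den a y)⁻¹) (-(den a x ^ 2)⁻¹ • LL a x) x :=
  (hasDerivAt_inv hx.ne').comp_hasFDerivAt x (hasFDerivAt_den a x)

theorem second (hM : S_Mob2) (a x : E n) (ha : ‖a‖ < 1) (hx : 0 < den a x) (i : Fin n) :
    fderiv ℝ (fderiv ℝ (mob a)) x (bv i) (bv i) =
      (2 * (den a x)⁻¹) • a -
        (2 * (den a x)⁻¹ ^ 2) • ((2 * a i + 2 * ‖a‖ ^ 2 * x i) •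
          ((1 - ‖a‖ ^ 2) • (bv i : E n) + (2 * a i + 2 * x i) • a)) +
        (2 * (den a x)⁻¹ ^ 3 * (2 * a i + 2 * ‖a‖ ^ 2 * x i) ^ 2 -
          (den a x)⁻¹ ^ 2 * (2 * ‖a‖ ^ 2)) • num a x := by
  have hcd : ContDiffAt ℝ (↑(⊤ : ℕ∞)) (mob a) x := (hM n a x ha hx).1
  have hdd : DifferentiableAt ℝ (fderiv ℝ (mob a)) x := by
    have h1 : ContDiffAt ℝ 1 (fderiv ℝ (mob a)) x :=
      hcd.fderiv_right (by
        have : (1 : WithTop ℕ∞) + 1 = ((2 : ℕ∞) : WithTop ℕ∞) := by norm_num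
        rw [this]
        exact_mod_cast le_top)
    exact h1.differentiableAt (by norm_num)
  have h0 : fderiv ℝ (fun y => fderiv ℝ (mob a) y (bv i)) x (bv i) =
      fderiv ℝ (fderiv ℝ (mob a)) x (bv i) (bv i) := by
    have h1 := ((ContinuousLinearMap.apply ℝ (E n) (bv i : E n)).hasFDerivAt
      (x := fderiv ℝ (mob a) x)).comp x hdd.hasFDerivAt
    have h2 : HasFDerivAt (fun y => fderiv ℝ (mob a) y (bv i)) _ x := h1
    rw [h2.fderiv]
    rfl
  rw [← h0]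
  have e1 : (fun y => fderiv ℝ (mob a) y (bv i)) =ᶠ[nhds x]
      fun y => (den a y)⁻¹ • ((1 - ‖a‖ ^ 2) • (bv i : E n) +
        (2 * a i + 2 * inner ℝ (bv i) y) • a) -
        ((den a y)⁻¹ * (den a y)⁻¹ * (2 * a i + 2 * ‖a‖ ^ 2 * inner ℝ (bv i) y)) • num a y := by
    filter_upwards [ev_pos a x hx] with y hy
    rw [(hM n a y ha hy).2.1 (bv i), inner_bv, inner_bv, bv_inner, ← sq]
    rfl
  rw [e1.fderiv_eq]
  have hi := hasFDerivAt_inv a x hx
  have h2 := ((((hasFDerivAt_inner (bv i) x).const_mul 2).const_add (2 * a i)).smul_const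
    a).const_add ((1 - ‖a‖ ^ 2) • (bv i : E n))
  have h3 := ((hasFDerivAt_inner (bv i) x).const_mul (2 * ‖a‖ ^ 2)).const_add (2 * a i)
  have h4 := ((hi.smul h2).sub (((hi.mul hi).mul h3).smul (hasFDerivAt_num a x)))
  have h5 : HasFDerivAt (fun y => (den a y)⁻¹ • ((1 - ‖a‖ ^ 2) • (bv i : E n) +
        (2 * a i + 2 * inner ℝ (bv i) y) • a) -
        ((den a y)⁻¹ * (den a y)⁻¹ * (2 * a i + 2 * ‖a‖ ^ 2 * inner ℝ (bv i) y)) • num a y)
        _ x := h4
  rw [h5.fderiv]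
  simp only [add_apply, smul_apply, sub_apply, smul_eq_mul, LL_bv, innerSL_apply_apply, bv_inner,
    bv_bv, inner_bv, ContinuousLinearMap.smulRight_apply, ContinuousLinearMap.id_apply,
    Pi.mul_apply]
  rw [← inv_pow]
  module

theorem first (hM : S_Mob2) (a x : E n) (ha : ‖a‖ < 1) (hx : 0 < den a x) (i : Fin n) :
    (pd i (lam a) x) • fderiv ℝ (mob a) x (bv i) =
      (-((1 - ‖a‖ ^ 2) * (den a x)⁻¹ ^ 3)) • ((2 * a i + 2 * ‖a‖ ^ 2 * x i) •
          ((1 - ‖a‖ ^ 2) • (bv i : E n) + (2 * a i + 2 * x i) • a)) +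
      ((1 - ‖a‖ ^ 2) * (den a x)⁻¹ ^ 4 * (2 * a i + 2 * ‖a‖ ^ 2 * x i) ^ 2) • num a x := by
  have h1 : pd i (lam a) x =
      -((1 - ‖a‖ ^ 2) * (den a x)⁻¹ ^ 2 * (2 * a i + 2 * ‖a‖ ^ 2 * x i)) := by
    unfold pd
    have h2 : HasFDerivAt (lam a) ((1 - ‖a‖ ^ 2) • (-(den a x ^ 2)⁻¹ • LL a x)) x := by
      have h3 := (hasFDerivAt_inv a x hx).const_mul (1 - ‖a‖ ^ 2)
      have e : lam a = fun y => (1 - ‖a‖ ^ 2) * (den a y)⁻¹ := by
        funext y
        unfold lam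
        rw [div_eq_mul_inv]
      rw [e]
      exact h3
    rw [h2.fderiv]
    simp only [smul_apply, smul_eq_mul, LL_bv]
    rw [← inv_pow]
    ring
  rw [h1, (hM n a x ha hx).2.1 (bv i), inner_bv, inner_bv]
  have e : (1 - ‖a‖ ^ 2) • x + (1 + 2 * inner ℝ a x + ‖x‖ ^ 2) • a = num a x := rfl
  rw [e]
  module

theorem final (a N S : E n) (κ D p : ℝ) (hD : D ≠ 0)
    (hS : S = (2 * D) • a + (2 * ‖a‖ ^ 2) • N) (hp : (n : ℝ) = 2 * p + 2) :
    (κ / D) • (((2 * D⁻¹) * n) • a - (2 * D⁻¹ ^ 2) • S +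
      (2 * D⁻¹ ^ 3 * (4 * ‖a‖ ^ 2 * D) - D⁻¹ ^ 2 * (2 * ‖a‖ ^ 2) * n) • N) +
    (2 * p) • ((-(κ * D⁻¹ ^ 3)) • S + (κ * D⁻¹ ^ 4 * (4 * ‖a‖ ^ 2 * D)) • N) = 0 := by
  rw [hS, hp]
  match_scalars
  · field_simp
    ring
  · field_simp
    ring

end Mob3Aux

open Mob3Aux in
theorem mob3 : S_Mob3 := by
  intro hM n a x ha hx
  refine ⟨part1 a x ha hx, ?_⟩
  have hS : (1 - ‖a‖ ^ 2) • ((2 : ℝ) • a + (2 * ‖a‖ ^ 2) • x) +
        (4 * ‖a‖ ^ 2 + 4 * inner ℝ a x + 4 * ‖a‖ ^ 2 * inner ℝ a x +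
          4 * ‖a‖ ^ 2 * ‖x‖ ^ 2) • a =
      (2 * den a x) • a + (2 * ‖a‖ ^ 2) • num a x := by
    unfold num den
    match_scalars
    · ring
    · ring
  have hf := final a (num a x) _ (1 - ‖a‖ ^ 2) (den a x) (pp n) hx.ne' hS
    (by unfold pp; ring)
  have hA : ∑ i, fderiv ℝ (fderiv ℝ (mob a)) x (bv i) (bv i) =
      ((2 * (den a x)⁻¹) * n) • a - (2 * (den a x)⁻¹ ^ 2) •
        ((1 - ‖a‖ ^ 2) • ((2 : ℝ) • a + (2 * ‖a‖ ^ 2) • x) +
        (4 * ‖a‖ ^ 2 + 4 * inner ℝ a x + 4 * ‖a‖ ^ 2 * inner ℝ a x +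
          4 * ‖a‖ ^ 2 * ‖x‖ ^ 2) • a) +
      (2 * (den a x)⁻¹ ^ 3 * (4 * ‖a‖ ^ 2 * den a x) -
        (den a x)⁻¹ ^ 2 * (2 * ‖a‖ ^ 2) * n) • num a x := by
    rw [Finset.sum_congr rfl fun i _ => second hM a x ha hx i, Finset.sum_add_distrib,
      Finset.sum_sub_distrib, ← Finset.smul_sum, ← Finset.smul_sum, sum_S, ← Finset.sum_smul,
      Finset.sum_sub_distrib, ← Finset.mul_sum, sum_sq, Finset.sum_const,
      Finset.sum_const, Finset.card_univ, Fintype.card_fin, nsmul_eq_mul,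
      ← Nat.cast_smul_eq_nsmul ℝ, smul_smul, mul_comm (n : ℝ) ((den a x)⁻¹ ^ 2 * _)]
  have hB : ∑ i, (pd i (lam a) x) • fderiv ℝ (mob a) x (bv i) =
      (-((1 - ‖a‖ ^ 2) * (den a x)⁻¹ ^ 3)) •
        ((1 - ‖a‖ ^ 2) • ((2 : ℝ) • a + (2 * ‖a‖ ^ 2) • x) +
        (4 * ‖a‖ ^ 2 + 4 * inner ℝ a x + 4 * ‖a‖ ^ 2 * inner ℝ a x +
          4 * ‖a‖ ^ 2 * ‖x‖ ^ 2) • a) +
      ((1 - ‖a‖ ^ 2) * (den a x)⁻¹ ^ 4 * (4 * ‖a‖ ^ 2 * den a x)) • num a x := by
    rw [Finset.sum_congr rfl fun i _ => first hM a x ha hx i, Finset.sum_add_distrib,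
      ← Finset.smul_sum, sum_S, ← Finset.sum_smul, ← Finset.mul_sum, sum_sq]
  rw [hA, hB]
  exact hf

end Pool.Agent.MP562567
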