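import Pool.Agent.Lib.MP_562567_gt.Spec

/-!
# MP_562567_gt, OD: the energy inequality for the radial equation
-/

set_option autoImplicit false

namespace Pool.Agent.MP562567

namespace OdeAux

open Set Filter Topology

/-- `χ = r φ' + p φ` -/
noncomputable def chi (p : ℝ) (φ φ₁ : ℝ → ℝ) (r : ℝ) : ℝ := r * φ₁ r + p * φ r

/-- the bracket of the energy -/
noncomputable def br (p : ℝ) (φ φ₁ : ℝ → ℝ) (r : ℝ) : ℝ :=
  chi p φ φ₁ r ^ 2 - p ^ 2 * φ r ^ 2 + p ^ 2 * (r ^ 2 * φ r ^ (2 + 2 / p))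

/-- the energy -/
noncomputable def en (m : ℕ) (p : ℝ) (φ φ₁ : ℝ → ℝ) (r : ℝ) : ℝ := r ^ m * br p φ φ₁ r

theorem hasDerivAt_chi {p : ℝ} {φ φ₁ φ₂ : ℝ → ℝ} {r : ℝ} (h0 : HasDerivAt φ (φ₁ r) r)
    (h1 : HasDerivAt φ₁ (φ₂ r) r) :
    HasDerivAt (chi p φ φ₁) ((φ₁ r + r * φ₂ r) + p * φ₁ r) r := by
  have h := ((hasDerivAt_id r).mul h1).add (h0.const_mul p)
  simp only [id_eq, one_mul] at h
  exact h

theorem hasDerivAt_br {p : ℝ} {φ φ₁ φ₂ : ℝ → ℝ} {r : ℝ} (h0 : HasDerivAt φ (φ₁ r) r)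
    (h1 : HasDerivAt φ₁ (φ₂ r) r) (hpos : 0 < φ r) :
    HasDerivAt (br p φ φ₁) (2 * chi p φ φ₁ r * ((φ₁ r + r * φ₂ r) + p * φ₁ r)
      - p ^ 2 * (2 * φ r * φ₁ r) + p ^ 2 * (2 * r * φ r ^ (2 + 2 / p) +
        r ^ 2 * (φ₁ r * (2 + 2 / p) * φ r ^ (1 + 2 / p)))) r := by
  have hc := (hasDerivAt_chi (p := p) h0 h1).pow 2
  have hq := (h0.pow 2).const_mul (p ^ 2)
  have hr : HasDerivAt (fun r : ℝ => r ^ 2) (2 * r) r := by
    have := hasDerivAt_pow 2 r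
    simpa using this
  have hw := h0.rpow_const (p := 2 + 2 / p) (Or.inl hpos.ne')
  have h := (hc.sub hq).add ((hr.mul hw).const_mul (p ^ 2))
  refine HasDerivAt.congr_deriv (f := br p φ φ₁) h ?_
  have e : (2 : ℝ) + 2 / p - 1 = 1 + 2 / p := by ring
  rw [e]
  push_cast
  ring

/-- the derivative of the energy -/
theorem hasDerivAt_en {m : ℕ} {p : ℝ} {φ φ₁ φ₂ : ℝ → ℝ} {r : ℝ} (hp : 0 < p)
    (hm : (m : ℝ) = 2 * p) (hm1 : 1 ≤ m) (h0 : HasDerivAt φ (φ₁ r) r)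
    (h1 : HasDerivAt φ₁ (φ₂ r) r) (hpos : 0 < φ r) :
    HasDerivAt (en m p φ φ₁) (2 * r ^ m * chi p φ φ₁ r *
      (r * φ₂ r + (2 * p + 1) * φ₁ r + p * (p + 1) * r * φ r ^ (1 + 2 / p))) r := by
  have h := (hasDerivAt_pow m r).mul (hasDerivAt_br (p := p) h0 h1 hpos)
  refine HasDerivAt.congr_deriv (f := en m p φ φ₁) h ?_
  obtain ⟨k, rfl⟩ : ∃ k, m = k + 1 := ⟨m - 1, by omega⟩
  have e1 : φ r ^ (2 + 2 / p) = φ r * φ r ^ (1 + 2 / p) := by
    rw [show (2 : ℝ) + 2 / p = 1 + (1 + 2 / p) by ring, Real.rpow_add hpos, Real.rpow_one]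
  have e2 : p * (2 + 2 / p) = 2 * p + 2 := by
    field_simp
  simp only [br, Nat.add_sub_cancel, e1]
  rw [hm]
  have e3 : p ^ 2 * (r ^ 2 * (φ₁ r * (2 + 2 / p) * φ r ^ (1 + 2 / p))) =
      p * (2 * p + 2) * (r ^ 2 * (φ₁ r * φ r ^ (1 + 2 / p))) := by
    rw [← e2]; ring
  have e4 : p ^ 2 * (2 * r * (φ r * φ r ^ (1 + 2 / p)) +
      r ^ 2 * (φ₁ r * (2 + 2 / p) * φ r ^ (1 + 2 / p))) =
      p ^ 2 * (2 * r * (φ r * φ r ^ (1 + 2 / p))) +
      p * (2 * p + 2) * (r ^ 2 * (φ₁ r * φ r ^ (1 + 2 / p))) := by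
    rw [mul_add, e3]
  rw [e4]
  simp only [chi]
  ring

variable {m : ℕ} {p : ℝ} {φ φ₁ φ₂ : ℝ → ℝ}

theorem en_anti (hp : 0 < p) (hm : (m : ℝ) = 2 * p) (hm1 : 1 ≤ m)
    (hd : ∀ r ∈ Icc (0 : ℝ) 1, HasDerivAt φ (φ₁ r) r ∧ HasDerivAt φ₁ (φ₂ r) r)
    (hpos : ∀ r ∈ Icc (0 : ℝ) 1, 0 < φ r)
    (hineq : ∀ r ∈ Icc (0 : ℝ) 1, r * φ₂ r + (2 * p + 1) * φ₁ r ≤
      - (p * (p + 1) * r * φ r ^ (1 + 2 / p)))
    {a b : ℝ} (ha : 0 ≤ a) (hab : a ≤ b) (hb : b ≤ 1)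
    (hchi : ∀ r ∈ Ioc a b, 0 ≤ chi p φ φ₁ r) :
    en m p φ φ₁ b ≤ en m p φ φ₁ a := by
  have hsub : Icc a b ⊆ Icc (0 : ℝ) 1 := Icc_subset_Icc ha hb
  have hder : ∀ r ∈ Icc a b, HasDerivAt (en m p φ φ₁) (2 * r ^ m * chi p φ φ₁ r *
      (r * φ₂ r + (2 * p + 1) * φ₁ r + p * (p + 1) * r * φ r ^ (1 + 2 / p))) r := fun r hr =>
    hasDerivAt_en hp hm hm1 (hd r (hsub hr)).1 (hd r (hsub hr)).2 (hpos r (hsub hr))
  have hanti : AntitoneOn (en m p φ φ₁) (Icc a b) := by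
    refine antitoneOn_of_deriv_nonpos (convex_Icc a b)
      (fun r hr => (hder r hr).continuousAt.continuousWithinAt)
      (fun r hr => ((hder r (interior_subset hr)).differentiableAt).differentiableWithinAt) ?_
    intro r hr
    rw [interior_Icc] at hr
    have hr' : r ∈ Icc a b := ⟨hr.1.le, hr.2.le⟩
    rw [(hder r hr').deriv]
    have h1 := hineq r (hsub hr')
    have h2 := hchi r ⟨hr.1, hr.2.le⟩
    have h3 : 0 ≤ r ^ m := pow_nonneg (ha.trans hr'.1) m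
    have h4 : 0 ≤ 2 * r ^ m * chi p φ φ₁ r := by positivity
    exact mul_nonpos_of_nonneg_of_nonpos h4 (by linarith)
  exact hanti (left_mem_Icc.mpr hab) (right_mem_Icc.mpr hab) hab

theorem claimA (hp : 0 < p) (hm : (m : ℝ) = 2 * p) (hm1 : 1 ≤ m)
    (hd : ∀ r ∈ Icc (0 : ℝ) 1, HasDerivAt φ (φ₁ r) r ∧ HasDerivAt φ₁ (φ₂ r) r)
    (hpos : ∀ r ∈ Icc (0 : ℝ) 1, 0 < φ r)
    (hineq : ∀ r ∈ Icc (0 : ℝ) 1, r * φ₂ r + (2 * p + 1) * φ₁ r ≤
      - (p * (p + 1) * r * φ r ^ (1 + 2 / p)))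
    {r : ℝ} (hr : r ∈ Icc (0 : ℝ) 1) (hchi : 0 ≤ chi p φ φ₁ r) : en m p φ φ₁ r ≤ 0 := by
  have hc0 : 0 < chi p φ φ₁ 0 := by
    simp only [chi, zero_mul, zero_add]
    exact mul_pos hp (hpos 0 ⟨le_rfl, zero_le_one⟩)
  have hcd : ∀ t ∈ Icc (0 : ℝ) 1, HasDerivAt (chi p φ φ₁) ((φ₁ t + t * φ₂ t) + p * φ₁ t) t :=
    fun t ht => hasDerivAt_chi (hd t ht).1 (hd t ht).2
  by_cases hall : ∀ t ∈ Ioc (0 : ℝ) r, 0 ≤ chi p φ φ₁ t
  · have h := en_anti hp hm hm1 hd hpos hineq le_rfl hr.1 hr.2 hall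
    have h0 : en m p φ φ₁ 0 = 0 := by
      simp only [en]
      rw [zero_pow (by omega), zero_mul]
    linarith
  · push Not at hall
    obtain ⟨s, hs, hsneg⟩ := hall
    set S : Set ℝ := {t | t ∈ Icc (0 : ℝ) r ∧ chi p φ φ₁ t < 0} with hS
    have hsS : s ∈ S := ⟨⟨hs.1.le, hs.2⟩, hsneg⟩
    have hbdd : BddAbove S := ⟨r, fun t ht => ht.1.2⟩
    set r₀ := sSup S with hr₀
    have hsr : s ≤ r₀ := le_csSup hbdd hsS
    have hr₀r : r₀ ≤ r := csSup_le ⟨s, hsS⟩ fun t ht => ht.1.2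
    have hr₀pos : 0 < r₀ := lt_of_lt_of_le hs.1 hsr
    have hr₀m : r₀ ∈ Icc (0 : ℝ) 1 := ⟨hr₀pos.le, hr₀r.trans hr.2⟩
    have hright : ∀ t ∈ Ioc r₀ r, 0 ≤ chi p φ φ₁ t := by
      intro t ht
      by_contra hcon
      push Not at hcon
      have : t ∈ S := ⟨⟨(hr₀pos.trans ht.1).le, ht.2⟩, hcon⟩
      exact absurd (le_csSup hbdd this) (not_le.mpr ht.1)
    -- value at r₀
    have hcont : ContinuousAt (chi p φ φ₁) r₀ := (hcd r₀ hr₀m).continuousAt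
    have hge : 0 ≤ chi p φ φ₁ r₀ := by
      rcases hr₀r.lt_or_eq with hlt | heq
      · have hmem : r₀ ∈ closure (Ioc r₀ r) := by
          rw [closure_Ioc hlt.ne]
          exact ⟨le_rfl, hlt.le⟩
        have hten : Tendsto (chi p φ φ₁) (𝓝[Ioc r₀ r] r₀) (𝓝 (chi p φ φ₁ r₀)) :=
          hcont.tendsto.mono_left nhdsWithin_le_nhds
        haveI : (𝓝[Ioc r₀ r] r₀).NeBot := mem_closure_iff_nhdsWithin_neBot.mp hmem
        exact ge_of_tendsto hten (eventually_nhdsWithin_of_forall fun t ht => hright t ht)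
      · rw [heq]; exact hchi
    have hle : chi p φ φ₁ r₀ ≤ 0 := by
      by_contra hcon
      push Not at hcon
      have hev : ∀ᶠ t in 𝓝 r₀, 0 < chi p φ φ₁ t := hcont.eventually_const_lt hcon
      obtain ⟨ε, hε, hball⟩ := Metric.eventually_nhds_iff.mp hev
      obtain ⟨t, htS, htlt⟩ := exists_lt_of_lt_csSup ⟨s, hsS⟩ (show r₀ - ε < sSup S by linarith)
      have htle : t ≤ r₀ := le_csSup hbdd htS
      have := hball (y := t) (by
        rw [Real.dist_eq, abs_lt]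
        constructor <;> linarith)
      exact absurd htS.2 (not_lt.mpr this.le)
    have hz : chi p φ φ₁ r₀ = 0 := le_antisymm hle hge
    -- derivative at r₀
    have hderiv : 0 ≤ (φ₁ r₀ + r₀ * φ₂ r₀) + p * φ₁ r₀ := by
      by_contra hcon
      push Not at hcon
      have hsl := (hasDerivAt_iff_tendsto_slope.mp (hcd r₀ hr₀m))
      have hev : ∀ᶠ t in 𝓝[≠] r₀, slope (chi p φ φ₁) r₀ t < 0 := hsl.eventually_lt_const hcon
      rw [eventually_nhdsWithin_iff] at hev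
      obtain ⟨ε, hε, hball⟩ := Metric.eventually_nhds_iff.mp hev
      obtain ⟨t, htS, htlt⟩ := exists_lt_of_lt_csSup ⟨s, hsS⟩ (show r₀ - ε < sSup S by linarith)
      have htle : t ≤ r₀ := le_csSup hbdd htS
      have htne : t ≠ r₀ := by
        intro h
        rw [h] at htS
        exact absurd htS.2 (by rw [hz]; exact lt_irrefl 0)
      have htlt' : t < r₀ := lt_of_le_of_ne htle htne
      have h1 := hball (y := t) (by
        rw [Real.dist_eq, abs_lt]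
        constructor <;> linarith) htne
      rw [slope_def_field, hz, sub_zero] at h1
      have h2 : chi p φ φ₁ t < 0 := htS.2
      have h3 : 0 < chi p φ φ₁ t / (t - r₀) := div_pos_of_neg_of_neg h2 (by linarith)
      linarith
    have hφ : 0 < φ r₀ := hpos r₀ hr₀m
    have hq : φ r₀ ^ (1 + 2 / p) = φ r₀ * φ r₀ ^ (2 / p) := by
      rw [Real.rpow_add hφ, Real.rpow_one]
    have hin := hineq r₀ hr₀m
    have hz' : r₀ * φ₁ r₀ = - (p * φ r₀) := by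
      have := hz
      simp only [chi] at this
      linarith
    have hkey : (p + 1) * (r₀ ^ 2 * φ r₀ ^ (2 / p)) ≤ p := by
      have h1 : 0 ≤ r₀ * ((φ₁ r₀ + r₀ * φ₂ r₀) + p * φ₁ r₀) := mul_nonneg hr₀pos.le hderiv
      have h2 : r₀ * (r₀ * φ₂ r₀ + (2 * p + 1) * φ₁ r₀) ≤
          r₀ * (- (p * (p + 1) * r₀ * φ r₀ ^ (1 + 2 / p))) :=
        mul_le_mul_of_nonneg_left hin hr₀pos.le
      rw [hq] at h2
      have h3 : 0 ≤ p * φ r₀ * (p - (p + 1) * (r₀ ^ 2 * φ r₀ ^ (2 / p))) := by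
        nlinarith [h1, h2, hz']
      have h4 : 0 < p * φ r₀ := mul_pos hp hφ
      have h5 := nonneg_of_mul_nonneg_right h3 h4
      linarith
    have hw : r₀ ^ 2 * φ r₀ ^ (2 / p) ≤ 1 := by
      have h6 : 0 ≤ r₀ ^ 2 * φ r₀ ^ (2 / p) := by positivity
      nlinarith
    have hen : en m p φ φ₁ r₀ ≤ 0 := by
      simp only [en, br, hz]
      have e5 : φ r₀ ^ (2 + 2 / p) = φ r₀ ^ 2 * φ r₀ ^ (2 / p) := by
        rw [Real.rpow_add hφ, Real.rpow_two]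
      rw [e5]
      refine mul_nonpos_of_nonneg_of_nonpos (pow_nonneg hr₀pos.le m) ?_
      have h7 : 0 < p ^ 2 * φ r₀ ^ 2 := by positivity
      nlinarith
    exact (en_anti hp hm hm1 hd hpos hineq hr₀pos.le hr₀r hr.2 hright).trans hen

/-- at a point with `χ ≥ 0` -/
theorem claimA' (hp : 0 < p) (hm : (m : ℝ) = 2 * p) (hm1 : 1 ≤ m)
    (hd : ∀ r ∈ Icc (0 : ℝ) 1, HasDerivAt φ (φ₁ r) r ∧ HasDerivAt φ₁ (φ₂ r) r)
    (hpos : ∀ r ∈ Icc (0 : ℝ) 1, 0 < φ r)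
    (hineq : ∀ r ∈ Icc (0 : ℝ) 1, r * φ₂ r + (2 * p + 1) * φ₁ r ≤
      - (p * (p + 1) * r * φ r ^ (1 + 2 / p)))
    {r : ℝ} (hr : r ∈ Icc (0 : ℝ) 1) (hr0 : 0 < r) (hchi : 0 ≤ chi p φ φ₁ r) :
    chi p φ φ₁ r ^ 2 ≤ p ^ 2 * φ r ^ 2 * (1 - r ^ 2 * φ r ^ (2 / p)) := by
  have h := claimA hp hm hm1 hd hpos hineq hr hchi
  have hφ : 0 < φ r := hpos r hr
  have e5 : φ r ^ (2 + 2 / p) = φ r ^ 2 * φ r ^ (2 / p) := by
    rw [Real.rpow_add hφ, Real.rpow_two]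
  simp only [en, br] at h
  rw [e5] at h
  have h1 : 0 < r ^ m := pow_pos hr0 m
  have h2 := nonpos_of_mul_nonpos_right h h1
  nlinarith

end OdeAux

open OdeAux Set in
theorem ode : S_Ode := by
  intro n φ φ₁ φ₂ hn hd hpos hineq
  have hn' : (3 : ℝ) ≤ n := by exact_mod_cast hn
  have hp : 0 < pp n := by
    unfold pp
    linarith
  obtain ⟨m, hm⟩ : ∃ m, n = m + 2 := ⟨n - 2, by omega⟩
  have hm1 : 1 ≤ m := by omega
  have hmp : (m : ℝ) = 2 * pp n := by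
    rw [pp, hm]
    push_cast
    ring
  have hnp : (n : ℝ) - 1 = 2 * pp n + 1 := by
    unfold pp
    ring
  have hineq' : ∀ r ∈ Icc (0 : ℝ) 1, r * φ₂ r + (2 * pp n + 1) * φ₁ r ≤
      - (pp n * (pp n + 1) * r * φ r ^ (1 + 2 / pp n)) := by
    intro r hr
    rw [← hnp]
    exact hineq r hr
  have h1m : (1 : ℝ) ∈ Icc (0 : ℝ) 1 := ⟨zero_le_one, le_rfl⟩
  have hφ1 : 0 < φ 1 := hpos 1 h1m
  have hchi1 : chi (pp n) φ φ₁ 1 = φ₁ 1 + pp n * φ 1 := by simp [chi]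
  have hsecond : 0 ≤ φ₁ 1 + pp n * φ 1 →
      (φ₁ 1 + pp n * φ 1) ^ 2 ≤ pp n ^ 2 * φ 1 ^ 2 * (1 - φ 1 ^ (2 / pp n)) := by
    intro h
    have := claimA' hp hmp hm1 hd hpos hineq' h1m one_pos (by rw [hchi1]; exact h)
    rw [hchi1] at this
    simpa using this
  refine ⟨?_, hsecond⟩
  by_cases hc : 0 ≤ φ₁ 1 + pp n * φ 1
  · have h := hsecond hc
    have h2 : 0 ≤ (φ₁ 1 + pp n * φ 1) ^ 2 := sq_nonneg _
    have h3 : 0 < pp n ^ 2 * φ 1 ^ 2 := by positivity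
    have h4 : 0 ≤ 1 - φ 1 ^ (2 / pp n) := by
      by_contra hcon
      push Not at hcon
      nlinarith
    by_contra hcon
    push Not at hcon
    have := Real.one_lt_rpow hcon (show 0 < 2 / pp n by positivity)
    linarith
  · push Not at hc
    rw [← hchi1] at hc
    have hcontc : ContinuousOn (chi (pp n) φ φ₁) (Icc 0 1) := fun t ht =>
      (hasDerivAt_chi (hd t ht).1 (hd t ht).2).continuousAt.continuousWithinAt
    set K : Set ℝ := Icc (0 : ℝ) 1 ∩ chi (pp n) φ φ₁ ⁻¹' Ici 0 with hK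
    have hKc : IsCompact K := by
      have : IsClosed K := hcontc.preimage_isClosed_of_isClosed isClosed_Icc isClosed_Ici
      exact isCompact_Icc.of_isClosed_subset this inter_subset_left
    have hK0 : (0 : ℝ) ∈ K := by
      refine ⟨⟨le_rfl, zero_le_one⟩, ?_⟩
      simp only [mem_preimage, mem_Ici, chi, zero_mul, zero_add]
      exact (mul_pos hp (hpos 0 ⟨le_rfl, zero_le_one⟩)).le
    set r₁ := sSup K with hr₁
    have hmem : r₁ ∈ K := hKc.sSup_mem ⟨0, hK0⟩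
    have hr1le : r₁ ≤ 1 := hmem.1.2
    have hneg : ∀ t ∈ Ioc r₁ 1, chi (pp n) φ φ₁ t < 0 := by
      intro t ht
      by_contra hcon
      push Not at hcon
      have : t ∈ K := ⟨⟨hmem.1.1.trans ht.1.le, ht.2⟩, hcon⟩
      exact absurd (le_csSup hKc.bddAbove this) (not_le.mpr ht.1)
    -- the function r^(n-2) φ² is antitone on [r₁, 1]
    have hpsi : φ 1 ^ 2 ≤ r₁ ^ m * φ r₁ ^ 2 := by
      have hder : ∀ t ∈ Icc r₁ 1, HasDerivAt (fun t => t ^ m * φ t ^ 2)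
          ((m : ℝ) * t ^ (m - 1) * φ t ^ 2 + t ^ m * (2 * φ t * φ₁ t)) t := by
        intro t ht
        have ht' : t ∈ Icc (0 : ℝ) 1 := ⟨hmem.1.1.trans ht.1, ht.2⟩
        have h := (hasDerivAt_pow m t).mul ((hd t ht').1.pow 2)
        refine HasDerivAt.congr_deriv (f := fun t => t ^ m * φ t ^ 2) h ?_
        simp only [Pi.pow_apply]
        push_cast
        ring
      have hanti : AntitoneOn (fun t => t ^ m * φ t ^ 2) (Icc r₁ 1) := by
        refine antitoneOn_of_deriv_nonpos (convex_Icc r₁ 1)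
          (fun t ht => (hder t ht).continuousAt.continuousWithinAt)
          (fun t ht => ((hder t (interior_subset ht)).differentiableAt).differentiableWithinAt) ?_
        intro t ht
        rw [interior_Icc] at ht
        have ht' : t ∈ Icc r₁ 1 := ⟨ht.1.le, ht.2.le⟩
        rw [(hder t ht').deriv]
        have ht0 : 0 < t := lt_of_le_of_lt hmem.1.1 ht.1
        have h1 := hneg t ⟨ht.1, ht.2.le⟩
        have h2 := hpos t ⟨ht0.le, ht.2.le⟩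
        obtain ⟨k, rfl⟩ : ∃ k, m = k + 1 := ⟨m - 1, by omega⟩
        rw [hmp, Nat.add_sub_cancel]
        have e : 2 * pp n * t ^ k * φ t ^ 2 + t ^ (k + 1) * (2 * φ t * φ₁ t) =
            (2 * t ^ k * φ t) * chi (pp n) φ φ₁ t := by
          simp only [chi]
          ring
        rw [e]
        exact mul_nonpos_of_nonneg_of_nonpos (by positivity) h1.le
      have h := hanti (left_mem_Icc.mpr hr1le) (right_mem_Icc.mpr hr1le) hr1le
      simpa using h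
    have hr1pos : 0 < r₁ := by
      rcases hmem.1.1.lt_or_eq with h | h
      · exact h
      · exfalso
        rw [← h, zero_pow (by omega), zero_mul] at hpsi
        nlinarith
    have hb := claimA' hp hmp hm1 hd hpos hineq' hmem.1 hr1pos hmem.2
    have hφr : 0 < φ r₁ := hpos r₁ hmem.1
    have hw : r₁ ^ 2 * φ r₁ ^ (2 / pp n) ≤ 1 := by
      have h2 : 0 ≤ chi (pp n) φ φ₁ r₁ ^ 2 := sq_nonneg _
      have h3 : 0 < pp n ^ 2 * φ r₁ ^ 2 := by positivity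
      by_contra hcon
      push Not at hcon
      nlinarith
    have hfin : r₁ ^ m * φ r₁ ^ 2 ≤ 1 := by
      have h1 : (r₁ ^ 2 * φ r₁ ^ (2 / pp n)) ^ pp n ≤ 1 :=
        Real.rpow_le_one (by positivity) hw hp.le
      have h2 : (r₁ ^ 2 * φ r₁ ^ (2 / pp n)) ^ pp n = r₁ ^ m * φ r₁ ^ 2 := by
        rw [Real.mul_rpow (by positivity) (by positivity), ← Real.rpow_natCast r₁ 2,
          ← Real.rpow_mul hr1pos.le, ← Real.rpow_mul hφr.le, div_mul_cancel₀ _ hp.ne']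
        rw [Nat.cast_ofNat, ← hmp, Real.rpow_natCast, Real.rpow_two]
      rw [h2] at h1
      exact h1
    have hsq : φ 1 ^ 2 ≤ 1 := hpsi.trans hfin
    nlinarith

end Pool.Agent.MP562567
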