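import Pool.Agent.Lib.MP_562567_gt.Spec

/-!
# MP_562567_gt: Parseval for the differences of a periodic function
-/

set_option autoImplicit false

namespace Pool.Agent.MP562567

open MeasureTheory Set

namespace parsAux

theorem hpi : (0 : ℝ) < 2 * Real.pi := by positivity

/-- the exponentials -/
noncomputable def ex (k : ℤ) (x : ℝ) : ℂ := Complex.exp (-(Complex.I * (k * x : ℝ)))

theorem ex_cont (k : ℤ) : Continuous (ex k) := by
  unfold ex
  fun_prop

theorem ex_shift (k : ℤ) (x r : ℝ) :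
    ex k x = Complex.exp (Complex.I * (k * r : ℝ)) * ex k (x + r) := by
  unfold ex
  rw [← Complex.exp_add]
  congr 1
  push_cast
  ring

theorem ex_per (k : ℤ) (x : ℝ) : ex k (x + 2 * Real.pi) = ex k x := by
  unfold ex
  rw [Complex.exp_eq_exp_iff_exists_int]
  refine ⟨-k, ?_⟩
  push_cast
  ring

theorem coeff (F : ℝ → ℂ) (k : ℤ) :
    fourierCoeffOn hpi F k =
      ((2 * Real.pi)⁻¹ : ℝ) • ∫ x in (0 : ℝ)..(2 * Real.pi), ex k x * F x := by
  rw [fourierCoeffOn_eq_integral]
  have h1 : (1 / (2 * Real.pi - 0) : ℝ) = (2 * Real.pi)⁻¹ := by rw [sub_zero, one_div]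
  rw [h1]
  congr 1
  refine intervalIntegral.integral_congr fun x _ => ?_
  simp only [smul_eq_mul]
  congr 1
  rw [fourier_coe_apply]
  unfold ex
  congr 1
  have hpi0 : (Real.pi : ℂ) ≠ 0 := Complex.ofReal_ne_zero.mpr Real.pi_ne_zero
  push_cast
  field_simp
  ring

end parsAux

open parsAux in
theorem pars : S_Pars := by
  intro f hf hper
  set c : ℤ → ℂ := fun k => fourierCoeffOn hpi (fun t => (f t : ℂ)) k with hc
  refine ⟨fun k => 2 * Real.pi * ‖c k‖ ^ 2, fun k => by positivity, fun r => ?_⟩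
  have hcont : Continuous fun t : ℝ => ((f (t + r) - f t : ℝ) : ℂ) := by fun_prop
  have hcontf : Continuous fun t : ℝ => (f t : ℂ) := by fun_prop
  have hcontr : Continuous fun t : ℝ => (f (t + r) : ℂ) := by fun_prop
  have hcoef : ∀ k : ℤ, fourierCoeffOn hpi (fun t : ℝ => ((f (t + r) - f t : ℝ) : ℂ)) k =
      (Complex.exp (Complex.I * (k * r : ℝ)) - 1) * c k := by
    intro k
    have hck : c k = fourierCoeffOn hpi (fun t => (f t : ℂ)) k := rfl
    rw [hck, coeff, coeff]
    have h1 : ∫ x in (0 : ℝ)..(2 * Real.pi), ex k x * ((f (x + r) - f x : ℝ) : ℂ) =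
        (∫ x in (0 : ℝ)..(2 * Real.pi), ex k x * (f (x + r) : ℂ)) -
        ∫ x in (0 : ℝ)..(2 * Real.pi), ex k x * (f x : ℂ) := by
      rw [← intervalIntegral.integral_sub]
      · refine intervalIntegral.integral_congr fun x _ => ?_
        push_cast
        ring
      · exact ((ex_cont k).mul hcontr).intervalIntegrable _ _
      · exact ((ex_cont k).mul hcontf).intervalIntegrable _ _
    have h2 : ∫ x in (0 : ℝ)..(2 * Real.pi), ex k x * (f (x + r) : ℂ) =
        Complex.exp (Complex.I * (k * r : ℝ)) *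
          ∫ x in (0 : ℝ)..(2 * Real.pi), ex k x * (f x : ℂ) := by
      have h3 : ∀ x : ℝ, ex k x * (f (x + r) : ℂ) = Complex.exp (Complex.I * (k * r : ℝ)) *
          (fun y : ℝ => ex k y * (f y : ℂ)) (x + r) := by
        intro x
        rw [ex_shift k x r]
        ring
      rw [intervalIntegral.integral_congr (g := fun x : ℝ =>
        Complex.exp (Complex.I * (k * r : ℝ)) * (fun y : ℝ => ex k y * (f y : ℂ)) (x + r))
        (fun x _ => h3 x)]
      rw [intervalIntegral.integral_const_mul,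
        intervalIntegral.integral_comp_add_right (fun y : ℝ => ex k y * (f y : ℂ))]
      congr 1
      have hp : Function.Periodic (fun y : ℝ => ex k y * (f y : ℂ)) (2 * Real.pi) := by
        intro x
        simp only
        rw [ex_per, hper]
      have h4 := hp.intervalIntegral_add_eq r 0
      rw [zero_add] at h4
      rw [zero_add, add_comm (2 * Real.pi) r]
      exact h4
    rw [h1, h2]
    simp only [Complex.real_smul]
    ring
  have hmem : MemLp (fun t : ℝ => ((f (t + r) - f t : ℝ) : ℂ)) 2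
      (volume.restrict (Ioc 0 (2 * Real.pi))) := by
    obtain ⟨C, hC⟩ := (isCompact_Icc (a := (0 : ℝ)) (b := 2 * Real.pi)).exists_bound_of_continuousOn
      hcont.continuousOn
    refine MemLp.of_bound hcont.aestronglyMeasurable C ?_
    refine (ae_restrict_iff' measurableSet_Ioc).mpr (Filter.Eventually.of_forall fun x hx => ?_)
    exact hC x (Ioc_subset_Icc_self hx)
  have hsum := hasSum_sq_fourierCoeffOn hpi hmem
  have hsum2 := hsum.mul_left (2 * Real.pi)
  have hval : 2 * Real.pi * ((2 * Real.pi - 0)⁻¹ • ∫ x in (0 : ℝ)..(2 * Real.pi),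
      ‖((f (x + r) - f x : ℝ) : ℂ)‖ ^ 2) =
      ∫ t in (0 : ℝ)..(2 * Real.pi), (f (t + r) - f t) ^ 2 := by
    rw [smul_eq_mul, sub_zero, ← mul_assoc, mul_inv_cancel₀ hpi.ne', one_mul]
    refine intervalIntegral.integral_congr fun x _ => ?_
    change ‖((f (x + r) - f x : ℝ) : ℂ)‖ ^ 2 = (f (x + r) - f x) ^ 2
    rw [Complex.norm_real, Real.norm_eq_abs, sq_abs]
  rw [hval] at hsum2
  have hterm : (fun k : ℤ => 2 * Real.pi * ‖fourierCoeffOn hpi
      (fun t : ℝ => ((f (t + r) - f t : ℝ) : ℂ)) k‖ ^ 2) =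
      fun k : ℤ => 4 * Real.sin (k * r / 2) ^ 2 * (2 * Real.pi * ‖c k‖ ^ 2) := by
    funext k
    rw [hcoef, norm_mul, Complex.norm_exp_I_mul_ofReal_sub_one, Real.norm_eq_abs, mul_pow, sq_abs]
    ring
  rw [hterm] at hsum2
  exact hsum2

end Pool.Agent.MP562567
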