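import Pool.Agent.Lib.MP_562567_gt.Spec

/-!
# MP_562567_gt: the sharp Poincare inequality through great circles
-/

set_option autoImplicit false

namespace Pool.Agent.MP562567

open MeasureTheory Set

namespace poincAux

variable {n : ℕ}

theorem exists_rho (A : Avg n) {y y' : E n} (h : ‖y‖ = ‖y'‖) : ∃ k : A.G, A.ρ k y = y' := by
  obtain ⟨k, hk⟩ := A.surj (Submodule.reflection (Submodule.span ℝ {y - y'})ᗮ)
  exact ⟨k, by rw [hk]; exact Submodule.reflection_sub h⟩

theorem rho_mul (A : Avg n) (g k : A.G) (x : E n) : A.ρ (g * k) x = A.ρ g (A.ρ k x) := by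
  rw [map_mul]
  rfl

theorem meas (A : Avg n) (e : E n) : Measurable fun g : A.G => A.ρ g e :=
  A.measJ.comp (measurable_id.prodMk measurable_const)

theorem rinv {V : Type*} [NormedAddCommGroup V] [NormedSpace ℝ V] (A : Avg n) (k : A.G)
    (φ : A.G → V) (hφ : AEStronglyMeasurable φ A.μ) :
    ∫ g, φ (g * k) ∂A.μ = ∫ g, φ g ∂A.μ := by
  have h := (A.right k).map_eq
  have h1 : ∫ g, φ g ∂(A.μ.map (fun g => g * k)) = ∫ g, φ (g * k) ∂A.μ :=
    integral_map (A.right k).measurable.aemeasurable (by rw [h]; exact hφ)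
  rw [← h1, h]

theorem linv {V : Type*} [NormedAddCommGroup V] [NormedSpace ℝ V] (A : Avg n) (k : A.G)
    (φ : A.G → V) (hφ : AEStronglyMeasurable φ A.μ) :
    ∫ g, φ (k * g) ∂A.μ = ∫ g, φ g ∂A.μ := by
  have h := (A.left k).map_eq
  have h1 : ∫ g, φ g ∂(A.μ.map (fun g => k * g)) = ∫ g, φ (k * g) ∂A.μ :=
    integral_map (A.left k).measurable.aemeasurable (by rw [h]; exact hφ)
  rw [← h1, h]

theorem swapI (A : Avg n) (f : ℝ → A.G → ℝ) (hf : Measurable (Function.uncurry f)) (C : ℝ)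
    (hC : ∀ t g, ‖f t g‖ ≤ C) (I : ℝ) (hI : ∀ t, ∫ g, f t g ∂A.μ = I) :
    Integrable (fun g => ∫ t in (0 : ℝ)..(2 * Real.pi), f t g) A.μ ∧
      ∫ g, (∫ t in (0 : ℝ)..(2 * Real.pi), f t g) ∂A.μ = 2 * Real.pi * I := by
  have hpi : (0 : ℝ) ≤ 2 * Real.pi := by positivity
  have h_int : Integrable (Function.uncurry f)
      ((volume.restrict (uIoc 0 (2 * Real.pi))).prod A.μ) := by
    have hfin : IsFiniteMeasure ((volume : Measure ℝ).restrict (uIoc 0 (2 * Real.pi))) := by
      rw [uIoc_of_le hpi]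
      infer_instance
    exact Integrable.of_bound hf.aestronglyMeasurable C
      (Filter.Eventually.of_forall fun q => hC q.1 q.2)
  refine ⟨?_, ?_⟩
  · have h1 := h_int.integral_prod_right
    refine h1.congr (Filter.Eventually.of_forall fun g => ?_)
    simp only
    rw [intervalIntegral.integral_of_le hpi, uIoc_of_le hpi]
    rfl
  · rw [← MeasureTheory.intervalIntegral_integral_swap h_int]
    simp only [hI]
    rw [intervalIntegral.integral_const, smul_eq_mul, sub_zero]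

/-- the great circle -/
noncomputable def X (e b : E n) (t : ℝ) : E n := Real.cos t • e + Real.sin t • b

theorem X_inner (e b : E n) (he : ‖e‖ = 1) (hb : ‖b‖ = 1) (heb : inner ℝ e b = 0) (s t : ℝ) :
    inner ℝ (X e b s) (X e b t) = Real.cos (s - t) := by
  have hbe : inner ℝ b e = 0 := by rw [real_inner_comm]; exact heb
  unfold X
  rw [inner_add_left, inner_add_right, inner_add_right]
  simp only [inner_smul_left, inner_smul_right, heb, hbe, real_inner_self_eq_norm_sq, he, hb]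
  rw [Real.cos_sub]
  simp
  ring

theorem X_norm (e b : E n) (he : ‖e‖ = 1) (hb : ‖b‖ = 1) (heb : inner ℝ e b = 0) (t : ℝ) :
    ‖X e b t‖ = 1 := by
  have h := X_inner e b he hb heb t t
  rw [sub_self, Real.cos_zero, real_inner_self_eq_norm_sq] at h
  nlinarith [norm_nonneg (X e b t)]

theorem X_zero (e b : E n) : X e b 0 = e := by simp [X]

theorem X_rho (A : Avg n) (g : A.G) (e b : E n) (t : ℝ) :
    A.ρ g (X e b t) = X (A.ρ g e) (A.ρ g b) t := by
  simp only [X, map_add, map_smul]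

theorem X_cont (e b : E n) : Continuous (X e b) := by
  unfold X
  fun_prop

theorem refl_X (e b : E n) (he : ‖e‖ = 1) (hb : ‖b‖ = 1) (heb : inner ℝ e b = 0) (α s : ℝ) :
    Submodule.reflection (Submodule.span ℝ {X e b α}) (X e b s) = X e b (2 * α - s) := by
  rw [Submodule.reflection_singleton_apply, X_inner e b he hb heb]
  have h1 := X_norm e b he hb heb α
  rw [h1]
  have h2 : ((1 : ℝ) : ℝ) ^ 2 = 1 := one_pow 2
  have hc : Real.cos (2 * α - s) = 2 * Real.cos (α - s) * Real.cos α - Real.cos s := by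
    have h3 : 2 * α - s = (α - s) + α := by ring
    have h4 : s = α - (α - s) := by ring
    rw [h3, Real.cos_add]
    conv_rhs => rw [h4]
    rw [Real.cos_sub α (α - s)]
    ring_nf
  have hs : Real.sin (2 * α - s) = 2 * Real.cos (α - s) * Real.sin α - Real.sin s := by
    have h3 : 2 * α - s = (α - s) + α := by ring
    have h4 : Real.sin s = Real.sin (α - (α - s)) := by congr 1; ring
    rw [h3, Real.sin_add, h4, Real.sin_sub α (α - s)]
    ring
  unfold X
  rw [hc, hs]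
  simp only [RCLike.ofReal_real_eq_id, id_eq, one_pow, div_one]
  module

theorem step1 (hPA : S_Pars) (hCI : S_Circ) (A : Avg n) (F : E n → E n) (w : E n → ℝ)
    (hFm : Measurable F) (hwm : Measurable w)
    (hF : ContinuousOn F (Metric.sphere 0 1)) (hw : ContinuousOn w (Metric.sphere 0 1))
    (hw0 : ∀ x ∈ Metric.sphere (0 : E n) 1, 0 ≤ w x)
    (hF1 : ∀ x, ‖F x‖ ≤ 1) (C : ℝ) (hwC : ∀ x, |w x| ≤ C)
    (hFw : ∀ a b : E n, ‖a‖ = 1 → ‖b‖ = 1 → inner ℝ a b = 0 → ∀ σ τ : ℝ, σ ≤ τ →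
      ‖F (Real.cos τ • a + Real.sin τ • b) - F (Real.cos σ • a + Real.sin σ • b)‖ ≤
        ∫ t in σ..τ, w (Real.cos t • a + Real.sin t • b))
    (e b : E n) (he : ‖e‖ = 1) (hb : ‖b‖ = 1) (heb : inner ℝ e b = 0) (r : ℝ) :
    ∫ g, ‖F (A.ρ g (X e b r)) - F (A.ρ g e)‖ ^ 2 ∂A.μ ≤
      4 * Real.sin (r / 2) ^ 2 * ∫ g, w (A.ρ g e) ^ 2 ∂A.μ := by
  have hXs : ∀ g t, A.ρ g (X e b t) ∈ Metric.sphere (0 : E n) 1 := by
    intro g t
    rw [mem_sphere_zero_iff_norm, LinearIsometryEquiv.norm_map, X_norm e b he hb heb]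
  have hg : ∀ g, ∫ t in (0 : ℝ)..(2 * Real.pi),
      ‖F (A.ρ g (X e b (t + r))) - F (A.ρ g (X e b t))‖ ^ 2 ≤
      4 * Real.sin (r / 2) ^ 2 * ∫ t in (0 : ℝ)..(2 * Real.pi), w (A.ρ g (X e b t)) ^ 2 := by
    intro g
    have hcF : Continuous fun t => F (A.ρ g (X e b t)) :=
      hF.comp_continuous ((A.ρ g).continuous.comp (X_cont e b)) (hXs g)
    have hcw : Continuous fun t => w (A.ρ g (X e b t)) :=
      hw.comp_continuous ((A.ρ g).continuous.comp (X_cont e b)) (hXs g)
    have hXp : ∀ t, X e b (t + 2 * Real.pi) = X e b t := by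
      intro t
      simp only [X, Real.cos_add_two_pi, Real.sin_add_two_pi]
    refine hCI hPA n (fun t => F (A.ρ g (X e b t))) (fun t => w (A.ρ g (X e b t))) hcF hcw
      (fun t => by simp only [hXp]) (fun t => by simp only [hXp]) (fun t => hw0 _ (hXs g t)) ?_ r
    intro σ τ hστ
    have h1 := hFw (A.ρ g e) (A.ρ g b) (by rw [LinearIsometryEquiv.norm_map, he])
      (by rw [LinearIsometryEquiv.norm_map, hb])
      (by rw [LinearIsometryEquiv.inner_map_map, heb]) σ τ hστ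
    simp only [X_rho]
    exact h1
  set I : ℝ := ∫ g, ‖F (A.ρ g (X e b r)) - F (A.ρ g e)‖ ^ 2 ∂A.μ with hI
  set W : ℝ := ∫ g, w (A.ρ g e) ^ 2 ∂A.μ with hW
  have hm1 : Measurable fun q : ℝ × A.G => A.ρ q.2 (X e b (q.1 + r)) :=
    A.measJ.comp (measurable_snd.prodMk
      ((X_cont e b).measurable.comp (measurable_fst.add_const r)))
  have hm2 : Measurable fun q : ℝ × A.G => A.ρ q.2 (X e b q.1) :=
    A.measJ.comp (measurable_snd.prodMk ((X_cont e b).measurable.comp measurable_fst))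
  have hΦ := swapI A (fun t g => ‖F (A.ρ g (X e b (t + r))) - F (A.ρ g (X e b t))‖ ^ 2)
    ((((hFm.comp hm1).sub (hFm.comp hm2)).norm).pow_const 2) 4
    (fun t g => by
      rw [Real.norm_eq_abs, abs_of_nonneg (by positivity)]
      have h1 : ‖F (A.ρ g (X e b (t + r))) - F (A.ρ g (X e b t))‖ ≤ 2 :=
        (norm_sub_le _ _).trans (by linarith [hF1 (A.ρ g (X e b (t + r))), hF1 (A.ρ g (X e b t))])
      nlinarith [norm_nonneg (F (A.ρ g (X e b (t + r))) - F (A.ρ g (X e b t)))]) I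
    (fun t => by
      obtain ⟨k, hk⟩ := A.surj (Submodule.reflection
        (Submodule.span ℝ {X e b ((t + r) / 2)}))
      have hk1 : ∀ s, A.ρ k (X e b s) = X e b (t + r - s) := by
        intro s
        rw [hk, refl_X e b he hb heb]
        congr 1
        ring
      have h1 := rinv A k (fun g => ‖F (A.ρ g (X e b 0)) - F (A.ρ g (X e b r))‖ ^ 2)
        ((((hFm.comp (meas A _)).sub (hFm.comp (meas A _))).norm).pow_const 2).aestronglyMeasurable
      simp only [rho_mul, hk1] at h1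
      have h2 : t + r - r = t := by ring
      rw [sub_zero, h2] at h1
      rw [h1, hI]
      refine integral_congr_ae (Filter.Eventually.of_forall fun g => ?_)
      simp only
      rw [X_zero, norm_sub_rev])
  have hΨ := swapI A (fun t g => w (A.ρ g (X e b t)) ^ 2)
    ((hwm.comp hm2).pow_const 2) (C ^ 2)
    (fun t g => by
      rw [Real.norm_eq_abs, abs_of_nonneg (by positivity), ← sq_abs]
      exact pow_le_pow_left₀ (abs_nonneg _) (hwC _) 2) W
    (fun t => by
      obtain ⟨k, hk⟩ := exists_rho A (y := e) (y' := X e b t)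
        (by rw [he, X_norm e b he hb heb])
      have h1 := rinv A k (fun g => w (A.ρ g e) ^ 2)
        ((hwm.comp (meas A _)).pow_const 2).aestronglyMeasurable
      simp only [rho_mul, hk] at h1
      exact h1)
  have h3 := integral_mono hΦ.1 (hΨ.1.const_mul (4 * Real.sin (r / 2) ^ 2)) hg
  rw [hΦ.2, integral_const_mul, hΨ.2] at h3
  have hpi : (0 : ℝ) < 2 * Real.pi := by positivity
  refine le_of_mul_le_mul_left ?_ hpi
  linarith

theorem exists_orth (hn : 2 ≤ n) (e : E n) (he : ‖e‖ = 1) :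
    ∃ b : E n, ‖b‖ = 1 ∧ inner ℝ e b = 0 := by
  let i₀ : Fin n := ⟨0, by omega⟩
  let i₁ : Fin n := ⟨1, by omega⟩
  have hne : i₀ ≠ i₁ := by
    intro h
    have := congrArg Fin.val h
    simp [i₀, i₁] at this
  have h1 : ‖(bv i₀ : E n)‖ = 1 := by simp [bv]
  have h2 : ‖(bv i₁ : E n)‖ = 1 := by simp [bv]
  have h3 : inner ℝ (bv i₀ : E n) (bv i₁) = 0 := by
    simp [bv, EuclideanSpace.inner_single_left, hne]
  set k : E n ≃ₗᵢ[ℝ] E n := Submodule.reflection (Submodule.span ℝ {(bv i₀ : E n) - e})ᗮ with hk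
  have hke : k (bv i₀) = e := Submodule.reflection_sub (h1.trans he.symm)
  refine ⟨k (bv i₁), by rw [LinearIsometryEquiv.norm_map, h2], ?_⟩
  rw [← hke, LinearIsometryEquiv.inner_map_map, h3]

theorem exists_X (hn : 2 ≤ n) (e y : E n) (he : ‖e‖ = 1) (hy : ‖y‖ = 1) :
    ∃ (b : E n) (r : ℝ), ‖b‖ = 1 ∧ inner ℝ e b = 0 ∧ X e b r = y := by
  set c : ℝ := inner ℝ e y with hc
  have hc1 : |c| ≤ 1 := by
    have h := abs_real_inner_le_norm e y
    rwa [he, hy, one_mul] at h
  obtain ⟨hc2, hc3⟩ := abs_le.mp hc1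
  set u : E n := y - c • e with hu
  have heu : inner ℝ e u = 0 := by
    rw [hu, inner_sub_right, inner_smul_right, real_inner_self_eq_norm_sq, he, ← hc]
    ring
  have hu2 : ‖u‖ ^ 2 = 1 - c ^ 2 := by
    rw [hu, norm_sub_sq_real, hy, norm_smul, he, inner_smul_right, real_inner_comm, ← hc]
    rw [Real.norm_eq_abs, mul_one, sq_abs]
    ring
  have hcos : Real.cos (Real.arccos c) = c := Real.cos_arccos hc2 hc3
  have hsin : Real.sin (Real.arccos c) = ‖u‖ := by
    rw [Real.sin_arccos, ← hu2, Real.sqrt_sq (norm_nonneg _)]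
  by_cases hu0 : u = 0
  · obtain ⟨b, hb, hbe⟩ := exists_orth hn e he
    refine ⟨b, Real.arccos c, hb, hbe, ?_⟩
    unfold X
    rw [hcos, hsin, hu0, norm_zero, zero_smul, add_zero]
    exact (sub_eq_zero.mp (hu.symm.trans hu0)).symm
  · have hun : ‖u‖ ≠ 0 := norm_ne_zero_iff.mpr hu0
    refine ⟨‖u‖⁻¹ • u, Real.arccos c, ?_, ?_, ?_⟩
    · rw [norm_smul, norm_inv, norm_norm, inv_mul_cancel₀ hun]
    · rw [inner_smul_right, heu, mul_zero]
    · unfold X
      rw [hcos, hsin, smul_smul, mul_inv_cancel₀ hun, one_smul, hu]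
      abel

theorem int_bdd {V : Type*} [NormedAddCommGroup V] [NormedSpace ℝ V] (A : Avg n) (φ : A.G → V)
    (hφ : AEStronglyMeasurable φ A.μ) (C : ℝ) (hC : ∀ g, ‖φ g‖ ≤ C) : Integrable φ A.μ :=
  Integrable.of_bound hφ C (Filter.Eventually.of_forall hC)

theorem avg_sq (A : Avg n) (φ : A.G → E n) (hφ : Measurable φ) (h1 : ∀ g, ‖φ g‖ = 1)
    (h0 : ∫ g, φ g ∂A.μ = 0) (v : E n) (hv : ‖v‖ = 1) :
    ∫ g, ‖φ g - v‖ ^ 2 ∂A.μ = 2 := by
  have hi : Integrable φ A.μ := int_bdd A φ hφ.aestronglyMeasurable 1 fun g => (h1 g).le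
  have h2 : ∀ g, ‖φ g - v‖ ^ 2 = 2 - 2 * inner ℝ v (φ g) := by
    intro g
    rw [norm_sub_sq_real, h1, hv, real_inner_comm]
    ring
  simp only [h2]
  have hi2 : Integrable (fun g => inner ℝ v (φ g)) A.μ := hi.const_inner v
  rw [integral_sub (integrable_const _) (hi2.const_mul 2), integral_const_mul,
    integral_inner hi, h0, inner_zero_right, integral_const]
  simp

end poincAux

open poincAux in
theorem poinc_meas (hPA : S_Pars) (hCI : S_Circ) (n : ℕ) (A : Avg n) (hn : 2 ≤ n)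
    (F : E n → E n) (w : E n → ℝ)
    (hFm : Measurable F) (hwm : Measurable w)
    (hF : ContinuousOn F (Metric.sphere 0 1)) (hw : ContinuousOn w (Metric.sphere 0 1))
    (hw0 : ∀ x ∈ Metric.sphere (0 : E n) 1, 0 ≤ w x)
    (hFs : ∀ x ∈ Metric.sphere (0 : E n) 1, ‖F x‖ = 1)
    (hF1 : ∀ x, ‖F x‖ ≤ 1) (C : ℝ) (hwC : ∀ x, |w x| ≤ C)
    (hFw : ∀ a b : E n, ‖a‖ = 1 → ‖b‖ = 1 → inner ℝ a b = 0 → ∀ σ τ : ℝ, σ ≤ τ →
      ‖F (Real.cos τ • a + Real.sin τ • b) - F (Real.cos σ • a + Real.sin σ • b)‖ ≤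
        ∫ t in σ..τ, w (Real.cos t • a + Real.sin t • b))
    (e : E n) (he : ‖e‖ = 1) (hF0 : ∫ g, F (A.ρ g e) ∂A.μ = 0) :
    1 ≤ ∫ g, w (A.ρ g e) ^ 2 ∂A.μ := by
  set W : ℝ := ∫ g, w (A.ρ g e) ^ 2 ∂A.μ with hW
  have hsph : ∀ g (x : E n), ‖x‖ = 1 → A.ρ g x ∈ Metric.sphere (0 : E n) 1 := by
    intro g x hx
    rw [mem_sphere_zero_iff_norm, LinearIsometryEquiv.norm_map, hx]
  have h1 : ∀ y : E n, ‖y‖ = 1 →
      ∫ g, ‖F (A.ρ g y) - F (A.ρ g e)‖ ^ 2 ∂A.μ ≤ ‖y - e‖ ^ 2 * W := by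
    intro y hy
    obtain ⟨b, r, hb, heb, rfl⟩ := exists_X hn e y he hy
    have h2 := step1 hPA hCI A F w hFm hwm hF hw hw0 hF1 C hwC hFw e b he hb heb r
    have h3 : ‖X e b r - e‖ ^ 2 = 4 * Real.sin (r / 2) ^ 2 := by
      have h4 : inner ℝ (X e b r) e = Real.cos r := by
        have h5 := X_inner e b he hb heb r 0
        rwa [X_zero, sub_zero] at h5
      rw [norm_sub_sq_real, hy, he, h4]
      have h6 : Real.cos r = 1 - 2 * Real.sin (r / 2) ^ 2 := by
        have h7 : r = 2 * (r / 2) := by ring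
        conv_lhs => rw [h7]
        rw [Real.cos_two_mul, Real.cos_sq']
        ring
      rw [h6]
      ring
    rw [h3]
    exact h2
  have hm1 : Measurable fun q : A.G × A.G => A.ρ q.2 (A.ρ q.1 e) :=
    A.measJ.comp (measurable_snd.prodMk ((meas A e).comp measurable_fst))
  have hm2 : Measurable fun q : A.G × A.G => A.ρ q.2 e := (meas A e).comp measurable_snd
  have hint : Integrable (Function.uncurry fun k g : A.G =>
      ‖F (A.ρ g (A.ρ k e)) - F (A.ρ g e)‖ ^ 2) (A.μ.prod A.μ) := by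
    refine Integrable.of_bound
      ((((hFm.comp hm1).sub (hFm.comp hm2)).norm).pow_const 2).aestronglyMeasurable 4
      (Filter.Eventually.of_forall fun q => ?_)
    change ‖‖F (A.ρ q.2 (A.ρ q.1 e)) - F (A.ρ q.2 e)‖ ^ 2‖ ≤ 4
    rw [Real.norm_eq_abs, abs_of_nonneg (by positivity)]
    have h1 : ‖F (A.ρ q.2 (A.ρ q.1 e)) - F (A.ρ q.2 e)‖ ≤ 2 :=
      (norm_sub_le _ _).trans (by linarith [hF1 (A.ρ q.2 (A.ρ q.1 e)), hF1 (A.ρ q.2 e)])
    nlinarith [norm_nonneg (F (A.ρ q.2 (A.ρ q.1 e)) - F (A.ρ q.2 e))]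
  have hL : ∫ k, ∫ g, ‖F (A.ρ g (A.ρ k e)) - F (A.ρ g e)‖ ^ 2 ∂A.μ ∂A.μ = 2 := by
    rw [integral_integral_swap hint]
    have h2 : ∀ g, ∫ k, ‖F (A.ρ g (A.ρ k e)) - F (A.ρ g e)‖ ^ 2 ∂A.μ = 2 := by
      intro g
      have h3 := linv A g (fun k => ‖F (A.ρ k e) - F (A.ρ g e)‖ ^ 2)
        ((((hFm.comp (meas A _)).sub measurable_const).norm).pow_const 2).aestronglyMeasurable
      simp only [rho_mul] at h3
      rw [h3]
      exact avg_sq A (fun k => F (A.ρ k e)) (hFm.comp (meas A e))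
        (fun k => hFs _ (hsph k e he)) hF0 _ (hFs _ (hsph g e he))
    simp only [h2]
    simp
  have hE0 : ∫ k, A.ρ k e ∂A.μ = 0 := by
    obtain ⟨k, hk⟩ := exists_rho A (y := e) (y' := -e) (by rw [norm_neg])
    have h3 := rinv A k (fun g => A.ρ g e) (meas A e).aestronglyMeasurable
    simp only [rho_mul, hk, map_neg] at h3
    rw [integral_neg] at h3
    have h4 : (2 : ℝ) • ∫ g, A.ρ g e ∂A.μ = 0 := by
      rw [two_smul]
      nth_rewrite 1 [← h3]
      exact neg_add_cancel _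
    exact (smul_eq_zero.mp h4).resolve_left two_ne_zero
  have hR : ∫ k, ‖A.ρ k e - e‖ ^ 2 * W ∂A.μ = 2 * W := by
    rw [integral_mul_const]
    rw [avg_sq A (fun k => A.ρ k e) (meas A e)
      (fun k => by rw [LinearIsometryEquiv.norm_map, he]) hE0 e he]
  have hRi : Integrable (fun k => ‖A.ρ k e - e‖ ^ 2 * W) A.μ := by
    refine Integrable.mul_const ?_ W
    refine int_bdd A _ ((((meas A e).sub measurable_const).norm).pow_const 2).aestronglyMeasurable 4
      fun k => ?_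
    rw [Real.norm_eq_abs, abs_of_nonneg (by positivity)]
    have h1 : ‖A.ρ k e - e‖ ≤ 2 :=
      (norm_sub_le _ _).trans (by rw [LinearIsometryEquiv.norm_map, he]; norm_num)
    nlinarith [norm_nonneg (A.ρ k e - e)]
  have h4 := integral_mono hint.integral_prod_left hRi fun k =>
    h1 (A.ρ k e) (by rw [LinearIsometryEquiv.norm_map, he])
  simp only [Function.uncurry] at h4
  rw [hL, hR] at h4
  linarith

open poincAux in
open Classical in
theorem poinc : S_Poinc := by
  intro hPA hCI n A hn F w hF hw hw0 hFs hFw e he hF0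
  set S : Set (E n) := Metric.sphere 0 1 with hS
  have hSm : MeasurableSet S := Metric.isClosed_sphere.measurableSet
  set F₁ : E n → E n := S.piecewise F (fun _ => 0) with hF₁
  set w₁ : E n → ℝ := S.piecewise w (fun _ => 0) with hw₁
  have hFe : ∀ x ∈ S, F₁ x = F x := fun x hx => Set.piecewise_eq_of_mem _ _ _ hx
  have hwe : ∀ x ∈ S, w₁ x = w x := fun x hx => Set.piecewise_eq_of_mem _ _ _ hx
  have hFm : Measurable F₁ := hF.measurable_piecewise continuousOn_const hSm
  have hwm : Measurable w₁ := hw.measurable_piecewise continuousOn_const hSm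
  obtain ⟨C, hC⟩ := (isCompact_sphere (0 : E n) 1).exists_bound_of_continuousOn hw
  have hsph : ∀ g, A.ρ g e ∈ S := by
    intro g
    rw [hS, mem_sphere_zero_iff_norm, LinearIsometryEquiv.norm_map, he]
  have hCS : ∀ a b : E n, ‖a‖ = 1 → ‖b‖ = 1 → inner ℝ a b = 0 → ∀ t : ℝ,
      Real.cos t • a + Real.sin t • b ∈ S := by
    intro a b ha hb hab t
    rw [hS, mem_sphere_zero_iff_norm]
    exact X_norm a b ha hb hab t
  have hres := poinc_meas hPA hCI n A hn F₁ w₁ hFm hwm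
    (hF.congr fun x hx => hFe x hx) (hw.congr fun x hx => hwe x hx)
    (fun x hx => by rw [hwe x hx]; exact hw0 x hx)
    (fun x hx => by rw [hFe x hx]; exact hFs x hx)
    (fun x => by
      by_cases hx : x ∈ S
      · rw [hFe x hx, hFs x hx]
      · rw [hF₁, Set.piecewise_eq_of_notMem _ _ _ hx, norm_zero]
        exact zero_le_one)
    (max C 0)
    (fun x => by
      by_cases hx : x ∈ S
      · rw [hwe x hx, ← Real.norm_eq_abs]
        exact (hC x hx).trans (le_max_left _ _)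
      · rw [hw₁, Set.piecewise_eq_of_notMem _ _ _ hx, abs_zero]
        exact le_max_right _ _)
    (fun a b ha hb hab σ τ hστ => by
      rw [hFe _ (hCS a b ha hb hab τ), hFe _ (hCS a b ha hb hab σ)]
      refine (hFw a b ha hb hab σ τ hστ).trans (le_of_eq ?_)
      refine intervalIntegral.integral_congr fun t _ => ?_
      exact (hwe _ (hCS a b ha hb hab t)).symm)
    e he
    (by
      rw [← hF0]
      refine integral_congr_ae (Filter.Eventually.of_forall fun g => ?_)
      exact hFe _ (hsph g))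
  refine hres.trans (le_of_eq ?_)
  refine integral_congr_ae (Filter.Eventually.of_forall fun g => ?_)
  change w₁ (A.ρ g e) ^ 2 = w (A.ρ g e) ^ 2
  rw [hwe _ (hsph g)]

end Pool.Agent.MP562567
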