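import Pool.Agent.Lib.MP_562567_gt.RadAux

/-!
# MP_562567_gt: derivatives of the spherical averages
-/

set_option autoImplicit false

namespace Pool.Agent.MP562567

open MeasureTheory Set

open radAux in
theorem rad1 : S_Rad1 := by
  intro n A v U hU hB hv e he r hr
  obtain ⟨δ, hδ, hδU⟩ := exists_delta U hU hB
  have hs : Metric.ball (0 : ℝ) (1 + δ) ∈ nhds r := by
    refine Metric.isOpen_ball.mem_nhds ?_
    rw [mem_ball_zero_iff, Real.norm_eq_abs, abs_of_nonneg hr.1]
    linarith [hr.2]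
  have hc : ∀ t ∈ Metric.ball (0 : ℝ) (1 + δ), HasDerivAt (fun t : ℝ => t • e) e t := by
    intro t _
    have h := (hasDerivAt_id t).smul_const e
    simpa using h
  have hcc : ∀ t ∈ Metric.ball (0 : ℝ) (1 + δ), HasDerivAt (fun _ : ℝ => e) 0 t :=
    fun t _ => hasDerivAt_const t e
  have hcR : ∀ t ∈ Metric.ball (0 : ℝ) (1 + δ), ‖(fun t : ℝ => t • e) t‖ ≤ 1 + δ := by
    intro t ht
    rw [mem_ball_zero_iff] at ht
    simp only [norm_smul, he, mul_one]
    exact ht.le
  have hc' : ∀ t ∈ Metric.ball (0 : ℝ) (1 + δ), ‖(fun _ : ℝ => e) t‖ ≤ 1 := fun _ _ => he.le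
  refine ⟨?_, ?_⟩
  · have h := d1 A v U hU (1 + δ) hδU hv (fun t => t • e) (fun _ => e) r 1 _ hs hc hcR hc'
    simpa only [map_smul] using h
  · have h := d2 A v U hU (1 + δ) hδU hv (fun t => t • e) (fun _ => e) (fun _ => 0) r 1 _ hs hc hcc
      hcR hc' (fun _ _ => by simp)
    simpa only [map_smul, map_zero, add_zero] using h

end Pool.Agent.MP562567
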