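import Pool.Agent.Lib.MP_562567_gt.RadAux

/-!
# MP_562567_gt: the radial part of the Laplacian of the average
-/

set_option autoImplicit false

namespace Pool.Agent.MP562567

open MeasureTheory Set

namespace rad2Aux

variable {n : ℕ}

/-- the great circle -/
noncomputable def X (e b : E n) (t : ℝ) : E n := Real.cos t • e + Real.sin t • b

/-- its derivative -/
noncomputable def Y (e b : E n) (t : ℝ) : E n := (-Real.sin t) • e + Real.cos t • b

theorem X_norm (e b : E n) (he : ‖e‖ = 1) (hb : ‖b‖ = 1) (heb : inner ℝ e b = 0) (t : ℝ) :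
    ‖X e b t‖ = 1 := by
  have h4 : ‖X e b t‖ ^ 2 = 1 := by
    unfold X
    rw [norm_add_sq_real, norm_smul, norm_smul, inner_smul_left, inner_smul_right, he, hb, heb]
    simp only [Real.norm_eq_abs, mul_one, sq_abs, mul_zero, add_zero]
    linarith [Real.cos_sq_add_sin_sq t]
  nlinarith [norm_nonneg (X e b t)]

theorem Y_norm (e b : E n) (he : ‖e‖ = 1) (hb : ‖b‖ = 1) (t : ℝ) : ‖Y e b t‖ ≤ 2 := by
  unfold Y
  refine (norm_add_le _ _).trans ?_
  rw [norm_smul, norm_smul, he, hb, Real.norm_eq_abs, Real.norm_eq_abs, abs_neg]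
  linarith [Real.abs_sin_le_one t, Real.abs_cos_le_one t]

theorem X_deriv (e b : E n) (t : ℝ) : HasDerivAt (X e b) (Y e b t) t :=
  ((Real.hasDerivAt_cos t).smul_const e).add ((Real.hasDerivAt_sin t).smul_const b)

theorem Y_deriv (e b : E n) (t : ℝ) : HasDerivAt (Y e b) (-X e b t) t := by
  have h := ((Real.hasDerivAt_sin t).neg.smul_const e).add ((Real.hasDerivAt_cos t).smul_const b)
  refine h.congr_deriv ?_
  unfold X
  module

open radAux in
theorem cross (A : Avg n) (v : E n → ℝ) (U : Set (E n)) (hU : IsOpen U)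
    (hB : Metric.closedBall 0 1 ⊆ U) (hv : ContDiffOn ℝ 2 v U) (e b : E n) (he : ‖e‖ = 1)
    (hb : ‖b‖ = 1) (heb : inner ℝ e b = 0) (r : ℝ) (hr : r ∈ Icc (0 : ℝ) 1) :
    r ^ 2 * ∫ g, fderiv ℝ (fderiv ℝ v) (A.ρ g (r • e)) (A.ρ g b) (A.ρ g b) ∂A.μ =
      r * ∫ g, fderiv ℝ v (A.ρ g (r • e)) (A.ρ g e) ∂A.μ := by
  have hrn : ‖r‖ = r := by rw [Real.norm_eq_abs, abs_of_nonneg hr.1]
  have hc : ∀ t ∈ (univ : Set ℝ), HasDerivAt (fun t => r • X e b t) (r • Y e b t) t :=
    fun t _ => (X_deriv e b t).const_smul r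
  have hcc : ∀ t ∈ (univ : Set ℝ), HasDerivAt (fun t => r • Y e b t) (r • (-X e b t)) t :=
    fun t _ => (Y_deriv e b t).const_smul r
  have hcR : ∀ t ∈ (univ : Set ℝ), ‖(fun t => r • X e b t) t‖ ≤ 1 := by
    intro t _
    simp only
    rw [norm_smul, X_norm e b he hb heb, mul_one, hrn]
    exact hr.2
  have hc' : ∀ t ∈ (univ : Set ℝ), ‖(fun t => r • Y e b t) t‖ ≤ 2 := by
    intro t _
    simp only
    rw [norm_smul, hrn]
    have h1 := Y_norm e b he hb t
    have h2 := hr.2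
    have h3 := hr.1
    nlinarith [norm_nonneg (Y e b t)]
  have hc'' : ∀ t ∈ (univ : Set ℝ), ‖(fun t => r • (-X e b t)) t‖ ≤ 2 := by
    intro t _
    simp only
    rw [norm_smul, norm_neg, X_norm e b he hb heb, mul_one, hrn]
    linarith [hr.2]
  have hconst : ∀ t, ∫ g, v (A.ρ g (r • X e b t)) ∂A.μ = ∫ g, v (A.ρ g (r • e)) ∂A.μ := by
    intro t
    obtain ⟨k, hk⟩ := exists_rho A (y := e) (y' := X e b t) (by rw [he, X_norm e b he hb heb])
    have hi := (int0 A v 1 (hv.continuousOn.mono hB) (r • e)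
      (by rw [norm_smul, he, mul_one, hrn]; exact hr.2)).aestronglyMeasurable
    have h1 := rinv A k (fun g => v (A.ρ g (r • e))) hi
    simp only [rho_mul, map_smul, hk] at h1
    simp only [map_smul]
    exact h1
  have hJ1 : ∀ t, ∫ g, fderiv ℝ v (A.ρ g (r • X e b t)) (A.ρ g (r • Y e b t)) ∂A.μ = 0 := by
    intro t
    have h1 := d1 A v U hU 1 hB hv (fun t => r • X e b t) (fun t => r • Y e b t) t 2 univ
      Filter.univ_mem hc hcR hc'
    have h2 : (fun t => ∫ g, v (A.ρ g (r • X e b t)) ∂A.μ) =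
        fun _ => ∫ g, v (A.ρ g (r • e)) ∂A.μ := funext hconst
    rw [h2] at h1
    exact h1.unique (hasDerivAt_const t _)
  have h3 := d2 A v U hU 1 hB hv (fun t => r • X e b t) (fun t => r • Y e b t)
    (fun t => r • (-X e b t)) 0 2 univ Filter.univ_mem hc hcc hcR hc' hc''
  have h4 : (fun t => ∫ g, fderiv ℝ v (A.ρ g (r • X e b t)) (A.ρ g (r • Y e b t)) ∂A.μ) =
      fun _ => (0 : ℝ) := funext hJ1
  rw [h4] at h3
  have h5 := h3.unique (hasDerivAt_const (0 : ℝ) (0 : ℝ))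
  have hX0 : X e b 0 = e := by simp [X]
  have hY0 : Y e b 0 = b := by simp [Y]
  rw [hX0, hY0] at h5
  have hre : ‖r • e‖ ≤ 1 := by rw [norm_smul, he, mul_one, hrn]; exact hr.2
  have hi2 := int2 A v U hU 1 hB hv (r • e) b hre
  have hi1 := int1 A v U hU 1 hB hv (r • e) e hre
  have h6 : ∀ g, fderiv ℝ (fderiv ℝ v) (A.ρ g (r • e)) (A.ρ g (r • b)) (A.ρ g (r • b)) +
      fderiv ℝ v (A.ρ g (r • e)) (A.ρ g (r • (-e))) =
      r ^ 2 * fderiv ℝ (fderiv ℝ v) (A.ρ g (r • e)) (A.ρ g b) (A.ρ g b) -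
        r * fderiv ℝ v (A.ρ g (r • e)) (A.ρ g e) := by
    intro g
    simp only [map_smul, map_neg, smul_neg, ContinuousLinearMap.smul_apply, smul_eq_mul]
    ring
  simp only [h6] at h5
  rw [integral_sub (hi2.const_mul _) (hi1.const_mul _), integral_const_mul,
    integral_const_mul] at h5
  linarith

end rad2Aux

open radAux rad2Aux in
theorem rad2 : S_Rad2 := by
  intro hLB n A v U hU hB hv e he r hr
  have hn : 0 < n := by
    rcases Nat.eq_zero_or_pos n with h | h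
    · subst h
      have h1 : e = 0 := Subsingleton.elim _ _
      rw [h1, norm_zero] at he
      exact absurd he zero_ne_one
    · exact h
  let i₀ : Fin n := ⟨0, hn⟩
  have hrn : ‖r‖ = r := by rw [Real.norm_eq_abs, abs_of_nonneg hr.1]
  have hre : ‖r • e‖ ≤ 1 := by rw [norm_smul, he, mul_one, hrn]; exact hr.2
  set k : E n ≃ₗᵢ[ℝ] E n := Submodule.reflection (Submodule.span ℝ {(bv i₀ : E n) - e})ᗮ with hk
  have hbv : ∀ i : Fin n, ‖(bv i : E n)‖ = 1 := fun i => by simp [bv]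
  have hke : k (bv i₀) = e := Submodule.reflection_sub ((hbv i₀).trans he.symm)
  have horth : ∀ i, i ≠ i₀ → inner ℝ e (k (bv i)) = 0 := by
    intro i hi
    rw [← hke, LinearIsometryEquiv.inner_map_map]
    simp [bv, EuclideanSpace.inner_single_left, hi.symm]
  have hlap : ∀ g, lap v (A.ρ g (r • e)) =
      ∑ i, fderiv ℝ (fderiv ℝ v) (A.ρ g (r • e)) (A.ρ g (k (bv i))) (A.ρ g (k (bv i))) := by
    intro g
    have h1 := hLB n v (A.ρ g (r • e))
      (hv.contDiffAt (hU.mem_nhds (hB (mem_ball A hre g))))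
      (((EuclideanSpace.basisFun (Fin n) ℝ).map k).map (A.ρ g))
    rw [h1]
    refine Finset.sum_congr rfl fun i _ => ?_
    simp only [OrthonormalBasis.map_apply, EuclideanSpace.basisFun_apply]
    rfl
  rcases eq_or_lt_of_le hr.1 with hr0 | hr0
  · rw [← hr0]
    simp only [zero_smul, zero_mul, zero_add]
    have h1 : ∫ g, fderiv ℝ v 0 (A.ρ g e) ∂A.μ = 0 := by
      obtain ⟨k', hk'⟩ := exists_rho A (y := e) (y' := -e) (by rw [norm_neg])
      have hi := int1 A v U hU 1 hB hv 0 e (by rw [norm_zero]; exact zero_le_one)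
      simp only [map_zero] at hi
      have h3 := rinv A k' (fun g => fderiv ℝ v 0 (A.ρ g e)) hi.aestronglyMeasurable
      simp only [rho_mul, hk', map_neg] at h3
      rw [integral_neg] at h3
      linarith
    rw [h1, mul_zero]
  · have hsum : r ^ 2 * ∫ g, lap v (A.ρ g (r • e)) ∂A.μ =
        r ^ 2 * ∫ g, fderiv ℝ (fderiv ℝ v) (A.ρ g (r • e)) (A.ρ g e) (A.ρ g e) ∂A.μ +
        ((n : ℝ) - 1) * (r * ∫ g, fderiv ℝ v (A.ρ g (r • e)) (A.ρ g e) ∂A.μ) := by
      simp only [hlap]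
      rw [integral_finset_sum _ fun i _ => int2 A v U hU 1 hB hv (r • e) (k (bv i)) hre,
        ← Finset.add_sum_erase _ _ (Finset.mem_univ i₀), hke, mul_add, Finset.mul_sum]
      congr 1
      rw [Finset.sum_congr rfl (g := fun _ =>
        r * ∫ g, fderiv ℝ v (A.ρ g (r • e)) (A.ρ g e) ∂A.μ)
        (fun i hi => cross A v U hU hB hv e (k (bv i)) he
          (by rw [LinearIsometryEquiv.norm_map, hbv]) (horth i (Finset.ne_of_mem_erase hi)) r hr)]
      rw [Finset.sum_const, Finset.card_erase_of_mem (Finset.mem_univ _), Finset.card_univ,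
        Fintype.card_fin, nsmul_eq_mul, Nat.cast_sub hn]
      simp
    simp only [map_smul] at hsum
    have h2 : r * (r * ∫ g, lap v (r • A.ρ g e) ∂A.μ) =
        r * (r * ∫ g, fderiv ℝ (fderiv ℝ v) (r • A.ρ g e) (A.ρ g e) (A.ρ g e) ∂A.μ +
        ((n : ℝ) - 1) * ∫ g, fderiv ℝ v (r • A.ρ g e) (A.ρ g e) ∂A.μ) := by
      linarith
    exact (mul_left_cancel₀ hr0.ne' h2).symm

end Pool.Agent.MP562567
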