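import Pool.Agent.Lib.MP_562567_gt.Spec

/-!
# MP_562567_gt, SC: the scalar curvature of a conformal metric
-/

set_option autoImplicit false

namespace Pool.Agent.MP562567

namespace scAux

variable {n : ℕ}

theorem inv_conf (s : E n → ℝ) (x : E n) (i j : Fin n) :
    (conf s x)⁻¹ i j = if i = j then Real.exp (-2 * s x) else 0 := by
  have h : (conf s x)⁻¹ = Matrix.diagonal fun _ => Real.exp (-2 * s x) := by
    apply Matrix.inv_eq_right_inv
    unfold conf
    rw [Matrix.diagonal_mul_diagonal]
    have h1 : (fun _ : Fin n => Real.exp (2 * s x) * Real.exp (-2 * s x)) = fun _ => 1 := by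
      funext _
      rw [← Real.exp_add]
      rw [show 2 * s x + -2 * s x = 0 by ring, Real.exp_zero]
    rw [h1, Matrix.diagonal_one]
  rw [h, Matrix.diagonal_apply]

theorem pd_exp (s : E n → ℝ) (x : E n) (hs : DifferentiableAt ℝ s x) (i : Fin n) :
    pd i (fun y => Real.exp (2 * s y)) x = Real.exp (2 * s x) * (2 * pd i s x) := by
  unfold pd
  have h := ((hs.hasFDerivAt.const_mul 2).exp).fderiv
  rw [h]
  simp

theorem pd_conf (s : E n → ℝ) (x : E n) (hs : DifferentiableAt ℝ s x) (i j l : Fin n) :
    pd i (fun y => conf s y j l) x = if j = l then Real.exp (2 * s x) * (2 * pd i s x) else 0 := by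
  by_cases h : j = l
  · have h1 : (fun y => conf s y j l) = fun y => Real.exp (2 * s y) := by
      funext y
      unfold conf
      rw [Matrix.diagonal_apply, if_pos h]
    rw [h1, pd_exp s x hs, if_pos h]
  · have h1 : (fun y => conf s y j l) = fun _ => 0 := by
      funext y
      unfold conf
      rw [Matrix.diagonal_apply, if_neg h]
    rw [h1, if_neg h]
    unfold pd
    simp

theorem chr_conf (s : E n → ℝ) (hs : Differentiable ℝ s) (k i j : Fin n) (x : E n) :
    Chr (conf s) k i j x = (if j = k then pd i s x else 0) + (if i = k then pd j s x else 0) -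
      (if i = j then pd k s x else 0) := by
  unfold Chr
  simp only [inv_conf, pd_conf s x (hs x)]
  rw [Finset.sum_eq_single k]
  · rw [if_pos rfl]
    have h1 : Real.exp (-2 * s x) * Real.exp (2 * s x) = 1 := by
      rw [← Real.exp_add, show -2 * s x + 2 * s x = 0 by ring, Real.exp_zero]
    have key : ∀ (P : Prop) [Decidable P] (a : ℝ),
        (if P then Real.exp (2 * s x) * (2 * a) else 0) =
          Real.exp (2 * s x) * (2 * (if P then a else 0)) := by
      intro P _ a
      split_ifs
      · rfl
      · rw [mul_zero, mul_zero]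
    rw [key, key, key]
    linear_combination ((if j = k then pd i s x else 0) + (if i = k then pd j s x else 0) -
      (if i = j then pd k s x else 0)) * h1
  · intro l _ hl
    rw [if_neg (Ne.symm hl), zero_mul]
  · intro h
    exact absurd (Finset.mem_univ k) h

theorem chr_ii (s : E n → ℝ) (hs : Differentiable ℝ s) (k i : Fin n) :
    Chr (conf s) k i i = if k = i then pd i s else fun x => - pd k s x := by
  funext x
  rw [chr_conf s hs]
  by_cases h : k = i
  · subst h
    simp
  · rw [if_neg h, if_neg (Ne.symm h), if_pos rfl]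
    ring

theorem chr_ik (s : E n → ℝ) (hs : Differentiable ℝ s) (k i : Fin n) :
    Chr (conf s) k i k = pd i s := by
  funext x
  rw [chr_conf s hs]
  rw [if_pos rfl]
  ring

theorem chr_kl (s : E n → ℝ) (hs : Differentiable ℝ s) (k l : Fin n) :
    Chr (conf s) k k l = pd l s := by
  funext x
  rw [chr_conf s hs]
  by_cases h : l = k
  · subst h
    simp
  · rw [if_neg h, if_pos rfl, if_neg (Ne.symm h)]
    ring

theorem pd_neg (F : E n → ℝ) (k : Fin n) (x : E n) : pd k (fun y => - F y) x = - pd k F x := by
  unfold pd
  rw [fderiv_fun_neg]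
  rfl

theorem ric_ii (s : E n → ℝ) (hs : Differentiable ℝ s) (i : Fin n) (x : E n) :
    Ric (conf s) i i x = (2 - (n : ℝ)) * pd i (pd i s) x - lap s x +
      ((n : ℝ) - 2) * pd i s x ^ 2 - ((n : ℝ) - 2) * ∑ k, pd k s x ^ 2 := by
  unfold Ric
  have e1 : ∑ k, (pd k (Chr (conf s) k i i) x - pd i (Chr (conf s) k i k) x) =
      2 * pd i (pd i s) x - lap s x - n * pd i (pd i s) x := by
    have h1 : ∀ k, pd k (Chr (conf s) k i i) x - pd i (Chr (conf s) k i k) x =
        ((if k = i then 2 * pd i (pd i s) x else 0) - pd k (pd k s) x) - pd i (pd i s) x := by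
      intro k
      rw [chr_ii s hs, chr_ik s hs]
      by_cases h : k = i
      · subst h
        rw [if_pos rfl, if_pos rfl]
        ring
      · rw [if_neg h, if_neg h, pd_neg]
        ring
    simp_rw [h1]
    rw [Finset.sum_sub_distrib, Finset.sum_sub_distrib, Finset.sum_ite_eq', if_pos (Finset.mem_univ i),
      Finset.sum_const, Finset.card_univ, Fintype.card_fin, nsmul_eq_mul]
    rfl
  have e2 : ∑ k, ∑ l, (Chr (conf s) k k l x * Chr (conf s) l i i x -
      Chr (conf s) k i l x * Chr (conf s) l i k x) =
      n * (2 * pd i s x ^ 2 - ∑ k, pd k s x ^ 2) -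
        ((n + 2) * pd i s x ^ 2 - 2 * ∑ k, pd k s x ^ 2) := by
    have h1 : ∀ k l, Chr (conf s) k k l x * Chr (conf s) l i i x -
        Chr (conf s) k i l x * Chr (conf s) l i k x =
        (if l = i then 2 * pd i s x ^ 2 else 0) - pd l s x ^ 2 -
          ((if l = k then pd i s x ^ 2 else 0) - (if i = k then pd l s x ^ 2 else 0) -
            (if i = l then pd k s x ^ 2 else 0) +
            2 * (if i = k then (if l = i then pd i s x ^ 2 else 0) else 0)) := by
      intro k l
      rw [chr_kl s hs, chr_ii s hs, chr_conf s hs, chr_conf s hs]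
      by_cases h1 : l = i
      · subst h1
        by_cases h2 : l = k
        · subst h2
          simp
          ring
        · simp [h2, Ne.symm h2]
          ring
      · by_cases h2 : i = k
        · subst h2
          simp [h1, Ne.symm h1]
        · by_cases h3 : l = k
          · subst h3
            simp [h1, Ne.symm h1]
            ring
          · simp [h1, h2, h3, Ne.symm h1, Ne.symm h3]
            ring
    simp_rw [h1]
    simp only [Finset.sum_sub_distrib, Finset.sum_add_distrib, Finset.sum_ite_eq, Finset.sum_ite_eq',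
      Finset.mem_univ, if_true, Finset.sum_const, Finset.card_univ, Fintype.card_fin, nsmul_eq_mul,
      ← Finset.mul_sum]
    have g1 : ∑ x_1 : Fin n, ∑ x_2 : Fin n, (if i = x_1 then pd x_2 s x ^ 2 else 0) =
        ∑ k, pd k s x ^ 2 := by
      rw [Finset.sum_eq_single i]
      · simp
      · intro b _ hb
        simp [Ne.symm hb]
      · intro h
        exact absurd (Finset.mem_univ i) h
    have g2 : ∑ x_1 : Fin n, ∑ x_2 : Fin n,
        (if i = x_1 then (if x_2 = i then pd i s x ^ 2 else 0) else 0) = pd i s x ^ 2 := by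
      rw [Finset.sum_eq_single i]
      · simp
      · intro b _ hb
        simp [Ne.symm hb]
      · intro h
        exact absurd (Finset.mem_univ i) h
    rw [g1, g2]
    ring
  rw [e1, e2]
  ring

end scAux

open scAux in
/-- **SC.** -/
theorem sc : S_Sc := by
  intro n s x hs
  have hd : Differentiable ℝ s := hs.differentiable (by simp)
  unfold scal
  have h1 : ∀ i, ∑ j, (conf s x)⁻¹ i j * Ric (conf s) i j x =
      Real.exp (-2 * s x) * Ric (conf s) i i x := by
    intro i
    rw [Finset.sum_eq_single i]
    · rw [inv_conf, if_pos rfl]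
    · intro j _ hj
      rw [inv_conf, if_neg (Ne.symm hj), zero_mul]
    · intro h
      exact absurd (Finset.mem_univ i) h
  simp_rw [h1, ric_ii s hd]
  rw [← Finset.mul_sum]
  rw [Finset.sum_sub_distrib, Finset.sum_add_distrib, Finset.sum_sub_distrib, ← Finset.mul_sum,
    ← Finset.mul_sum, Finset.sum_const, Finset.sum_const, Finset.card_univ, Fintype.card_fin,
    nsmul_eq_mul, nsmul_eq_mul]
  have h2 : ∑ i, pd i (pd i s) x = lap s x := rfl
  rw [h2]
  ring

end Pool.Agent.MP562567
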