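import Pool.Agent.Lib.MP_562567_gt.Spec

/-!
# MP_562567_gt, TR: the hypotheses are conformally invariant
-/

set_option autoImplicit false

namespace Pool.Agent.MP562567

namespace TrAux

variable {n : ℕ}

theorem two_le : (2 : WithTop ℕ∞) ≤ ((⊤ : ℕ∞) : WithTop ℕ∞) :=
  WithTop.coe_le_coe.mpr (le_top : (2 : ℕ∞) ≤ ⊤)

theorem contDiff_den (a : E n) : ContDiff ℝ (↑(⊤ : ℕ∞)) (den a) := by
  have hi : ContDiff ℝ (↑(⊤ : ℕ∞)) (fun y : E n => (inner ℝ a y : ℝ)) :=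
    contDiff_const.inner ℝ contDiff_id
  have hs : ContDiff ℝ (↑(⊤ : ℕ∞)) (fun y : E n => ‖y‖ ^ 2) := contDiff_norm_sq ℝ
  exact (contDiff_const.add (contDiff_const.mul hi)).add (contDiff_const.mul hs)

theorem lam_pos {a x : E n} (ha : ‖a‖ < 1) (h : 0 < den a x) : 0 < lam a x := by
  unfold lam
  have : 0 < 1 - ‖a‖ ^ 2 := by nlinarith [norm_nonneg a]
  exact div_pos this h

theorem contDiffAt_lam {a x : E n} (h : 0 < den a x) : ContDiffAt ℝ (↑(⊤ : ℕ∞)) (lam a) x := by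
  unfold lam
  exact contDiffAt_const.div (contDiff_den a).contDiffAt h.ne'

theorem pp_pos (hn : 3 ≤ n) : 0 < pp n := by
  unfold pp
  have : (3 : ℝ) ≤ n := by exact_mod_cast hn
  linarith

theorem contDiffAt_tr (hM2 : S_Mob2) {a x : E n} (ha : ‖a‖ < 1) (h : 0 < den a x) {u : E n → ℝ}
    (hu : ContDiffAt ℝ 2 u (mob a x)) : ContDiffAt ℝ 2 (tr a u) x := by
  have h1 : ContDiffAt ℝ 2 (lam a) x := (contDiffAt_lam h).of_le two_le
  have h2 : ContDiffAt ℝ 2 (mob a) x := (hM2 n a x ha h).1.of_le two_le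
  exact (h1.rpow_const_of_ne (lam_pos ha h).ne').mul (hu.comp x h2)

theorem rpow_aux {l u p : ℝ} (q : ℝ) (hp : 0 < p) (hl : 0 < l) (hu : 0 < u) :
    (l ^ p * u) ^ (1 + q / p) = l ^ (p + q) * u ^ (1 + q / p) := by
  rw [Real.mul_rpow (Real.rpow_nonneg hl.le _) hu.le, ← Real.rpow_mul hl.le]
  congr 2
  field_simp

end TrAux

open TrAux in
theorem trr : S_Tr := by
  intro hLB hM1 hM2 hM3 hCov hCovB n a u hn ha hu
  have hp := pp_pos hn
  obtain ⟨U, hUo, hUsub, hUC⟩ := hu.smooth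
  have hball : ∀ x ∈ Metric.closedBall (0 : E n) 1, 0 < den a x ∧ 0 < lam a x ∧
      mob a x ∈ Metric.closedBall (0 : E n) 1 := by
    intro x hx
    rw [mem_closedBall_zero_iff] at hx
    obtain ⟨h1, h2, h3⟩ := (hM1 n a x).1 ha hx
    exact ⟨h1, h2, mem_closedBall_zero_iff.mpr h3⟩
  have huAt : ∀ y ∈ U, ContDiffAt ℝ 2 u y := fun y hy => hUC.contDiffAt (hUo.mem_nhds hy)
  refine ⟨⟨?_, ?_, ?_⟩, ?_⟩
  · refine ⟨{x | 0 < den a x} ∩ (mob a) ⁻¹' U, ?_, ?_, ?_⟩
    · have hO : IsOpen {x : E n | 0 < den a x} :=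
        isOpen_lt continuous_const (contDiff_den a).continuous
      have hc : ContinuousOn (mob a) {x : E n | 0 < den a x} := fun x hx =>
        ((hM2 n a x ha hx).1.continuousAt).continuousWithinAt
      exact hc.isOpen_inter_preimage hO hUo
    · intro x hx
      obtain ⟨h1, -, h3⟩ := hball x hx
      exact ⟨h1, hUsub h3⟩
    · intro x hx
      exact (contDiffAt_tr hM2 ha hx.1 (huAt _ hx.2)).contDiffWithinAt
  · intro x hx
    obtain ⟨h1, h2, h3⟩ := hball x hx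
    exact mul_pos (Real.rpow_pos_of_pos h2 _) (hu.pos _ h3)
  · intro x hx
    obtain ⟨h1, h2, h3⟩ := hball x hx
    rw [hCov hLB hM2 hM3 n a x u ha h1 (huAt _ (hUsub h3))]
    unfold tr
    rw [rpow_aux 2 hp h2 (hu.pos _ h3)]
    have h4 := hu.ineq _ h3
    have h5 : 0 < lam a x ^ (pp n + 2) := Real.rpow_pos_of_pos h2 _
    have h6 := mul_le_mul_of_nonneg_left h4 h5.le
    nlinarith [h6]
  · intro κ hB x hx
    have hx1 : ‖x‖ = 1 := mem_sphere_zero_iff_norm.mp hx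
    obtain ⟨h1, h2, h3⟩ := hball x (Metric.sphere_subset_closedBall hx)
    have hne : x ≠ -a := by
      intro h
      rw [h, norm_neg] at hx1
      exact absurd hx1 ha.ne
    have h4 := ((hM1 n a x).2.1 ha.le hx1 hne).2
    have h5 := hB (mob a x) (mem_sphere_zero_iff_norm.mpr h4)
    rw [hCovB hM1 hM2 n a x u ha hx1 ((huAt _ (hUsub h3)).differentiableAt (by norm_num))]
    unfold tr
    rw [rpow_aux 1 hp h2 (hu.pos _ h3)]
    have h6 : 0 < lam a x ^ (pp n + 1) := Real.rpow_pos_of_pos h2 _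
    have h7 := mul_le_mul_of_nonneg_left h5 h6.le
    nlinarith [h7]

end Pool.Agent.MP562567
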