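import Pool.Agent.Lib.MP_562567_gt.Spec

/-!
# MP_562567_gt, US: translation of the curvature bounds
-/

set_option autoImplicit false

namespace Pool.Agent.MP562567

namespace usAux

variable {n : ℕ}

theorem pd_exp (s : E n → ℝ) (p : ℝ) (x : E n) (hs : DifferentiableAt ℝ s x) (i : Fin n) :
    pd i (fun y => Real.exp (p * s y)) x = Real.exp (p * s x) * (p * pd i s x) := by
  unfold pd
  have h := ((hs.hasFDerivAt.const_mul p).exp).fderiv
  rw [h]
  simp

theorem diff_pd (s : E n → ℝ) (hs : ContDiff ℝ (↑(⊤ : ℕ∞)) s) (i : Fin n) (x : E n) :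
    DifferentiableAt ℝ (pd i s) x := by
  have h2 : ContDiff ℝ 2 s := contDiff_infty.1 hs 2
  have h1 : ContDiff ℝ 1 (fderiv ℝ s) := h2.fderiv_right (by norm_num)
  have h2 : DifferentiableAt ℝ (fderiv ℝ s) x := (h1.differentiable (by norm_num)) x
  exact h2.clm_apply (differentiableAt_const _)

theorem lap_exp (s : E n → ℝ) (p : ℝ) (hs : ContDiff ℝ (↑(⊤ : ℕ∞)) s) (x : E n) :
    lap (fun y => Real.exp (p * s y)) x =
      Real.exp (p * s x) * (p * lap s x + p ^ 2 * ∑ i, pd i s x ^ 2) := by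
  have hd : Differentiable ℝ s := hs.differentiable (by simp)
  unfold lap
  have h1 : ∀ i, pd i (pd i (fun y => Real.exp (p * s y))) x =
      Real.exp (p * s x) * (p * pd i (pd i s) x + p ^ 2 * pd i s x ^ 2) := by
    intro i
    have h2 : pd i (fun y => Real.exp (p * s y)) =
        fun y => Real.exp (p * s y) * (p * pd i s y) := by
      funext y
      exact pd_exp s p y (hd y) i
    rw [h2]
    have g1 : HasFDerivAt (fun y => Real.exp (p * s y))
        (Real.exp (p * s x) • (p • fderiv ℝ s x)) x :=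
      ((hd x).hasFDerivAt.const_mul p).exp
    have g2 := (diff_pd s hs i x).hasFDerivAt.const_mul p
    have g3 := g1.fun_mul g2
    have g4 : pd i (fun y => Real.exp (p * s y) * (p * pd i s y)) x =
        (fderiv ℝ (fun y => Real.exp (p * s y) * (p * pd i s y)) x) (bv i) := rfl
    rw [g4, g3.fderiv]
    simp only [add_apply, smul_apply, smul_eq_mul]
    have g5 : (fderiv ℝ (pd i s) x) (bv i) = pd i (pd i s) x := rfl
    have g6 : (fderiv ℝ s x) (bv i) = pd i s x := rfl
    rw [g5, g6]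
    ring
  simp_rw [h1]
  rw [← Finset.mul_sum, Finset.sum_add_distrib, Finset.mul_sum, Finset.mul_sum]

theorem rpow_exp (p a : ℝ) (k : ℝ) (hp : 0 < p) :
    Real.exp (p * a) ^ (1 + k / p) = Real.exp (p * a) * Real.exp (k * a) := by
  rw [← Real.exp_mul, ← Real.exp_add]
  congr 1
  field_simp

end usAux

open usAux in
/-- **US.** -/
theorem us : S_US := by
  intro hSc hH n s hn hs hx
  have hn3 : (3 : ℝ) ≤ n := by exact_mod_cast hn
  have hp : 0 < pp n := by unfold pp; linarith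
  have hpn : (n : ℝ) = 2 * pp n + 2 := by unfold pp; ring
  obtain ⟨p, hpp⟩ : ∃ p : ℝ, p = pp n := ⟨_, rfl⟩
  rw [← hpp] at hp hpn ⊢
  refine ⟨⟨?_, ?_, ?_⟩, ?_⟩
  · refine ⟨Set.univ, isOpen_univ, Set.subset_univ _, ContDiff.contDiffOn ?_⟩
    have h1 : ContDiff ℝ 2 s := contDiff_infty.1 hs 2
    exact (contDiff_const.mul h1).exp
  · intro x _
    exact Real.exp_pos _
  · intro x hxb
    rw [← hpp]
    rw [lap_exp s p hs, rpow_exp p (s x) 2 hp]
    have h1 := hx x hxb
    rw [hSc n s x hs] at h1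
    obtain ⟨G, hG⟩ : ∃ G : ℝ, G = ∑ i, pd i s x ^ 2 := ⟨_, rfl⟩
    obtain ⟨L, hL⟩ : ∃ L : ℝ, L = lap s x := ⟨_, rfl⟩
    rw [← hG, ← hL] at h1
    rw [← hG, ← hL]
    have h2 : Real.exp (2 * s x) * Real.exp (-2 * s x) = 1 := by
      rw [← Real.exp_add, show 2 * s x + -2 * s x = 0 by ring, Real.exp_zero]
    obtain ⟨e2, he2⟩ : ∃ e2 : ℝ, e2 = Real.exp (2 * s x) := ⟨_, rfl⟩
    obtain ⟨em, hem⟩ : ∃ em : ℝ, em = Real.exp (-2 * s x) := ⟨_, rfl⟩
    obtain ⟨ep, hep⟩ : ∃ ep : ℝ, ep = Real.exp (p * s x) := ⟨_, rfl⟩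
    have he2p : 0 < e2 := by rw [he2]; exact Real.exp_pos _
    have hepp : 0 < ep := by rw [hep]; exact Real.exp_pos _
    rw [← he2, ← hem] at h2
    rw [← hem, hpn] at h1
    rw [← he2, ← hep]
    have h3 : e2 * ((2 * p + 2) * (2 * p + 2 - 1)) ≤
        - (2 * (2 * p + 2 - 1) * L + (2 * p + 2 - 1) * (2 * p + 2 - 2) * G) := by
      have := mul_le_mul_of_nonneg_left h1 he2p.le
      calc e2 * ((2 * p + 2) * (2 * p + 2 - 1)) ≤ _ := this
        _ = - (e2 * em) * (2 * (2 * p + 2 - 1) * L + (2 * p + 2 - 1) * (2 * p + 2 - 2) * G) := by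
          ring
        _ = _ := by rw [h2]; ring
    have h4 : e2 * (p + 1) ≤ - (L + p * G) := by
      have h5 : 0 < 2 * (2 * p + 1) := by linarith
      have h6 : (2 * (2 * p + 1)) * (e2 * (p + 1)) ≤ (2 * (2 * p + 1)) * (- (L + p * G)) := by
        linarith
      exact le_of_mul_le_mul_left h6 h5
    have h7 := mul_le_mul_of_nonneg_left h4 (mul_pos hp hepp).le
    linarith
  · intro h hh x hxs
    have hx1 : ‖x‖ = 1 := by
      rw [mem_sphere_zero_iff_norm] at hxs
      exact hxs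
    have h1 := hh x hxs
    rw [hH n s x hs hx1] at h1
    have hd : DifferentiableAt ℝ s x := (hs.differentiable (by simp)) x
    have g1 : HasFDerivAt (fun y => Real.exp (p * s y))
        (Real.exp (p * s x) • (p • fderiv ℝ s x)) x :=
      (hd.hasFDerivAt.const_mul p).exp
    rw [g1.fderiv, ← hpp, rpow_exp p (s x) 1 hp, one_mul]
    simp only [smul_apply, smul_eq_mul]
    obtain ⟨d, hdd⟩ : ∃ d : ℝ, d = fderiv ℝ s x x := ⟨_, rfl⟩
    rw [← hdd] at h1 ⊢
    have h2 : Real.exp (s x) * Real.exp (- s x) = 1 := by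
      rw [← Real.exp_add, show s x + - s x = 0 by ring, Real.exp_zero]
    have h3 := mul_le_mul_of_nonneg_left h1 (Real.exp_pos (s x)).le
    have h4 : Real.exp (s x) * h ≤ ((n : ℝ) - 1) * (1 + d) := by
      calc Real.exp (s x) * h ≤ _ := h3
        _ = (Real.exp (s x) * Real.exp (- s x)) * (((n : ℝ) - 1) * (1 + d)) := by ring
        _ = _ := by rw [h2, one_mul]
    have hn1 : 0 < (n : ℝ) - 1 := by linarith
    have h5 : Real.exp (s x) * (h / ((n : ℝ) - 1)) ≤ 1 + d := by
      rw [← mul_div_assoc, div_le_iff₀ hn1]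
      linarith
    have h6 := mul_le_mul_of_nonneg_left h5 (mul_pos hp (Real.exp_pos (p * s x))).le
    calc p * (h / ((n : ℝ) - 1)) * (Real.exp (p * s x) * Real.exp (s x)) =
        p * Real.exp (p * s x) * (Real.exp (s x) * (h / ((n : ℝ) - 1))) := by ring
      _ ≤ p * Real.exp (p * s x) * (1 + d) := h6
      _ = _ := by ring

end Pool.Agent.MP562567
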