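import Pool.Agent.Lib.MP_562567_gt.Avg
import Pool.Agent.Lib.MP_562567_gt.Atom
import Pool.Agent.Lib.MP_562567_gt.Pars
import Pool.Agent.Lib.MP_562567_gt.Circ
import Pool.Agent.Lib.MP_562567_gt.Poinc
import Pool.Agent.Lib.MP_562567_gt.Ode
import Pool.Agent.Lib.MP_562567_gt.LapB
import Pool.Agent.Lib.MP_562567_gt.Rad1
import Pool.Agent.Lib.MP_562567_gt.Rad2
import Pool.Agent.Lib.MP_562567_gt.Mean
import Pool.Agent.Lib.MP_562567_gt.Mob1
import Pool.Agent.Lib.MP_562567_gt.Mob2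
import Pool.Agent.Lib.MP_562567_gt.Mob3
import Pool.Agent.Lib.MP_562567_gt.Cov
import Pool.Agent.Lib.MP_562567_gt.CovB
import Pool.Agent.Lib.MP_562567_gt.Tr
import Pool.Agent.Lib.MP_562567_gt.Hersch
import Pool.Agent.Lib.MP_562567_gt.IdNot
import Pool.Agent.Lib.MP_562567_gt.Len
import Pool.Agent.Lib.MP_562567_gt.LipPath
import Pool.Agent.Lib.MP_562567_gt.Core
import Pool.Agent.Lib.MP_562567_gt.Ineq
import Pool.Agent.Lib.MP_562567_gt.Sc
import Pool.Agent.Lib.MP_562567_gt.HH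
import Pool.Agent.Lib.MP_562567_gt.US
import Pool.Agent.Lib.MP_562567_gt.Cap
import Pool.Agent.Lib.MP_562567_gt.Ang
import Pool.Agent.Lib.MP_562567_gt.CapRad
import Pool.Agent.Lib.MP_562567_gt.MI
import Pool.Agent.Lib.MP_562567_gt.Final

/-!
# MP_562567_gt: the main theorem
-/

set_option autoImplicit false

namespace Pool.Agent.MP562567

theorem mi : S_MI :=
  miOf avg atom pars circ poinc ode lapB rad1 rad2 mean mob1 mob2 mob3 cov covB trr hersch lenn
    lipPath core ineq sc hh us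

theorem main (n : ℕ) (R : ℝ) (hR : 0 < R)
    (h : 6 ≤ n ∨ (4 ≤ n ∧ R ^ 2 ≤ ((n : ℝ) - 2) / n)) :
    PhiConf n R = if R ≤ 1 then (((((n : ℝ) - 1) * Real.sqrt (1 / R ^ 2 - 1) : ℝ)) : EReal)
      else ⊥ := by
  obtain ⟨h1, h2⟩ := final mi cap capRad idNot lenn ang sc hh n R hR
  rcases h with h | ⟨h4, hR2⟩
  · exact h1 h
  · have h4' : (4 : ℝ) ≤ n := by exact_mod_cast h4
    have hR1 : R ≤ 1 := by
      have : ((n : ℝ) - 2) / n ≤ 1 := by
        rw [div_le_one (by linarith)]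
        linarith
      nlinarith
    rw [if_pos hR1]
    exact h2 h4 hR2

end Pool.Agent.MP562567
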