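import Pool.Agent.Lib.MP_562567_gt.Spec

/-!
# MP_562567_gt, M2: Moebius maps, derivative
-/

set_option autoImplicit false

namespace Pool.Agent.MP562567

namespace Mob2Aux

variable {n : ℕ}

/-- the numerator -/
noncomputable def num (a x : E n) : E n :=
  (1 - ‖a‖ ^ 2) • x + (1 + 2 * inner ℝ a x + ‖x‖ ^ 2) • a

theorem mob_eq (a : E n) : mob a = fun x => (den a x)⁻¹ • num a x := rfl

theorem hasFDerivAt_den (a x : E n) :
    HasFDerivAt (den a) ((2 : ℝ) • innerSL ℝ a + (2 * ‖a‖ ^ 2) • innerSL ℝ x) x := by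
  have h1 : HasFDerivAt (fun x : E n => inner ℝ a x) (innerSL ℝ a) x :=
    (innerSL ℝ a).hasFDerivAt
  have h2 : HasFDerivAt (fun x : E n => ‖x‖ ^ 2) ((2 : ℝ) • innerSL ℝ x) x := by
    refine HasFDerivAt.congr_fderiv (hasStrictFDerivAt_norm_sq x).hasFDerivAt ?_
    ext v
    simp [two_smul]
  have h := (((h1.const_mul 2).const_add 1).add (h2.const_mul (‖a‖ ^ 2)))
  refine HasFDerivAt.congr_fderiv (f := den a) h ?_
  ext v
  simp
  ring

theorem hasFDerivAt_num (a x : E n) :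
    HasFDerivAt (num a) ((1 - ‖a‖ ^ 2) • ContinuousLinearMap.id ℝ (E n) +
      ((2 : ℝ) • innerSL ℝ a + (2 : ℝ) • innerSL ℝ x).smulRight a) x := by
  have h1 : HasFDerivAt (fun x : E n => inner ℝ a x) (innerSL ℝ a) x :=
    (innerSL ℝ a).hasFDerivAt
  have h2 : HasFDerivAt (fun x : E n => ‖x‖ ^ 2) ((2 : ℝ) • innerSL ℝ x) x := by
    refine HasFDerivAt.congr_fderiv (hasStrictFDerivAt_norm_sq x).hasFDerivAt ?_
    ext v
    simp [two_smul]
  have h3 := ((h1.const_mul 2).const_add 1).add h2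
  have h := ((hasFDerivAt_id x).const_smul (1 - ‖a‖ ^ 2)).add (h3.smul_const a)
  exact h

theorem hasFDerivAt_mob (a x : E n) (h : den a x ≠ 0) :
    HasFDerivAt (mob a) ((den a x)⁻¹ • ((1 - ‖a‖ ^ 2) • ContinuousLinearMap.id ℝ (E n) +
      ((2 : ℝ) • innerSL ℝ a + (2 : ℝ) • innerSL ℝ x).smulRight a) +
      (-(den a x ^ 2)⁻¹ • ((2 : ℝ) • innerSL ℝ a + (2 * ‖a‖ ^ 2) • innerSL ℝ x)).smulRight
        (num a x)) x := by
  rw [mob_eq]
  have h1 : HasFDerivAt (fun x => (den a x)⁻¹)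
      (-(den a x ^ 2)⁻¹ • ((2 : ℝ) • innerSL ℝ a + (2 * ‖a‖ ^ 2) • innerSL ℝ x)) x := by
    have := (hasDerivAt_inv h).comp_hasFDerivAt x (hasFDerivAt_den a x)
    exact this
  exact h1.smul (hasFDerivAt_num a x)

theorem contDiffAt_mob (a x : E n) (h : den a x ≠ 0) :
    ContDiffAt ℝ (↑(⊤ : ℕ∞)) (mob a) x := by
  have hi : ContDiff ℝ (↑(⊤ : ℕ∞)) (fun y : E n => (inner ℝ a y : ℝ)) :=
    contDiff_const.inner ℝ contDiff_id
  have hs : ContDiff ℝ (↑(⊤ : ℕ∞)) (fun y : E n => ‖y‖ ^ 2) := contDiff_norm_sq ℝ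
  have h1 : ContDiff ℝ (↑(⊤ : ℕ∞)) (den a) :=
    (contDiff_const.add (contDiff_const.mul hi)).add (contDiff_const.mul hs)
  have h2 : ContDiff ℝ (↑(⊤ : ℕ∞)) (num a) :=
    ((contDiff_id (E := E n)).const_smul (1 - ‖a‖ ^ 2)).add
      (((contDiff_const.add (contDiff_const.mul hi)).add hs).smul contDiff_const)
  rw [mob_eq]
  exact (h1.contDiffAt.inv h).smul h2.contDiffAt

end Mob2Aux

open Mob2Aux in
theorem mob2 : S_Mob2 := by
  intro n a x ha hden
  have hd := hasFDerivAt_mob a x hden.ne'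
  have hform : ∀ v, fderiv ℝ (mob a) x v = (den a x)⁻¹ • ((1 - ‖a‖ ^ 2) • v +
      (2 * inner ℝ a v + 2 * inner ℝ x v) • a) -
    ((den a x)⁻¹ ^ 2 * (2 * inner ℝ a v + 2 * ‖a‖ ^ 2 * inner ℝ x v)) •
      ((1 - ‖a‖ ^ 2) • x + (1 + 2 * inner ℝ a x + ‖x‖ ^ 2) • a) := by
    intro v
    rw [hd.fderiv]
    simp only [add_apply, smul_apply,
      ContinuousLinearMap.smulRight_apply, ContinuousLinearMap.id_apply, innerSL_apply_apply,
      smul_eq_mul]
    have e : ∀ c : ℝ, (-(den a x ^ 2)⁻¹ * c) • num a x =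
        -(((den a x)⁻¹ ^ 2 * c) • num a x) := by
      intro c
      rw [← neg_smul, inv_pow]
      congr 1
      ring
    rw [e, ← sub_eq_add_neg]
    rfl
  refine ⟨contDiffAt_mob a x hden.ne', hform, ?_, ?_⟩
  · intro v
    have hlam : 0 < lam a x := by
      unfold lam
      have : 0 < 1 - ‖a‖ ^ 2 := by nlinarith [norm_nonneg a]
      exact div_pos this hden
    have hsq : ‖fderiv ℝ (mob a) x v‖ ^ 2 = (lam a x * ‖v‖) ^ 2 := by
      rw [hform]
      set D := den a x with hD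
      set q : ℝ := 2 * inner ℝ a v + 2 * inner ℝ x v with hq
      set r : ℝ := 2 * inner ℝ a v + 2 * ‖a‖ ^ 2 * inner ℝ x v with hr
      set B : ℝ := 1 + 2 * inner ℝ a x + ‖x‖ ^ 2 with hB
      have e : D⁻¹ • ((1 - ‖a‖ ^ 2) • v + q • a) - (D⁻¹ ^ 2 * r) • ((1 - ‖a‖ ^ 2) • x + B • a) =
          (D⁻¹ ^ 2) • ((D * (1 - ‖a‖ ^ 2)) • v + ((D * q - r * B) • a +
            (-(r * (1 - ‖a‖ ^ 2))) • x)) := by
        have hDD : D⁻¹ = D⁻¹ ^ 2 * D := by
          field_simp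
        rw [hDD]
        simp only [smul_add, smul_smul, sub_eq_add_neg, ← neg_smul, neg_add, ← smul_neg]
        have hDD' : (D⁻¹ ^ 2 * D) ^ 2 = D⁻¹ ^ 2 := by
          rw [← hDD]
        rw [hDD']
        module
      rw [e, norm_smul, mul_pow, norm_add_sq_real, norm_add_sq_real, inner_add_right]
      simp only [norm_smul, mul_pow, Real.norm_eq_abs, sq_abs, real_inner_smul_left,
        real_inner_smul_right]
      rw [real_inner_comm a v, real_inner_comm x v]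
      unfold lam
      rw [← hD]
      have hD2 : D = 1 + 2 * inner ℝ a x + ‖a‖ ^ 2 * ‖x‖ ^ 2 := rfl
      have hDne : D ≠ 0 := hden.ne'
      field_simp
      rw [hq, hr, hB, hD2]
      ring
    have h1 : 0 ≤ lam a x * ‖v‖ := by positivity
    exact (sq_eq_sq₀ (norm_nonneg _) h1).mp hsq
  · intro hx
    rw [hform]
    have hxx : inner ℝ x x = (1 : ℝ) := by
      rw [real_inner_self_eq_norm_sq, hx, one_pow]
    have hD2 : den a x = 1 + 2 * inner ℝ a x + ‖a‖ ^ 2 := by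
      unfold den
      rw [hx]
      ring
    rw [hxx, hx]
    unfold mob lam
    rw [hx, smul_smul]
    have hDne : den a x ≠ 0 := hden.ne'
    have e1 : (1 + 2 * inner ℝ a x + 1 ^ 2 : ℝ) = 2 * inner ℝ a x + 2 * 1 := by ring
    rw [e1, ← sub_smul]
    congr 1
    field_simp
    rw [hD2]
    ring

end Pool.Agent.MP562567
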