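import Pool.Agent.Lib.MP_562567_gt.Spec

/-!
# MP_562567_gt: derivatives of averages over the linear isometries, auxiliary lemmas
-/

set_option autoImplicit false

namespace Pool.Agent.MP562567

open MeasureTheory Set

namespace radAux

variable {n : ℕ}

theorem meas (A : Avg n) (e : E n) : Measurable fun g : A.G => A.ρ g e :=
  A.measJ.comp (measurable_id.prodMk measurable_const)

open Classical in
theorem aesm {X : Type*} [TopologicalSpace X] [MeasurableSpace X] [OpensMeasurableSpace X]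
    (A : Avg n) (f : X → ℝ) (K : Set X) (hK : MeasurableSet K) (hf : ContinuousOn f K)
    (m : A.G → X) (hm : Measurable m) (hmK : ∀ g, m g ∈ K) :
    AEStronglyMeasurable (fun g => f (m g)) A.μ := by
  have h1 : Measurable (K.piecewise f (fun _ => 0)) :=
    hf.measurable_piecewise continuousOn_const hK
  have h2 : (fun g => f (m g)) = fun g => K.piecewise f (fun _ => 0) (m g) := by
    funext g
    rw [Set.piecewise_eq_of_mem _ _ _ (hmK g)]
  rw [h2]
  exact (h1.comp hm).aestronglyMeasurable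

theorem exists_delta (U : Set (E n)) (hU : IsOpen U) (hB : Metric.closedBall 0 1 ⊆ U) :
    ∃ δ : ℝ, 0 < δ ∧ Metric.closedBall (0 : E n) (1 + δ) ⊆ U := by
  obtain ⟨δ, hδ, h⟩ := (isCompact_closedBall (0 : E n) 1).exists_cthickening_subset_open hU hB
  refine ⟨δ, hδ, ?_⟩
  rwa [cthickening_closedBall hδ.le zero_le_one, add_comm] at h

theorem d1 (A : Avg n) (v : E n → ℝ) (U : Set (E n)) (hU : IsOpen U) (R : ℝ)
    (hR : Metric.closedBall (0 : E n) R ⊆ U) (hv : ContDiffOn ℝ 2 v U) (c c' : ℝ → E n)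
    (t₀ B : ℝ) (s : Set ℝ) (hs : s ∈ nhds t₀) (hc : ∀ t ∈ s, HasDerivAt c (c' t) t)
    (hcR : ∀ t ∈ s, ‖c t‖ ≤ R) (hc' : ∀ t ∈ s, ‖c' t‖ ≤ B) :
    HasDerivAt (fun t => ∫ g, v (A.ρ g (c t)) ∂A.μ)
      (∫ g, fderiv ℝ v (A.ρ g (c t₀)) (A.ρ g (c' t₀)) ∂A.μ) t₀ := by
  have ht₀ : t₀ ∈ s := mem_of_mem_nhds hs
  have hcont : ContinuousOn v (Metric.closedBall 0 R) := hv.continuousOn.mono hR
  have hD : ContinuousOn (fderiv ℝ v) (Metric.closedBall 0 R) :=
    (hv.continuousOn_fderiv_of_isOpen hU (by norm_num)).mono hR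
  obtain ⟨C, hC⟩ := (isCompact_closedBall (0 : E n) R).exists_bound_of_continuousOn hD
  obtain ⟨C0, hC0⟩ := (isCompact_closedBall (0 : E n) R).exists_bound_of_continuousOn hcont
  have hmem : ∀ t ∈ s, ∀ g, A.ρ g (c t) ∈ Metric.closedBall (0 : E n) R := by
    intro t ht g
    rw [mem_closedBall_zero_iff, LinearIsometryEquiv.norm_map]
    exact hcR t ht
  have hmeas : ∀ t ∈ s, AEStronglyMeasurable (fun g => v (A.ρ g (c t))) A.μ := fun t ht =>
    aesm A v _ Metric.isClosed_closedBall.measurableSet hcont _ (meas A (c t)) (hmem t ht)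
  have hmeas' : AEStronglyMeasurable (fun g => fderiv ℝ v (A.ρ g (c t₀)) (A.ρ g (c' t₀))) A.μ :=
    aesm A (X := E n × E n) (fun q => fderiv ℝ v q.1 q.2) (Metric.closedBall 0 R ×ˢ univ)
      (Metric.isClosed_closedBall.measurableSet.prod MeasurableSet.univ)
      ((hD.comp continuousOn_fst fun q hq => hq.1).clm_apply continuousOn_snd)
      (fun g => (A.ρ g (c t₀), A.ρ g (c' t₀))) ((meas A _).prodMk (meas A _))
      (fun g => ⟨hmem t₀ ht₀ g, mem_univ _⟩)
  refine (hasDerivAt_integral_of_dominated_loc_of_deriv_le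
    (F := fun t g => v (A.ρ g (c t)))
    (F' := fun t g => fderiv ℝ v (A.ρ g (c t)) (A.ρ g (c' t)))
    (bound := fun _ => C * B) hs (Filter.eventually_of_mem hs hmeas)
    (Integrable.of_bound (hmeas t₀ ht₀) C0
      (Filter.Eventually.of_forall fun g => hC0 _ (hmem t₀ ht₀ g)))
    hmeas' (Filter.Eventually.of_forall fun g t ht => ?_) (integrable_const _)
    (Filter.Eventually.of_forall fun g t ht => ?_)).2
  · refine (ContinuousLinearMap.le_opNorm _ _).trans ?_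
    refine mul_le_mul (hC _ (hmem t ht g)) ?_ (norm_nonneg _)
      ((norm_nonneg _).trans (hC _ (hmem t ht g)))
    rw [LinearIsometryEquiv.norm_map]
    exact hc' t ht
  · have h1 : DifferentiableAt ℝ v (A.ρ g (c t)) :=
      (hv.contDiffAt (hU.mem_nhds (hR (hmem t ht g)))).differentiableAt (by norm_num)
    have h2 : HasDerivAt (fun t => A.ρ g (c t)) (A.ρ g (c' t)) t :=
      (A.ρ g).toContinuousLinearEquiv.toContinuousLinearMap.hasFDerivAt.comp_hasDerivAt t (hc t ht)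
    exact h1.hasFDerivAt.comp_hasDerivAt t h2

theorem d2 (A : Avg n) (v : E n → ℝ) (U : Set (E n)) (hU : IsOpen U) (R : ℝ)
    (hR : Metric.closedBall (0 : E n) R ⊆ U) (hv : ContDiffOn ℝ 2 v U) (c c' c'' : ℝ → E n)
    (t₀ B : ℝ) (s : Set ℝ) (hs : s ∈ nhds t₀) (hc : ∀ t ∈ s, HasDerivAt c (c' t) t)
    (hcc : ∀ t ∈ s, HasDerivAt c' (c'' t) t)
    (hcR : ∀ t ∈ s, ‖c t‖ ≤ R) (hc' : ∀ t ∈ s, ‖c' t‖ ≤ B) (hc'' : ∀ t ∈ s, ‖c'' t‖ ≤ B) :
    HasDerivAt (fun t => ∫ g, fderiv ℝ v (A.ρ g (c t)) (A.ρ g (c' t)) ∂A.μ)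
      (∫ g, (fderiv ℝ (fderiv ℝ v) (A.ρ g (c t₀)) (A.ρ g (c' t₀)) (A.ρ g (c' t₀)) +
        fderiv ℝ v (A.ρ g (c t₀)) (A.ρ g (c'' t₀))) ∂A.μ) t₀ := by
  have ht₀ : t₀ ∈ s := mem_of_mem_nhds hs
  have hv1 : ContDiffOn ℝ 1 (fderiv ℝ v) U := hv.fderiv_of_isOpen hU (by norm_num)
  have hD : ContinuousOn (fderiv ℝ v) (Metric.closedBall 0 R) := hv1.continuousOn.mono hR
  have hD2 : ContinuousOn (fderiv ℝ (fderiv ℝ v)) (Metric.closedBall 0 R) :=
    (hv1.continuousOn_fderiv_of_isOpen hU le_rfl).mono hR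
  obtain ⟨C, hC⟩ := (isCompact_closedBall (0 : E n) R).exists_bound_of_continuousOn hD
  have hD2n : ContinuousOn (fun x => ‖fderiv ℝ (fderiv ℝ v) x‖) (Metric.closedBall 0 R) :=
    ContinuousOn.norm (f := fderiv ℝ (fderiv ℝ v)) hD2
  obtain ⟨C2, hC2'⟩ := (isCompact_closedBall (0 : E n) R).exists_bound_of_continuousOn hD2n
  have hC2 : ∀ x ∈ Metric.closedBall (0 : E n) R, ‖fderiv ℝ (fderiv ℝ v) x‖ ≤ C2 := by
    intro x hx
    have h := hC2' x hx
    rw [Real.norm_eq_abs] at h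
    exact (le_abs_self _).trans h
  have hmem : ∀ t ∈ s, ∀ g, A.ρ g (c t) ∈ Metric.closedBall (0 : E n) R := by
    intro t ht g
    rw [mem_closedBall_zero_iff, LinearIsometryEquiv.norm_map]
    exact hcR t ht
  have hCpos : 0 ≤ C := (norm_nonneg _).trans (hC _ (hmem t₀ ht₀ 1))
  have hC2pos : 0 ≤ C2 :=
    (norm_nonneg (fderiv ℝ (fderiv ℝ v) (A.ρ 1 (c t₀)))).trans (hC2 _ (hmem t₀ ht₀ 1))
  have hBpos : 0 ≤ B := (norm_nonneg _).trans (hc' t₀ ht₀)
  have hfc : ContinuousOn (fun q : E n × E n => fderiv ℝ v q.1 q.2)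
      (Metric.closedBall 0 R ×ˢ univ) :=
    (hD.comp continuousOn_fst fun q hq => hq.1).clm_apply continuousOn_snd
  have hmeas : ∀ t ∈ s, ∀ y : E n,
      AEStronglyMeasurable (fun g => fderiv ℝ v (A.ρ g (c t)) (A.ρ g y)) A.μ := fun t ht y =>
    aesm A (X := E n × E n) (fun q => fderiv ℝ v q.1 q.2) (Metric.closedBall 0 R ×ˢ univ)
      (Metric.isClosed_closedBall.measurableSet.prod MeasurableSet.univ) hfc
      (fun g => (A.ρ g (c t), A.ρ g y)) ((meas A _).prodMk (meas A _))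
      (fun g => ⟨hmem t ht g, mem_univ _⟩)
  have hmeas2 : AEStronglyMeasurable (fun g => fderiv ℝ (fderiv ℝ v) (A.ρ g (c t₀))
      (A.ρ g (c' t₀)) (A.ρ g (c' t₀))) A.μ :=
    aesm A (X := E n × E n) (fun q => fderiv ℝ (fderiv ℝ v) q.1 q.2 q.2)
      (Metric.closedBall 0 R ×ˢ univ)
      (Metric.isClosed_closedBall.measurableSet.prod MeasurableSet.univ)
      (((hD2.comp continuousOn_fst fun q hq => hq.1).clm_apply continuousOn_snd).clm_apply
        continuousOn_snd)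
      (fun g => (A.ρ g (c t₀), A.ρ g (c' t₀))) ((meas A _).prodMk (meas A _))
      (fun g => ⟨hmem t₀ ht₀ g, mem_univ _⟩)
  refine (hasDerivAt_integral_of_dominated_loc_of_deriv_le
    (F := fun t g => fderiv ℝ v (A.ρ g (c t)) (A.ρ g (c' t)))
    (F' := fun t g => fderiv ℝ (fderiv ℝ v) (A.ρ g (c t)) (A.ρ g (c' t)) (A.ρ g (c' t)) +
        fderiv ℝ v (A.ρ g (c t)) (A.ρ g (c'' t)))
    (bound := fun _ => C2 * B * B + C * B) hs
    (Filter.eventually_of_mem hs fun t ht => hmeas t ht (c' t))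
    (Integrable.of_bound (hmeas t₀ ht₀ (c' t₀)) (C * B)
      (Filter.Eventually.of_forall fun g => ?_))
    (hmeas2.add (hmeas t₀ ht₀ (c'' t₀))) (Filter.Eventually.of_forall fun g t ht => ?_)
    (integrable_const _) (Filter.Eventually.of_forall fun g t ht => ?_)).2
  · refine (ContinuousLinearMap.le_opNorm _ _).trans ?_
    refine mul_le_mul (hC _ (hmem t₀ ht₀ g)) ?_ (norm_nonneg _) hCpos
    rw [LinearIsometryEquiv.norm_map]
    exact hc' t₀ ht₀
  · refine (norm_add_le _ _).trans (add_le_add ?_ ?_)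
    · refine (ContinuousLinearMap.le_opNorm _ _).trans ?_
      refine mul_le_mul ?_ ?_ (norm_nonneg _) (by positivity)
      · refine (ContinuousLinearMap.le_opNorm _ _).trans ?_
        refine mul_le_mul (hC2 _ (hmem t ht g)) ?_ (norm_nonneg _) hC2pos
        rw [LinearIsometryEquiv.norm_map]
        exact hc' t ht
      · rw [LinearIsometryEquiv.norm_map]
        exact hc' t ht
    · refine (ContinuousLinearMap.le_opNorm _ _).trans ?_
      refine mul_le_mul (hC _ (hmem t ht g)) ?_ (norm_nonneg _) hCpos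
      rw [LinearIsometryEquiv.norm_map]
      exact hc'' t ht
  · have h1 : DifferentiableAt ℝ (fderiv ℝ v) (A.ρ g (c t)) :=
      (hv1.contDiffAt (hU.mem_nhds (hR (hmem t ht g)))).differentiableAt (by norm_num)
    have h2 : HasDerivAt (fun t => A.ρ g (c t)) (A.ρ g (c' t)) t :=
      (A.ρ g).toContinuousLinearEquiv.toContinuousLinearMap.hasFDerivAt.comp_hasDerivAt t (hc t ht)
    have h3 : HasDerivAt (fun t => A.ρ g (c' t)) (A.ρ g (c'' t)) t :=
      (A.ρ g).toContinuousLinearEquiv.toContinuousLinearMap.hasFDerivAt.comp_hasDerivAt t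
        (hcc t ht)
    have h4 : HasDerivAt (fun t => fderiv ℝ v (A.ρ g (c t)))
        (fderiv ℝ (fderiv ℝ v) (A.ρ g (c t)) (A.ρ g (c' t))) t :=
      h1.hasFDerivAt.comp_hasDerivAt t h2
    exact h4.clm_apply h3

theorem rinv (A : Avg n) (k : A.G) (φ : A.G → ℝ) (hφ : AEStronglyMeasurable φ A.μ) :
    ∫ g, φ (g * k) ∂A.μ = ∫ g, φ g ∂A.μ := by
  have h := (A.right k).map_eq
  have h1 : ∫ g, φ g ∂(A.μ.map (fun g => g * k)) = ∫ g, φ (g * k) ∂A.μ :=
    integral_map (A.right k).measurable.aemeasurable (by rw [h]; exact hφ)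
  rw [← h1, h]

theorem exists_rho (A : Avg n) {y y' : E n} (h : ‖y‖ = ‖y'‖) : ∃ k : A.G, A.ρ k y = y' := by
  obtain ⟨k, hk⟩ := A.surj (Submodule.reflection (Submodule.span ℝ {y - y'})ᗮ)
  exact ⟨k, by rw [hk]; exact Submodule.reflection_sub h⟩

theorem rho_mul (A : Avg n) (g k : A.G) (x : E n) : A.ρ (g * k) x = A.ρ g (A.ρ k x) := by
  rw [map_mul]
  rfl

theorem mem_ball (A : Avg n) {R : ℝ} {x : E n} (hx : ‖x‖ ≤ R) (g : A.G) :
    A.ρ g x ∈ Metric.closedBall (0 : E n) R := by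
  rw [mem_closedBall_zero_iff, LinearIsometryEquiv.norm_map]
  exact hx

theorem int0 (A : Avg n) (v : E n → ℝ) (R : ℝ)
    (hv : ContinuousOn v (Metric.closedBall (0 : E n) R)) (x : E n) (hx : ‖x‖ ≤ R) :
    Integrable (fun g => v (A.ρ g x)) A.μ := by
  obtain ⟨C, hC⟩ := (isCompact_closedBall (0 : E n) R).exists_bound_of_continuousOn hv
  exact Integrable.of_bound
    (aesm A v _ Metric.isClosed_closedBall.measurableSet hv _ (meas A x) (mem_ball A hx)) C
    (Filter.Eventually.of_forall fun g => hC _ (mem_ball A hx g))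

theorem int1 (A : Avg n) (v : E n → ℝ) (U : Set (E n)) (hU : IsOpen U) (R : ℝ)
    (hR : Metric.closedBall (0 : E n) R ⊆ U) (hv : ContDiffOn ℝ 2 v U) (x y : E n)
    (hx : ‖x‖ ≤ R) : Integrable (fun g => fderiv ℝ v (A.ρ g x) (A.ρ g y)) A.μ := by
  have hD : ContinuousOn (fderiv ℝ v) (Metric.closedBall 0 R) :=
    (hv.continuousOn_fderiv_of_isOpen hU (by norm_num)).mono hR
  obtain ⟨C, hC⟩ := (isCompact_closedBall (0 : E n) R).exists_bound_of_continuousOn hD
  refine Integrable.of_bound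
    (aesm A (X := E n × E n) (fun q => fderiv ℝ v q.1 q.2) (Metric.closedBall 0 R ×ˢ univ)
      (Metric.isClosed_closedBall.measurableSet.prod MeasurableSet.univ)
      ((hD.comp continuousOn_fst fun q hq => hq.1).clm_apply continuousOn_snd)
      (fun g => (A.ρ g x, A.ρ g y)) ((meas A _).prodMk (meas A _))
      (fun g => ⟨mem_ball A hx g, mem_univ _⟩)) (C * ‖y‖)
    (Filter.Eventually.of_forall fun g => ?_)
  refine (ContinuousLinearMap.le_opNorm _ _).trans ?_
  rw [LinearIsometryEquiv.norm_map]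
  exact mul_le_mul_of_nonneg_right (hC _ (mem_ball A hx g)) (norm_nonneg _)

theorem int2 (A : Avg n) (v : E n → ℝ) (U : Set (E n)) (hU : IsOpen U) (R : ℝ)
    (hR : Metric.closedBall (0 : E n) R ⊆ U) (hv : ContDiffOn ℝ 2 v U) (x y : E n)
    (hx : ‖x‖ ≤ R) :
    Integrable (fun g => fderiv ℝ (fderiv ℝ v) (A.ρ g x) (A.ρ g y) (A.ρ g y)) A.μ := by
  have hv1 : ContDiffOn ℝ 1 (fderiv ℝ v) U := hv.fderiv_of_isOpen hU (by norm_num)
  have hD2 : ContinuousOn (fderiv ℝ (fderiv ℝ v)) (Metric.closedBall 0 R) :=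
    (hv1.continuousOn_fderiv_of_isOpen hU le_rfl).mono hR
  have hD2n : ContinuousOn (fun x => ‖fderiv ℝ (fderiv ℝ v) x‖) (Metric.closedBall 0 R) :=
    ContinuousOn.norm (f := fderiv ℝ (fderiv ℝ v)) hD2
  obtain ⟨C2, hC2'⟩ := (isCompact_closedBall (0 : E n) R).exists_bound_of_continuousOn hD2n
  have hC2 : ∀ x ∈ Metric.closedBall (0 : E n) R, ‖fderiv ℝ (fderiv ℝ v) x‖ ≤ C2 := by
    intro x hx
    have h := hC2' x hx
    rw [Real.norm_eq_abs] at h
    exact (le_abs_self _).trans h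
  refine Integrable.of_bound
    (aesm A (X := E n × E n) (fun q => fderiv ℝ (fderiv ℝ v) q.1 q.2 q.2)
      (Metric.closedBall 0 R ×ˢ univ)
      (Metric.isClosed_closedBall.measurableSet.prod MeasurableSet.univ)
      (((hD2.comp continuousOn_fst fun q hq => hq.1).clm_apply continuousOn_snd).clm_apply
        continuousOn_snd)
      (fun g => (A.ρ g x, A.ρ g y)) ((meas A _).prodMk (meas A _))
      (fun g => ⟨mem_ball A hx g, mem_univ _⟩)) (C2 * ‖y‖ * ‖y‖)
    (Filter.Eventually.of_forall fun g => ?_)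
  refine (ContinuousLinearMap.le_opNorm _ _).trans ?_
  rw [LinearIsometryEquiv.norm_map]
  refine mul_le_mul_of_nonneg_right ?_ (norm_nonneg _)
  refine (ContinuousLinearMap.le_opNorm _ _).trans ?_
  rw [LinearIsometryEquiv.norm_map]
  exact mul_le_mul_of_nonneg_right (hC2 _ (mem_ball A hx g)) (norm_nonneg _)

end radAux

end Pool.Agent.MP562567
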