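import Pool.Agent.Lib.MP_562567_gt.Defs

/-!
# MP_562567_gt: the statements of the modules

Every `S_...` is a statement to be proved in its own file; the docstring contains the complete proof.
Notation: `p = pp n = (n - 2) / 2`; `A : Avg n` is the invariant average over the linear isometries of `ℝⁿ`;
`e` is a unit vector, so that `∫ g, F (A.ρ g e) ∂A.μ` is the average of `F` over the unit sphere.
-/

set_option autoImplicit false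

namespace Pool.Agent.MP562567

open MeasureTheory Set

/-- **HA.** The invariant average exists.

Proof. `G = Matrix.orthogonalGroup (Fin n) ℝ` (`= unitary (Matrix (Fin n) (Fin n) ℝ)`) is a topological group
(`Mathlib/Topology/Algebra/Star/Unitary.lean`), compact because it is closed and bounded in the matrices (the entries
are in `[-1, 1]`; prove `IsCompact` of the set of orthogonal matrices, `isCompact_iff_compactSpace`).  With the Borel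
σ-algebra let `μ` be the Haar measure of total mass one (`Measure.haarMeasure ⊤`).  It is left invariant; the image of `μ` under
`g ↦ g * k` is again a left invariant probability measure (a Haar measure), so it is `μ` by
`isHaarMeasure_eq_of_isProbabilityMeasure`.  `ρ g` is the linear isometry `x ↦ g x` (for instance through
`Matrix.toEuclideanLin` or `WithLp.toLp 2 (g.mulVec ..)`; `‖g x‖² = ⟨x, gᵀ g x⟩`).  `(g, x) ↦ ρ g x` is continuous, so measurable (all spaces are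
second countable metrizable, `Prod.opensMeasurableSpace`).  Surjective: the matrix of a linear isometry in the
standard basis is orthogonal. -/
def S_Avg : Prop := ∀ n : ℕ, Nonempty (Avg n)

/-- **NA.** The average has no atoms.

Proof. If `‖y‖ ≠ 1` the set is empty.  For unit vectors `y, y'` there is a linear isometry with `y ↦ y'` (a reflection,
`LinearIsometryEquiv` of the reflection in the hyperplane orthogonal to `y - y'`), it is `ρ k` for some `k` (`surj`), and by left invariance the sets `{g | ρ g e = y}` and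
`{g | ρ g e = y'}` have the same measure `m` (`ρ (k g) e = ρ k (ρ g e)`).  The unit sphere has infinitely many points (`n ≥ 2`; for instance
`cos t b₀ + sin t b₁`), the sets for different points are disjoint and measurable, so `N m ≤ 1` for every `N`. -/
def S_Atom : Prop := ∀ (n : ℕ) (A : Avg n), 2 ≤ n → ∀ e y : E n, ‖e‖ = 1 →
  A.μ {g | A.ρ g e = y} = 0

/-- **PA.** Parseval for the differences of a periodic function.

Proof. Let `c_k` be the Fourier coefficients of `f` (as a function on `AddCircle (2 π)`, complex valued), `a_k = 2 π |c_k|²`.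
The Fourier coefficients of `t ↦ f (t + r) - f t` are `(e^(i k r) - 1) c_k`, `|e^(i k r) - 1|² = 4 sin² (k r / 2)`; Parseval
(`tsum_sq_fourierCoeff`, `hasSum_sq_fourierCoeff`). -/
def S_Pars : Prop := ∀ f : ℝ → ℝ, Continuous f → (∀ t, f (t + 2 * Real.pi) = f t) →
  ∃ a : ℤ → ℝ, (∀ k, 0 ≤ a k) ∧ ∀ r : ℝ,
    HasSum (fun k : ℤ => 4 * Real.sin (k * r / 2) ^ 2 * a k)
      (∫ t in (0 : ℝ)..(2 * Real.pi), (f (t + r) - f t) ^ 2)

/-- **CI.** The inequality for closed curves.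

Proof (from PA). Apply PA to the components of `c` and add: there are `a_k ≥ 0` with
`D r := ∫ ‖c (t + r) - c t‖² = ∑_k 4 sin² (k r / 2) a_k`.  For `δ > 0`:
`‖c (t + δ) - c t‖² ≤ (∫_t^(t+δ) ω)² ≤ δ ∫_0^δ ω (t + τ)² dτ`, and by Fubini and periodicity `D δ ≤ δ² W`, `W = ∫ ω²`.  So for every finite set
`K` of indices `∑_(k ∈ K) (4 sin² (k δ / 2) / δ²) a_k ≤ W`, and `δ → 0` gives `∑_(k ∈ K) k² a_k ≤ W`.  Since
`|sin (k x)| ≤ |k| |sin x|`, `D r ≤ 4 sin² (r / 2) ∑_k k² a_k ≤ 4 sin² (r / 2) W`. -/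
def S_Circ : Prop := S_Pars → ∀ (n : ℕ) (c : ℝ → E n) (ω : ℝ → ℝ), Continuous c → Continuous ω →
  (∀ t, c (t + 2 * Real.pi) = c t) → (∀ t, ω (t + 2 * Real.pi) = ω t) → (∀ t, 0 ≤ ω t) →
  (∀ σ τ, σ ≤ τ → ‖c τ - c σ‖ ≤ ∫ t in σ..τ, ω t) → ∀ r : ℝ,
  ∫ t in (0 : ℝ)..(2 * Real.pi), ‖c (t + r) - c t‖ ^ 2 ≤
    4 * Real.sin (r / 2) ^ 2 * ∫ t in (0 : ℝ)..(2 * Real.pi), ω t ^ 2

/-- **PO.** The sharp Poincaré inequality through great circles.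

Proof (from CI). `F` and `w` are continuous on the (compact) sphere, so bounded there, and `g ↦ F (ρ g x)`, `‖x‖ = 1`, is measurable and
integrable.  Let `W = ∫ w (ρ g e)²`; by right invariance (`ρ (g k) e = ρ g (ρ k e)` and transitivity on unit vectors)
`∫ w (ρ g x)² = W` for every unit vector `x`, and the same for `F`.
(1) For every unit vector `y`: `∫_g ‖F (ρ g y) - F (ρ g e)‖² ≤ ‖y - e‖² W`.  Choose a unit vector `b ⟂ e` and `r` with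
`y = cos r e + sin r b` (`n ≥ 2`).  For fixed `g` put `c t = F (cos t (ρ g e) + sin t (ρ g b))`, `ω t = w (...)`: CI gives
`∫_0^(2π) ‖c (t + r) - c t‖² dt ≤ 4 sin² (r / 2) ∫_0^(2π) ω²`.  Integrate over `g` (Fubini).  For fixed `t`, with the linear isometry `ρ k` which rotates
`e ↦ cos t e + sin t b`, `b ↦ - sin t e + cos t b` (extend the orthonormal pairs, or only: the inner integral over `g` does not
depend on `t` by right invariance under this `k`), the integral over `g` of `‖c (t + r) - c t‖²` is that of `‖c r - c 0‖² = ‖F (ρ g y) - F (ρ g e)‖²`, and the integral of `ω t²` is `W`.  Finally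
`4 sin² (r / 2) = ‖y - e‖²`.
(2) Put `y = ρ k e` and integrate over `k`.  Left side, by Fubini: `∫_g ∫_k ‖F (ρ (g k) e) - F (ρ g e)‖² = ∫_g ∫_k ‖F (ρ k e) - F (ρ g e)‖²` (left
invariance) `= ∫_g ∫_k (2 - 2 ⟨F (ρ k e), F (ρ g e)⟩) = 2 - 2 ‖∫ F (ρ g e)‖² = 2`.  Right side:
`∫_k ‖ρ k e - e‖² = 2 - 2 ⟨∫ ρ k e, e⟩ = 2` (`∫ ρ k e = 0` by right invariance under `- id`).  So `2 ≤ 2 W`. -/
def S_Poinc : Prop := S_Pars → S_Circ → ∀ (n : ℕ) (A : Avg n), 2 ≤ n →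
  ∀ (F : E n → E n) (w : E n → ℝ), ContinuousOn F (Metric.sphere 0 1) →
  ContinuousOn w (Metric.sphere 0 1) → (∀ x ∈ Metric.sphere (0 : E n) 1, 0 ≤ w x) →
  (∀ x ∈ Metric.sphere (0 : E n) 1, ‖F x‖ = 1) →
  (∀ a b : E n, ‖a‖ = 1 → ‖b‖ = 1 → inner ℝ a b = 0 → ∀ σ τ : ℝ, σ ≤ τ →
    ‖F (Real.cos τ • a + Real.sin τ • b) - F (Real.cos σ • a + Real.sin σ • b)‖ ≤
      ∫ t in σ..τ, w (Real.cos t • a + Real.sin t • b)) →
  ∀ e : E n, ‖e‖ = 1 → ∫ g, F (A.ρ g e) ∂A.μ = 0 → 1 ≤ ∫ g, w (A.ρ g e) ^ 2 ∂A.μ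

/-- **OD.** The energy inequality for the radial equation.

Proof. `p = pp n > 0`, `n - 1 = 2 p + 1`, `n - 2 = 2 p`.  Let `χ r = r φ₁ + p φ`,
`E r = r^(n-2) (χ² - p² φ² + p² r² φ^(2 + 2/p))` and `d r = - (r φ₂ + (n - 1) φ₁ + p (p + 1) r φ^(1 + 2/p)) ≥ 0`.
Then `χ' = (1 + p) φ₁ + r φ₂ = - p φ₁ - d - p (p + 1) r φ^(1+2/p)` and a computation (replace `r φ₁` by `χ - p φ`) gives
`E' = - 2 r^(n-2) χ d ≥ 0` ... with the sign: `E' ≤ 0` wherever `χ ≥ 0`.  `E 0 = 0`, `χ 0 = p φ 0 > 0`.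
Claim A: `χ r ≥ 0` implies `E r ≤ 0`, for `0 ≤ r ≤ 1`.  Let `r₀` be the infimum of the `t ≤ r` with `χ ≥ 0` on `[t, r]`.  If `r₀ = 0`, `E` is antitone on
`[0, r]` and `E r ≤ E 0 = 0`.  Otherwise `χ r₀ = 0` (continuity; `χ < 0` somewhere arbitrarily close to the left), and `χ' r₀ ≥ 0`: if `r₀ < r` because `χ ≥ 0 = χ r₀` on
`[r₀, r]`, and if `r₀ = r` because `χ < 0` at points arbitrarily close to the left of `r`.  With `r₀ φ₁ = - p φ` this says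
`0 ≤ r₀ χ' = p² φ - r₀ d - p (p + 1) r₀² φ^(1+2/p)`, so `r₀² φ^(2/p) ≤ p / (p + 1) ≤ 1` and `E r₀ = r₀^(n-2) (- p² φ² (1 - r₀² φ^(2/p))) ≤ 0`; `E` is antitone on
`[r₀, r]`.
Claim B: with `ψ = r^p φ` (`ψ' = r^(p-1) χ` for `r > 0`): `φ 1 = ψ 1 ≤ 1`.  If `χ 1 ≥ 0`: `E 1 ≤ 0` gives `0 ≤ χ² ≤ p² φ² (1 - φ^(2/p))`, so `φ 1 ≤ 1`.
If `χ 1 < 0` let `r₁` be the supremum of the `r` with `χ r ≥ 0`; then `r₁ > 0`, `χ r₁ = 0`, `χ < 0` on `(r₁, 1]`, so `ψ` is antitone on `[r₁, 1]`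
and `ψ 1 ≤ ψ r₁`; `E r₁ ≤ 0` gives `p² φ² (1 - r₁² φ^(2/p)) ≥ 0`, that is `ψ r₁ ≤ 1` (`ψ^(2/p) = r² φ^(2/p)`).
The second conclusion is `E 1 ≤ 0` from claim A. -/
def S_Ode : Prop := ∀ (n : ℕ) (φ φ₁ φ₂ : ℝ → ℝ), 3 ≤ n →
  (∀ r ∈ Icc (0 : ℝ) 1, HasDerivAt φ (φ₁ r) r ∧ HasDerivAt φ₁ (φ₂ r) r) →
  (∀ r ∈ Icc (0 : ℝ) 1, 0 < φ r) →
  (∀ r ∈ Icc (0 : ℝ) 1, r * φ₂ r + ((n : ℝ) - 1) * φ₁ r ≤
    - (pp n * (pp n + 1) * r * φ r ^ (1 + 2 / pp n))) →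
  φ 1 ≤ 1 ∧ (0 ≤ φ₁ 1 + pp n * φ 1 →
    (φ₁ 1 + pp n * φ 1) ^ 2 ≤ pp n ^ 2 * φ 1 ^ 2 * (1 - φ 1 ^ (2 / pp n)))

/-- **LB.** The Laplacian in an arbitrary orthonormal basis.

Proof. `pd i (pd i v) x = fderiv ℝ (fderiv ℝ v) x (bv i) (bv i)` (near `x` the function `v` is differentiable and its derivative is differentiable at `x`), and the trace of a
bilinear form in an orthonormal basis does not depend on the basis (expand `b i` in the standard basis; the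
matrix is orthogonal; or `InnerProductSpace.laplacian_eq_iteratedFDeriv_orthonormalBasis`). -/
def S_LapB : Prop := ∀ (n : ℕ) (v : E n → ℝ) (x : E n), ContDiffAt ℝ 2 v x →
  ∀ b : OrthonormalBasis (Fin n) ℝ (E n),
    lap v x = ∑ i, fderiv ℝ (fderiv ℝ v) x (b i) (b i)

/-- **R1.** Derivatives of the spherical averages.

Proof. There is `δ > 0` with `closedBall 0 (1 + δ) ⊆ U` (compactness of the closed ball), on which `v`, `fderiv ℝ v` and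
`fderiv ℝ (fderiv ℝ v)` are continuous and bounded.  Differentiate under the integral
(`hasDerivAt_integral_of_dominated_loc_of_deriv_le`, on the ball of radius `δ` around `r`; measurability: a continuous
function of `ρ g e`, compose with the measurable map `g ↦ ρ g e`). -/
def S_Rad1 : Prop := ∀ (n : ℕ) (A : Avg n) (v : E n → ℝ) (U : Set (E n)), IsOpen U →
  Metric.closedBall 0 1 ⊆ U → ContDiffOn ℝ 2 v U → ∀ e : E n, ‖e‖ = 1 → ∀ r ∈ Icc (0 : ℝ) 1,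
  HasDerivAt (fun r => ∫ g, v (r • A.ρ g e) ∂A.μ)
    (∫ g, fderiv ℝ v (r • A.ρ g e) (A.ρ g e) ∂A.μ) r ∧
  HasDerivAt (fun r => ∫ g, fderiv ℝ v (r • A.ρ g e) (A.ρ g e) ∂A.μ)
    (∫ g, fderiv ℝ (fderiv ℝ v) (r • A.ρ g e) (A.ρ g e) (A.ρ g e) ∂A.μ) r

/-- **R2.** The radial part of the Laplacian of the average.

Proof. Let `b ⟂ e` be a unit vector and `J t = ∫ v (r • ρ g (cos t e + sin t b))`.  There is `k` with `ρ k e = cos t e + sin t b` (a linear isometry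
mapping a unit vector to a unit vector, `surj`), so `J` is constant by right invariance.  Differentiate twice under
the integral at `t = 0` (as in R1, all points are in the closed ball):
`r² ∫ D²v(r ρ g e)(ρ g b, ρ g b) - r ∫ Dv(r ρ g e)(ρ g e) = 0`.  Let `e = b_0, b_1, ..., b_(n-1)` be an orthonormal basis; `ρ g b_i` is an orthonormal basis for every `g`, so
by LB `r² ∫ lap v (r ρ g e) = r² ∫ D²v(ρ g e, ρ g e) + (n - 1) r ∫ Dv(ρ g e)`.  Divide by `r` if `r > 0`.  For `r = 0` both sides vanish, because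
`∫ Dv(0)(ρ g e) = 0` by right invariance under `- id`. -/
def S_Rad2 : Prop := S_LapB → ∀ (n : ℕ) (A : Avg n) (v : E n → ℝ) (U : Set (E n)), IsOpen U →
  Metric.closedBall 0 1 ⊆ U → ContDiffOn ℝ 2 v U → ∀ e : E n, ‖e‖ = 1 → ∀ r ∈ Icc (0 : ℝ) 1,
  r * ∫ g, fderiv ℝ (fderiv ℝ v) (r • A.ρ g e) (A.ρ g e) (A.ρ g e) ∂A.μ +
    ((n : ℝ) - 1) * ∫ g, fderiv ℝ v (r • A.ρ g e) (A.ρ g e) ∂A.μ =
  r * ∫ g, lap v (r • A.ρ g e) ∂A.μ

/-- **ME.** The inequalities for the mean value of a supersolution.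

Proof. `p = pp n > 0`.  `φ r = ∫ v (r ρ g e)`, `φ₁`, `φ₂` the derivatives of R1.  By R2, the hypothesis and Jensen's
inequality for the convex function `t ↦ t^(1+2/p)` on `(0, ∞)` (`ConvexOn.map_integral_le`, `convexOn_rpow`):
`r φ₂ + (n-1) φ₁ = r ∫ lap v ≤ - p (p + 1) r ∫ v^(1+2/p) ≤ - p (p + 1) r φ^(1+2/p)`.  OD: `φ 1 ≤ 1`.  If `Bd n κ v`, then integrating
`φ₁ 1 + p φ 1 ≥ κ ∫ v^(1+1/p) ≥ 0` (`φ₁ 1 = ∫ Dv(ρ g e)(ρ g e)`), and OD: `(κ ∫ v^(1+1/p))² ≤ p² φ² (1 - φ^(2/p))`; take square roots.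
`lap v` is continuous on the closed ball (`v` is `C²` near it), so everything is integrable. -/
def S_Mean : Prop := S_Ode → S_LapB → S_Rad1 → S_Rad2 → ∀ (n : ℕ) (A : Avg n) (v : E n → ℝ),
  3 ≤ n → Sup n v → ∀ e : E n, ‖e‖ = 1 →
  0 < ∫ g, v (A.ρ g e) ∂A.μ ∧ ∫ g, v (A.ρ g e) ∂A.μ ≤ 1 ∧
  ∀ κ : ℝ, 0 ≤ κ → Bd n κ v →
    κ * ∫ g, v (A.ρ g e) ^ (1 + 1 / pp n) ∂A.μ ≤
      pp n * (∫ g, v (A.ρ g e) ∂A.μ) * Real.sqrt (1 - (∫ g, v (A.ρ g e) ∂A.μ) ^ (2 / pp n))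

/-- **M1.** Moebius maps: norms.

Proof. `den a x ≥ (1 - ‖a‖ ‖x‖)²` (Cauchy-Schwarz) `> 0` for `‖a‖ < 1`, `‖x‖ ≤ 1`.  If `‖x‖ = 1`, `den a x = ‖x + a‖²` `> 0` for `x ≠ - a`.
`‖N‖² = den (den - (1 - ‖a‖²) (1 - ‖x‖²))` for the numerator `N` (expand; polynomial identity in `‖a‖²`, `‖x‖²`, `⟨a, x⟩`), so
`1 - ‖mob a x‖² = (1 - ‖a‖²) (1 - ‖x‖²) / den a x`.  If `‖a‖ = ‖x‖ = 1`: `N = (2 + 2 ⟨a, x⟩) a = den a x • a`. -/
def S_Mob1 : Prop := ∀ (n : ℕ) (a x : E n),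
  (‖a‖ < 1 → ‖x‖ ≤ 1 → 0 < den a x ∧ 0 < lam a x ∧ ‖mob a x‖ ≤ 1) ∧
  (‖a‖ ≤ 1 → ‖x‖ = 1 → x ≠ -a → 0 < den a x ∧ ‖mob a x‖ = 1) ∧
  (‖a‖ = 1 → ‖x‖ = 1 → x ≠ -a → mob a x = a)

/-- **M2.** Moebius maps: derivative.

Proof. `mob a` is a quotient of polynomial maps.  `D mob(x)(v) = den⁻¹ ((1-‖a‖²) v + 2 (⟨a,v⟩ + ⟨x,v⟩) a) - den⁻² (2 ⟨a,v⟩ + 2 ‖a‖² ⟨x,v⟩) N`;
expanding, `‖D mob(x)(v)‖² = lam² ‖v‖²` (polynomial identity in the inner products).  For `‖x‖ = 1`, `v = x`: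
`D mob(x)(x) = den⁻¹ ((1-‖a‖²) x + 2 (⟨a,x⟩ + 1) a) - den⁻² (2 ⟨a,x⟩ + 2 ‖a‖²) N = den⁻¹ N (1 - (2 ⟨a,x⟩ + 2 ‖a‖²) / den) = (lam a x) • mob a x`. -/
def S_Mob2 : Prop := ∀ (n : ℕ) (a x : E n), ‖a‖ < 1 → 0 < den a x →
  ContDiffAt ℝ (↑(⊤ : ℕ∞)) (mob a) x ∧
  (∀ v, fderiv ℝ (mob a) x v = (den a x)⁻¹ • ((1 - ‖a‖ ^ 2) • v +
      (2 * inner ℝ a v + 2 * inner ℝ x v) • a) -
    ((den a x)⁻¹ ^ 2 * (2 * inner ℝ a v + 2 * ‖a‖ ^ 2 * inner ℝ x v)) •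
      ((1 - ‖a‖ ^ 2) • x + (1 + 2 * inner ℝ a x + ‖x‖ ^ 2) • a)) ∧
  (∀ v, ‖fderiv ℝ (mob a) x v‖ = lam a x * ‖v‖) ∧
  (‖x‖ = 1 → fderiv ℝ (mob a) x x = lam a x • mob a x)

/-- **M3.** Moebius maps: second derivatives.  (The second statement: `lam ∑_i ∂_i² mob + 2 p ∑_i (∂_i lam) ∂_i mob = 0`.)

Proof. (1) `den` is a polynomial with `∂_i den = 2 a_i + 2 ‖a‖² x_i`, `∑_i (∂_i den)² = 4 ‖a‖² (1 + 2 ⟨a,x⟩ + ‖a‖² ‖x‖²) = 4 ‖a‖² den`,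
`∑_i ∂_i² den = 2 n ‖a‖²`.  So `lap (den^(-p)) = p (p+1) den^(-p-2) 4 ‖a‖² den - p den^(-p-1) 2 n ‖a‖² = 2 p ‖a‖² den^(-p-1) (2 p + 2 - n) = 0`.
(2) Differentiate the formula of M2 once more in the direction `e_i` and add: with `N` the numerator,
`∑_i ∂_i² N = 2 n a`, `∑_i (∂_i den) ∂_i N = (1-‖a‖²) (2 a + 2 ‖a‖² x) + (4 ‖a‖² + 4 ‖a‖² ⟨a,x⟩ + 4 ⟨a,x⟩ + 4 ‖a‖² ‖x‖²) a`,
`∑_i ∂_i² (N / den) = den⁻¹ 2 n a - 2 den⁻² ∑ (∂_i den) ∂_i N + (2 den⁻³ 4 ‖a‖² den - den⁻² 2 n ‖a‖²) N` and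
`∂_i lam = - (1-‖a‖²) den⁻² ∂_i den`; the claim becomes a polynomial identity (coefficients of `a` and of `x`), `2 p = n - 2`. -/
def S_Mob3 : Prop := S_Mob2 → ∀ (n : ℕ) (a x : E n), ‖a‖ < 1 → 0 < den a x →
  lap (fun y => lam a y ^ pp n) x = 0 ∧
  lam a x • (∑ i, fderiv ℝ (fderiv ℝ (mob a)) x (bv i) (bv i)) +
    (2 * pp n) • (∑ i, (pd i (lam a) x) • fderiv ℝ (mob a) x (bv i)) = 0

/-- **CO.** Conformal covariance of the Laplacian.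

Proof. `v = tr a u = lam^p (u ∘ T)`, `T = mob a`, near `x` (where `den > 0`).
`∂_i ∂_i v = ∂_i² (lam^p) u(T) + 2 p lam^(p-1) (∂_i lam) Du(T)(∂_i T) + lam^p D²u(T)(∂_i T, ∂_i T) + lam^p Du(T)(∂_i² T)`.  Add over `i`: the first term gives
`0` (M3), the second and the fourth give `lam^(p-1) Du(T)(2 p ∑ (∂_i lam) ∂_i T + lam ∑ ∂_i² T) = 0` (M3).  By M2 the vectors `lam⁻¹ • ∂_i T`
are an orthonormal basis (a linear map with `‖D v‖ = lam ‖v‖`, `lam > 0`, is `lam` times a linear isometry), so by LB the third gives `lam^p lam² lap u (T x)`. -/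
def S_Cov : Prop := S_LapB → S_Mob2 → S_Mob3 → ∀ (n : ℕ) (a x : E n) (u : E n → ℝ), ‖a‖ < 1 →
  0 < den a x → ContDiffAt ℝ 2 u (mob a x) →
  lap (tr a u) x = lam a x ^ (pp n + 2) * lap u (mob a x)

/-- **CB.** Conformal covariance of the boundary operator.

Proof. `D lam(x)(x) = - (1-‖a‖²) den⁻² (2 ⟨a,x⟩ + 2 ‖a‖²)` for `‖x‖ = 1`, so `lam + D lam(x)(x) = lam²` (`den = 1 + 2 ⟨a,x⟩ + ‖a‖²`).  With M2 (`DT(x)(x) = lam • T x`):
`D(tr a u)(x)(x) + p tr a u x = p lam^(p-1) (D lam(x)(x) + lam) u(T) + lam^p lam Du(T)(T x) = lam^(p+1) (Du(T)(T x) + p u(T))`. -/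
def S_CovB : Prop := S_Mob1 → S_Mob2 → ∀ (n : ℕ) (a x : E n) (u : E n → ℝ), ‖a‖ < 1 →
  ‖x‖ = 1 → DifferentiableAt ℝ u (mob a x) →
  fderiv ℝ (tr a u) x x + pp n * tr a u x =
    lam a x ^ (pp n + 1) * (fderiv ℝ u (mob a x) (mob a x) + pp n * u (mob a x))

/-- **TR.** The hypotheses are invariant under the conformal transformation.

Proof. `mob a` is continuous on the open set `{den a > 0}` and maps the closed ball into itself (M1), so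
`{x | 0 < den a x ∧ mob a x ∈ U}` is open and contains the closed ball; `tr a u` is `C²` there (`lam > 0`, M2).  The inequalities: CO and CB with
`(lam^p u(T))^(1+2/p) = lam^(p+2) u(T)^(1+2/p)` and `(lam^p u(T))^(1+1/p) = lam^(p+1) u(T)^(1+1/p)` (`p > 0`). -/
def S_Tr : Prop := S_LapB → S_Mob1 → S_Mob2 → S_Mob3 → S_Cov → S_CovB →
  ∀ (n : ℕ) (a : E n) (u : E n → ℝ), 3 ≤ n → ‖a‖ < 1 → Sup n u →
  Sup n (tr a u) ∧ ∀ κ : ℝ, Bd n κ u → Bd n κ (tr a u)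

/-- **HE.** Centering (Hersch).

Proof. `F` on the sphere is `f`, so it is continuous there with values of norm one.  Let
`H a = ∫ F (mob a (ρ g e))` for `‖a‖ ≤ 1`.  (1) `H` is continuous on the closed ball: dominated convergence (`‖F‖ ≤ 1`); for fixed `x` in the sphere, `x ≠ - a₀`, the map
`a ↦ mob a x` is continuous at `a₀` (within the closed ball; `den a₀ x > 0`) and has values in the sphere (M1; `x ≠ - a` for `a` near `a₀`), and the set of the `g` with `ρ g e = - a₀` has measure zero (NA).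
(2) `H a = F a` for `‖a‖ = 1` (M1, NA).  If `H a ≠ 0` for all `‖a‖ < 1`, then `(t, x) ↦ H (t x) / ‖H (t x)‖` is a homotopy in the sphere
from the constant map with value `H 0 / ‖H 0‖` to `f`: contradiction. -/
def S_Hersch : Prop := S_Atom → S_Mob1 → ∀ (n : ℕ) (A : Avg n), 2 ≤ n →
  ∀ f : C(Sph n, Sph n), ¬ f.Nullhomotopic → ∀ F : E n → E n, (∀ x : Sph n, F x = f x) →
  ∀ e : E n, ‖e‖ = 1 → ∃ a : E n, ‖a‖ < 1 ∧ ∫ g, F (mob a (A.ρ g e)) ∂A.μ = 0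

/-- **IN.** The identity of the sphere is not homotopic to a constant map.

Proof. `Pool/Agent/Lib/BrouwerThm/Basic.lean` (`exists_zero_of_eq_id`): a continuous map of `ℝⁿ` which is the identity
outside of a ball has a zero.  If `H` is a homotopy from the constant map `y` to the identity, then the map with the values
`x` for `‖x‖ ≥ 2`, `(2 - ...)`, for instance `G x = x` for `‖x‖ ≥ 1`, `G x = H (‖x‖) (x / ‖x‖)` for `0 < ‖x‖ ≤ 1` and `G 0 = y` (continuous at `0` after the reparametrisation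
`H (max 0 (2 ‖x‖ - 1))`, which is `y` for `‖x‖ ≤ 1/2`) has no zero. -/
def S_IdNot : Prop := ∀ n : ℕ, 1 ≤ n → ¬ (ContinuousMap.id (Sph n)).Nullhomotopic

/-- **LN.** The length for a conformal metric.

Proof. `∑_ij (e^(2s) δ_ij) γ'_i γ'_j = e^(2s) ‖γ'‖²`. -/
def S_Len : Prop := ∀ (n : ℕ) (s : E n → ℝ) (γ : ℝ → E n),
  len (conf s) γ = ∫ t in (0 : ℝ)..1, Real.exp (s (γ t)) * ‖deriv γ t‖

/-- **LP.** The map `F ∘ mob a` along great circles.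

Proof. Let `c t = cos t b + sin t c'`, a smooth curve in the sphere with `‖c'‖ = 1`, `γ t = mob a (c (σ + t (τ - σ)))`: a `C¹` curve in the sphere (M1, M2),
`‖γ' t‖ = (τ - σ) lam a (c ..)`.  The hypothesis and LN: `R angle (f x) (f y) ≤ ∫_0^1 e^(s (γ)) (τ - σ) lam a (..)` and the
substitution gives the integral over `[σ, τ]`.  Finally `‖f x - f y‖ ≤ angle (f x) (f y)` for unit vectors (`‖u - v‖ = 2 sin (angle / 2)`). -/
def S_LipPath : Prop := S_Mob1 → S_Mob2 → S_Len → ∀ (n : ℕ) (s : E n → ℝ) (R : ℝ)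
  (f : C(Sph n, Sph n)) (F : E n → E n) (a : E n), 0 < R → Continuous s → ‖a‖ < 1 →
  (∀ x : Sph n, F x = f x) →
  (∀ γ : ℝ → E n, ContDiff ℝ 1 γ → (∀ t ∈ Set.Icc (0 : ℝ) 1, γ t ∈ Metric.sphere (0 : E n) 1) →
    ∀ x y : Sph n, γ 0 = x → γ 1 = y →
      R * InnerProductGeometry.angle (f x : E n) (f y : E n) ≤ len (conf s) γ) →
  ∀ b c : E n, ‖b‖ = 1 → ‖c‖ = 1 → inner ℝ b c = 0 → ∀ σ τ : ℝ, σ ≤ τ →
    ‖F (mob a (Real.cos τ • b + Real.sin τ • c)) - F (mob a (Real.cos σ • b + Real.sin σ • c))‖ ≤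
      ∫ t in σ..τ, Real.exp (s (mob a (Real.cos t • b + Real.sin t • c))) *
        lam a (Real.cos t • b + Real.sin t • c) / R

/-- **CR.** The core: a centered conformal transform.

Proof. Take `f` from `RadGe`, `F` its extension by `0`, `a` from HE, `v = tr a u`.  TR gives `Sup` and `Bd`.  LP and PO, applied to
`F ∘ mob a` and `w = e^(s ∘ mob a) lam a / R` (continuous on the sphere by M1, M2), give
`1 ≤ ∫ w² = R⁻² ∫ e^(2 s (T)) lam²`, and `v^(2/p) = lam² e^(2 s (T))` on the sphere. -/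
def S_Core : Prop := S_Atom → S_Pars → S_Circ → S_Poinc → S_LapB → S_Mob1 → S_Mob2 → S_Mob3 →
  S_Cov → S_CovB → S_Tr → S_Hersch → S_Len → S_LipPath →
  ∀ (n : ℕ) (A : Avg n) (s : E n → ℝ) (R : ℝ) (e : E n), 3 ≤ n → Continuous s → ‖e‖ = 1 →
  Sup n (fun x => Real.exp (pp n * s x)) → 0 < R → RadGe (conf s) R →
  ∃ v : E n → ℝ, Sup n v ∧
    (∀ κ : ℝ, Bd n κ (fun x => Real.exp (pp n * s x)) → Bd n κ v) ∧
    R ^ 2 ≤ ∫ g, v (A.ρ g e) ^ (2 / pp n) ∂A.μ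

/-- **IE.** The main inequality.  `c = κ / p`.

Proof. `v` from CR, `M = ∫ v (ρ g e)`, `x = M^(1/p)`; ME: `0 < M ≤ 1`.
`n ≥ 6`: `2 / p ≤ 1`, Jensen for the concave `t ↦ t^(2/p)`: `R² ≤ ∫ v^(2/p) ≤ M^(2/p) = x² ≤ 1`.  With `Bd`: ME and Jensen for
`t^(1+1/p)`: `κ M^(1+1/p) ≤ p M sqrt (1 - M^(2/p))`, so `c x ≤ sqrt (1 - x²)`, `x² (1 + c²) ≤ 1`.
`n = 4, 5` (`1 ≤ p`, `2/p ≤ 1 + 1/p`): with `y = (∫ v^(1+1/p))^(1/(p+1))` Jensen (power means) gives `R² ≤ ∫ v^(2/p) ≤ y²` and `x ≤ y`; ME: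
`c y^(p+1) ≤ x^p sqrt (1 - x²)`, `0 < x ≤ 1`.  Let `q = p / (p + 1) = (n - 2) / n` and `c² ≥ 1 / p = 2 / (n - 2)`.  By AM-GM (weights `p`, `1`)
`x^(2p) (1 - x²) ≤ q^p (1 - q)`.  If `y² > q`: `c² y^(2p+2) > (1/p) q^(p+1) = q^p (1 - q)` (as `q / p = 1 - q`): contradiction.  So `y² ≤ q`; the function
`t^p (1 - t)` is monotone on `[0, q]` and `x² ≤ y² ≤ q`: `c² y^(2p+2) ≤ y^(2p) (1 - y²)`, that is `y² (1 + c²) ≤ 1`. -/
def S_Ineq : Prop := ∀ (n : ℕ) (A : Avg n) (v : E n → ℝ) (R : ℝ) (e : E n), 3 ≤ n → ‖e‖ = 1 →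
  0 < R → Sup n v → R ^ 2 ≤ ∫ g, v (A.ρ g e) ^ (2 / pp n) ∂A.μ →
  0 < ∫ g, v (A.ρ g e) ∂A.μ → ∫ g, v (A.ρ g e) ∂A.μ ≤ 1 →
  (6 ≤ n → R ≤ 1) ∧
  ∀ c : ℝ, 0 ≤ c → (pp n * c) * ∫ g, v (A.ρ g e) ^ (1 + 1 / pp n) ∂A.μ ≤
      pp n * (∫ g, v (A.ρ g e) ∂A.μ) * Real.sqrt (1 - (∫ g, v (A.ρ g e) ∂A.μ) ^ (2 / pp n)) →
    (6 ≤ n ∨ (4 ≤ n ∧ 2 / ((n : ℝ) - 2) ≤ c ^ 2)) → R ^ 2 * (1 + c ^ 2) ≤ 1

/-- **SC.** The scalar curvature of a conformal metric.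

Proof. `g_ij = e^(2s) δ_ij`, `g^ij = e^(-2s) δ_ij`, `Γ^k_ij = δ_jk s_i + δ_ik s_j - δ_ij s_k` (`s_i = ∂_i s`), for all points.
`R_ij = - (n - 2) (s_ij - s_i s_j) - (∑_k s_kk + (n - 2) ∑_k s_k²) δ_ij`, and the trace with `e^(-2s) δ_ij`. -/
def S_Sc : Prop := ∀ (n : ℕ) (s : E n → ℝ) (x : E n), ContDiff ℝ (↑(⊤ : ℕ∞)) s →
  scal (conf s) x = - Real.exp (-2 * s x) * (2 * ((n : ℝ) - 1) * lap s x +
    ((n : ℝ) - 1) * ((n : ℝ) - 2) * ∑ i, pd i s x ^ 2)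

/-- **HH.** The mean curvature of the unit sphere for a conformal metric.

Proof. `det g = e^(2ns)`, `ν^i = e^(-s) x_i / |x|`, so near `x`: `√det g ν^i = e^((n-1)s) x_i / |x|` and the divergence is
`e^((n-1)s) ((n-1) Ds(x)(x) / |x| + (n - 1) / |x|)`; at `‖x‖ = 1` divide by `e^(ns)`. -/
def S_H : Prop := ∀ (n : ℕ) (s : E n → ℝ) (x : E n), ContDiff ℝ (↑(⊤ : ℕ∞)) s → ‖x‖ = 1 →
  meanCurv (conf s) x = Real.exp (- s x) * ((n : ℝ) - 1) * (1 + fderiv ℝ s x x)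

/-- **US.** Translation to `u = e^(p s)`.

Proof. `p = pp n > 0`.  `lap u = e^(ps) (p lap s + p² ∑ s_i²)`; SC: `Sc ≥ n (n-1)` says
`- (2 (n-1) lap s + (n-1)(n-2) ∑ s_i²) ≥ n (n-1) e^(2s)`; multiply by `p e^(ps) / (2 (n-1))` (`(n-2)/2 = p`, `n / 2 = p + 1`):
`- lap u ≥ p (p+1) e^((p+2)s)`, and `u^(1+2/p) = e^((p+2)s)`.  HH: `h ≤ e^(-s) (n-1) (1 + Ds(x)(x))` gives
`(p h / (n-1)) e^((p+1)s) ≤ p e^(ps) (1 + Ds(x)(x)) = Du(x)(x) + p u`. -/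
def S_US : Prop := S_Sc → S_H → ∀ (n : ℕ) (s : E n → ℝ), 3 ≤ n → ContDiff ℝ (↑(⊤ : ℕ∞)) s →
  (∀ x ∈ Metric.closedBall (0 : E n) 1, (n : ℝ) * ((n : ℝ) - 1) ≤ scal (conf s) x) →
  Sup n (fun x => Real.exp (pp n * s x)) ∧
  ∀ h : ℝ, (∀ x ∈ Metric.sphere (0 : E n) 1, h ≤ meanCurv (conf s) x) →
    Bd n (pp n * (h / ((n : ℝ) - 1))) (fun x => Real.exp (pp n * s x))

/-- the parameter of the cap of boundary radius `R` -/
noncomputable def capl (R : ℝ) : ℝ := (1 - Real.sqrt (1 - R ^ 2)) / R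

/-- the conformal factor of the round cap with boundary radius `R` -/
noncomputable def capS (n : ℕ) (R : ℝ) (x : E n) : ℝ :=
  Real.log (2 * capl R / (1 + capl R ^ 2 * ‖x‖ ^ 2))

/-- **CC.** The round caps.

Proof. `l = capl R`, `0 < l ≤ 1`, `2 l / (1 + l²) = R`, `(1 - l²) / (1 + l²) = √(1 - R²)`.  `s = log (2l) - log (1 + l² |x|²)`, `s_i = - 2 l² x_i / (1 + l²|x|²)`,
`lap s = - 2 l² n / D + 4 l⁴ |x|² / D²`, `∑ s_i² = 4 l⁴ |x|² / D²`, `D = 1 + l² |x|²`; SC: `Sc = (D² / 4 l²) (4 (n-1) n l² / D - (8 (n-1) l⁴ |x|² + 4 (n-1)(n-2) l⁴ |x|²) / D²)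
= n (n-1) (D - l² |x|²) = n (n-1)`.  HH: `H = (n-1) (1 - 2l²/(1+l²)) / R = (n-1) √(1-R²) / R = (n-1) √(1/R² - 1)`. -/
def S_Cap : Prop := S_Sc → S_H → ∀ (n : ℕ) (R : ℝ), 2 ≤ n → 0 < R → R ≤ 1 →
  ContDiff ℝ (↑(⊤ : ℕ∞)) (capS n R) ∧
  (∀ x : E n, scal (conf (capS n R)) x = (n : ℝ) * ((n : ℝ) - 1)) ∧
  ∀ x ∈ Metric.sphere (0 : E n) 1, Real.exp (capS n R x) = R ∧
    meanCurv (conf (capS n R)) x = ((n : ℝ) - 1) * Real.sqrt (1 / R ^ 2 - 1)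

/-- **AN.** The angle is at most the length.

Proof. Let `L t = ∫_0^t ‖γ'‖`; we may assume `L 1 < π` (angles are at most `π`).  Let `h t = ⟨γ t, γ 0⟩`.  `γ' ⟂ γ` (for `t` in `(0, 1)`), so `|h'| = |⟨γ', γ 0 - h γ⟩| ≤ ‖γ'‖ √(1 - h²)`.  For
`ε > 0` small the function `q t = cos (L t + ε (1 + t)) - h t` is negative at `0` and cannot have a first zero `t₀`: there `h = cos θ`, `θ = L t₀ + ε (1 + t₀) ∈ (0, π)`, and
`q' t₀ = - (‖γ'‖ + ε) sin θ - h' ≤ - ε sin θ < 0`.  So `h 1 ≥ cos (L 1 + 2 ε)`, that is `angle ≤ L 1 + 2 ε`; let `ε → 0`.  (`q` is continuous on `[0, 1]`, differentiable in the interior.) -/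
def S_Ang : Prop := ∀ (n : ℕ) (γ : ℝ → E n), ContDiff ℝ 1 γ →
  (∀ t ∈ Set.Icc (0 : ℝ) 1, ‖γ t‖ = 1) →
  InnerProductGeometry.angle (γ 0) (γ 1) ≤ ∫ t in (0 : ℝ)..1, ‖deriv γ t‖

/-- **CA.** The boundary of the cap of radius `R` has hyperspherical radius at least `R`.

Proof. The identity map (IN); LN, `e^s = R` on the sphere (CC) and AN. -/
def S_CapRad : Prop := S_IdNot → S_Len → S_Ang → S_Sc → S_H → S_Cap →
  ∀ (n : ℕ) (R : ℝ), 2 ≤ n → 0 < R → R ≤ 1 → RadGe (conf (capS n R)) R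

/-- the main inequality for metrics -/
def S_MI : Prop := ∀ (n : ℕ) (s : E n → ℝ) (R : ℝ), 3 ≤ n → ContDiff ℝ (↑(⊤ : ℕ∞)) s →
  (∀ x ∈ Metric.closedBall (0 : E n) 1, (n : ℝ) * ((n : ℝ) - 1) ≤ scal (conf s) x) → 0 < R →
  RadGe (conf s) R → (6 ≤ n → R ≤ 1) ∧ ∀ h : ℝ, 0 ≤ h →
    (∀ x ∈ Metric.sphere (0 : E n) 1, h ≤ meanCurv (conf s) x) →
    (6 ≤ n ∨ (4 ≤ n ∧ 2 / ((n : ℝ) - 2) ≤ (h / ((n : ℝ) - 1)) ^ 2)) →
    R ^ 2 * (1 + (h / ((n : ℝ) - 1)) ^ 2) ≤ 1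

/-- **FI.** The final theorem from the main inequality and the caps.

Proof. Upper bound: let `s` be in the class.  If the infimum were `> (n-1) √(1/R² - 1)` there would be a real `h` strictly between; `MI` gives
`R² (1 + (h/(n-1))²) ≤ 1`, so `h ≤ (n-1) √(1/R² - 1)`: contradiction (for `n = 4, 5`: `h/(n-1) ≥ √(1/R² - 1)` and `1/R² - 1 ≥ n/(n-2) - 1 = 2/(n-2)`).  For
`n ≥ 6`, `R > 1` the class is empty by `MI`.  Attained: `capS n R` is in the class: `HasRad`: `R` is in the set by CA; if `r` is in the set then `MI` for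
`h = (n-1) √(1/R² - 1)` gives `r² / R² ≤ 1` (for `n = 4, 5` the condition is satisfied as above).  The infimum of the constant `meanCurv` over the (nonempty) sphere is this constant. -/
def S_Final : Prop := S_MI → S_Cap → S_CapRad → S_IdNot → S_Len → S_Ang → S_Sc → S_H →
  ∀ (n : ℕ) (R : ℝ), 0 < R →
  (6 ≤ n → PhiConf n R = if R ≤ 1 then (((((n : ℝ) - 1) * Real.sqrt (1 / R ^ 2 - 1) : ℝ)) : EReal)
    else ⊥) ∧
  (4 ≤ n → R ^ 2 ≤ ((n : ℝ) - 2) / n →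
    PhiConf n R = (((((n : ℝ) - 1) * Real.sqrt (1 / R ^ 2 - 1) : ℝ)) : EReal))

end Pool.Agent.MP562567
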